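import Mathlib
import Pool.Agent.Q1.M4.Poly

set_option autoImplicit false
open Finset

/-! # Fine rooms: interface between the cells and the tiles (Route W, D11 (3))

`Q` : the fine cells of the polygon, `pl` : the plates (`pl c = some κ`: the cell `c` is in the plate `κ`).
A fine room consists of the cells `y0 ≤ y < y1`, `A y ≤ x < W`; they are natural (`pl = none`), every
other neighbour is in a plate or outside `Q`, and the plate or wall does not change on a straight piece of
the boundary of the room. -/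

namespace Pool.Agent.H78.W

open Pool.Agent.Q1.M4 (Cell)

variable {κ : Type*}

/-- all cells `(x, y)`, `l ≤ x < r`, are in one plate, or all of them are outside `Q` -/
def Seg (Q : Finset Cell) (pl : Cell → Option κ) (l r y : ℤ) : Prop :=
  (∃ k, ∀ x, l ≤ x → x < r → pl (x, y) = some k) ∨ (∀ x, l ≤ x → x < r → (x, y) ∉ Q)

/-- **Fine room.** -/
structure FRm (Q : Finset Cell) (pl : Cell → Option κ) (W y0 y1 : ℤ) (A : ℤ → ℤ) : Prop where
  lt : y0 < y1
  AW : ∀ y, y0 ≤ y → y < y1 → A y < W
  /-- plates are inside `Q` -/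
  plQ : ∀ c, pl c ≠ none → c ∈ Q
  /-- the cells of the room are natural -/
  nat : ∀ x y, y0 ≤ y → y < y1 → A y ≤ x → x < W → (x, y) ∈ Q ∧ pl (x, y) = none
  /-- the right wall, with the two diagonal cells -/
  rt : ∀ y, y0 - 1 ≤ y → y ≤ y1 → (W, y) ∉ Q
  /-- left neighbours -/
  lf : ∀ y, y0 ≤ y → y < y1 → pl (A y - 1, y) ≠ none ∨ (A y - 1, y) ∉ Q
  /-- the floor of the first row -/
  bot : Seg Q pl (A y0) W (y0 - 1)
  /-- the ceiling of the last row -/
  top : Seg Q pl (A (y1 - 1)) W y1
  /-- the floor of the row `y` beside the row below -/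
  dn : ∀ y, y0 < y → y < y1 → A y < A (y - 1) → Seg Q pl (A y) (A (y - 1)) (y - 1)
  /-- the ceiling of the row `y` beside the row above -/
  up : ∀ y, y0 ≤ y → y + 1 < y1 → A y < A (y + 1) → Seg Q pl (A y) (A (y + 1)) (y + 1)
  /-- straight vertical walls -/
  eq : ∀ y, y0 ≤ y → y + 1 < y1 → A y = A (y + 1) → pl (A y - 1, y) = pl (A y - 1, y + 1)
  /-- the diagonal cell at a lower left convex corner is the left neighbour continued -/
  dBL : ∀ y, y0 ≤ y → y < y1 → (y = y0 ∨ A y < A (y - 1)) →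
    pl (A y - 1, y - 1) = pl (A y - 1, y) ∧ ((A y - 1, y) ∉ Q → (A y - 1, y - 1) ∉ Q)
  /-- the same at an upper left convex corner -/
  dTL : ∀ y, y0 ≤ y → y < y1 → (y = y1 - 1 ∨ A y < A (y + 1)) →
    pl (A y - 1, y + 1) = pl (A y - 1, y) ∧ ((A y - 1, y) ∉ Q → (A y - 1, y + 1) ∉ Q)

end Pool.Agent.H78.W
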