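import Mathlib
import Pool.Agent.Q1.M4.Poly

set_option autoImplicit false
open Finset

/-! # Rooms of a set of cells (Route W, D11)

A row interval `Iv F l r y` is a maximal interval `l ≤ x < r` of the row `y` of `F`. A room
`Rm F W y0 y1 A` consists of the row intervals `[A y, W)`, `y0 ≤ y < y1`, along a maximal right side
`{W} × [y0, y1)`. -/

namespace Pool.Agent.H78.W

open Pool.Agent.Q1.M4 (Cell)

/-- **Row interval** of the set of cells `F`. -/
structure Iv (F : Set Cell) (l r y : ℤ) : Prop where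
  lt : l < r
  mem : ∀ x, l ≤ x → x < r → ((x, y) : Cell) ∈ F
  lf : ((l - 1, y) : Cell) ∉ F
  rt : ((r, y) : Cell) ∉ F

namespace Iv

variable {F : Set Cell} {l r l' r' y x : ℤ}

lemma left_le (h : Iv F l r y) (h' : Iv F l' r' y) (h1 : l ≤ x) (h2 : x < r) (h1' : l' ≤ x)
    (h2' : x < r') : l' ≤ l := by
  by_contra hc
  exact h'.lf (h.mem _ (by omega) (by omega))

lemma right_le (h : Iv F l r y) (h' : Iv F l' r' y) (h1 : l ≤ x) (h2 : x < r) (h1' : l' ≤ x)
    (h2' : x < r') : r ≤ r' := by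
  by_contra hc
  exact h'.rt (h.mem _ (by omega) (by omega))

/-- two row intervals with a common cell are equal -/
lemma eq (h : Iv F l r y) (h' : Iv F l' r' y) (h1 : l ≤ x) (h2 : x < r) (h1' : l' ≤ x)
    (h2' : x < r') : l = l' ∧ r = r' :=
  ⟨le_antisymm (h'.left_le h h1' h2' h1 h2) (h.left_le h' h1 h2 h1' h2'),
    le_antisymm (h.right_le h' h1 h2 h1' h2') (h'.right_le h h1' h2' h1 h2)⟩

/-- two row intervals with the same left end are equal -/
lemma eq_of_left (h : Iv F l r y) (h' : Iv F l r' y) : r = r' :=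
  (h.eq h' le_rfl h.lt le_rfl h'.lt).2

/-- two row intervals with the same right end are equal -/
lemma eq_of_right (h : Iv F l r y) (h' : Iv F l' r y) : l = l' := by
  have a := h.lt
  have b := h'.lt
  exact (h.eq h' (x := r - 1) (by omega) (by omega) (by omega) (by omega)).1

end Iv

lemma exists_right {F : Set Cell} {B x y : ℤ} (hB : ∀ c ∈ F, c.1 < B) (h : ((x, y) : Cell) ∈ F) :
    ∃ r, x < r ∧ (∀ z, x ≤ z → z < r → ((z, y) : Cell) ∈ F) ∧ ((r, y) : Cell) ∉ F := by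
  classical
  have hex : ∃ k : ℕ, ((x + k, y) : Cell) ∉ F := by
    refine ⟨(B - x).toNat, fun h1 => ?_⟩
    have h2 := hB _ h1
    have h3 := hB _ h
    simp only at h2 h3
    omega
  refine ⟨x + Nat.find hex, ?_, ?_, Nat.find_spec hex⟩
  · rcases Nat.eq_zero_or_pos (Nat.find hex) with h0 | h0
    · have h1 := Nat.find_spec hex
      rw [h0] at h1
      exact absurd (by simpa using h) h1
    · omega
  · intro z h1 h2
    have h3 := Nat.find_min hex (m := (z - x).toNat) (by omega)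
    rw [not_not] at h3
    have h4 : x + ((z - x).toNat : ℤ) = z := by omega
    rwa [h4] at h3

lemma exists_left {F : Set Cell} {B x y : ℤ} (hB : ∀ c ∈ F, B ≤ c.1) (h : ((x, y) : Cell) ∈ F) :
    ∃ l, l ≤ x ∧ (∀ z, l ≤ z → z ≤ x → ((z, y) : Cell) ∈ F) ∧ ((l - 1, y) : Cell) ∉ F := by
  classical
  have hex : ∃ k : ℕ, ((x - k - 1, y) : Cell) ∉ F := by
    refine ⟨(x - B).toNat, fun h1 => ?_⟩
    have h2 := hB _ h1
    have h3 := hB _ h
    simp only at h2 h3
    omega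
  refine ⟨x - Nat.find hex, by omega, ?_, Nat.find_spec hex⟩
  intro z h1 h2
  rcases eq_or_lt_of_le h2 with rfl | h2
  · exact h
  · have h3 := Nat.find_min hex (m := (x - z - 1).toNat) (by omega)
    rw [not_not] at h3
    have h4 : x - ((x - z - 1).toNat : ℤ) - 1 = z := by omega
    rwa [h4] at h3

/-- `F` is bounded -/
def Bd (F : Set Cell) (B : ℤ) : Prop := ∀ c ∈ F, -B ≤ c.1 ∧ c.1 < B ∧ -B ≤ c.2 ∧ c.2 < B

lemma exists_Bd (Q : Finset Cell) : ∃ B, Bd (Q : Set Cell) B := by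
  classical
  refine ⟨∑ c ∈ Q, (|c.1| + |c.2| + 1), fun c hc => ?_⟩
  have h1 : |c.1| + |c.2| + 1 ≤ ∑ c ∈ Q, (|c.1| + |c.2| + 1) :=
    single_le_sum (f := fun c : Cell => |c.1| + |c.2| + 1) (fun c _ => by positivity)
      (by simpa using hc)
  have h2 := neg_abs_le c.1
  have h3 := le_abs_self c.1
  have h4 := neg_abs_le c.2
  have h5 := le_abs_self c.2
  have h6 := abs_nonneg c.1
  have h7 := abs_nonneg c.2
  refine ⟨by linarith, by linarith, by linarith, by linarith⟩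

lemma exists_iv {F : Set Cell} {B x y : ℤ} (hB : Bd F B) (h : ((x, y) : Cell) ∈ F) :
    ∃ l r, Iv F l r y ∧ l ≤ x ∧ x < r := by
  obtain ⟨r, h1, h2, h3⟩ := exists_right (fun c hc => (hB c hc).2.1) h
  obtain ⟨l, h4, h5, h6⟩ := exists_left (fun c hc => (hB c hc).1) h
  refine ⟨l, r, ⟨by omega, fun z h7 h8 => ?_, h6, h3⟩, h4, h1⟩
  rcases le_or_gt z x with h9 | h9
  · exact h5 z h7 h9
  · exact h2 z h9.le h8

/-- **Room**: the row intervals which end at the maximal right side `{W} × [y0, y1)`. -/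
structure Rm (F : Set Cell) (W y0 y1 : ℤ) (A : ℤ → ℤ) : Prop where
  lt : y0 < y1
  iv : ∀ y, y0 ≤ y → y < y1 → Iv F (A y) W y
  bot : ∀ l, ¬ Iv F l W (y0 - 1)
  top : ∀ l, ¬ Iv F l W y1

/-- the cells of a room -/
def RmC (W y0 y1 : ℤ) (A : ℤ → ℤ) : Set Cell := {c | y0 ≤ c.2 ∧ c.2 < y1 ∧ A c.2 ≤ c.1 ∧ c.1 < W}

/-- every cell lies in a room -/
theorem exists_rm {F : Set Cell} {B x y : ℤ} (hB : Bd F B) (h : ((x, y) : Cell) ∈ F) :
    ∃ W y0 y1 A, Rm F W y0 y1 A ∧ ((x, y) : Cell) ∈ RmC W y0 y1 A := by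
  classical
  obtain ⟨l, r, h1, h2, h3⟩ := exists_iv hB h
  set R : Set Cell := {c | c.1 = 0 ∧ ∃ l, Iv F l r c.2} with hR
  have hRb : ∀ c ∈ R, -B ≤ c.2 ∧ c.2 < B := by
    rintro c ⟨-, l', h4⟩
    have := hB _ (h4.mem l' le_rfl h4.lt)
    exact ⟨this.2.2.1, this.2.2.2⟩
  -- swap the coordinates
  set R' : Set Cell := {c | c.2 = 0 ∧ ∃ l, Iv F l r c.1} with hR'
  have h0 : ((y, 0) : Cell) ∈ R' := ⟨rfl, l, h1⟩
  obtain ⟨y1, h4, h5, h6⟩ := exists_right (F := R') (B := B) (by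
    rintro c ⟨h7, l', h8⟩
    exact (hRb (0, c.1) ⟨rfl, l', h8⟩).2) h0
  obtain ⟨y0, h7, h8, h9⟩ := exists_left (F := R') (B := -B) (by
    rintro c ⟨h7, l', h8⟩
    exact (hRb (0, c.1) ⟨rfl, l', h8⟩).1) h0
  have hex : ∀ z, y0 ≤ z → z < y1 → ∃ l, Iv F l r z := by
    intro z h10 h11
    rcases le_or_gt z y with h12 | h12
    · exact (h8 z h10 h12).2
    · exact (h5 z h12.le h11).2
  choose! A hA using hex
  refine ⟨r, y0, y1, A, ⟨by omega, hA, fun l' h10 => h9 ⟨rfl, l', h10⟩,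
    fun l' h10 => h6 ⟨rfl, l', h10⟩⟩, h7, h4, ?_, h3⟩
  have h10 := (hA y h7 h4).eq_of_right h1
  show A y ≤ x
  omega

variable {F : Set Cell} {W W' y0 y1 y0' y1' : ℤ} {A A' : ℤ → ℤ} {c : Cell}

lemma Rm.mem (h : Rm F W y0 y1 A) (hc : c ∈ RmC W y0 y1 A) : c ∈ F :=
  (h.iv c.2 hc.1 hc.2.1).mem c.1 hc.2.2.1 hc.2.2.2

/-- two rooms with the same right end and a common row are equal -/
theorem Rm.eq_of_row (h : Rm F W y0 y1 A) (h' : Rm F W y0' y1' A') {y : ℤ} (a0 : y0 ≤ y)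
    (a1 : y < y1) (b0 : y0' ≤ y) (b1 : y < y1') :
    y0 = y0' ∧ y1 = y1' ∧ ∀ z, y0 ≤ z → z < y1 → A z = A' z := by
  have e0 : y0 = y0' := by
    rcases lt_trichotomy y0 y0' with h1 | h1 | h1
    · exact absurd (h.iv (y0' - 1) (by omega) (by omega)) (h'.bot _)
    · exact h1
    · exact absurd (h'.iv (y0 - 1) (by omega) (by omega)) (h.bot _)
  have e1 : y1 = y1' := by
    rcases lt_trichotomy y1 y1' with h1 | h1 | h1
    · exact absurd (h'.iv y1 (by omega) (by omega)) (h.top _)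
    · exact h1
    · exact absurd (h.iv y1' (by omega) (by omega)) (h'.top _)
  subst e0 e1
  exact ⟨rfl, rfl, fun z h1 h2 => (h.iv z h1 h2).eq_of_right (h'.iv z h1 h2)⟩

/-- two rooms with a common cell are equal -/
theorem Rm.eq_of_mem (h : Rm F W y0 y1 A) (h' : Rm F W' y0' y1' A') (hc : c ∈ RmC W y0 y1 A)
    (hc' : c ∈ RmC W' y0' y1' A') :
    W = W' ∧ y0 = y0' ∧ y1 = y1' ∧ ∀ z, y0 ≤ z → z < y1 → A z = A' z := by
  obtain ⟨-, h2⟩ := (h.iv c.2 hc.1 hc.2.1).eq (h'.iv c.2 hc'.1 hc'.2.1) hc.2.2.1 hc.2.2.2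
    hc'.2.2.1 hc'.2.2.2
  subst h2
  exact ⟨rfl, h.eq_of_row h' hc.1 hc.2.1 hc'.1 hc'.2.1⟩

/-- a row interval which ends at the right side of a room, in an adjacent row, belongs to the room -/
lemma Rm.row_up (h : Rm F W y0 y1 A) {y l : ℤ} (a0 : y0 ≤ y) (a1 : y < y1)
    (hi : Iv F l W (y + 1)) : y + 1 < y1 := by
  by_contra h1
  have : y + 1 = y1 := by omega
  exact h.top l (this ▸ hi)

lemma Rm.row_dn (h : Rm F W y0 y1 A) {y l : ℤ} (a0 : y0 ≤ y) (a1 : y < y1)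
    (hi : Iv F l W (y - 1)) : y0 ≤ y - 1 := by
  by_contra h1
  have : y = y0 := by omega
  exact h.bot l (this ▸ hi)

/-! ### Chords -/

/-- **Chord sides**: the cells `(X, Y)`, `(X, Y - 1)` are in `Q` and have different right ends
(10's `gG`). -/
def ChG (Q : Set Cell) : Set Cell := {c | ∃ b, c.1 < b ∧
  (∀ x, c.1 ≤ x → x < b → ((x, c.2) : Cell) ∈ Q ∧ ((x, c.2 - 1) : Cell) ∈ Q) ∧
  ¬ (((b, c.2) : Cell) ∈ Q ↔ ((b, c.2 - 1) : Cell) ∈ Q)}

/-- 5's genericity for a set of cells -/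
def GenS (Q : Set Cell) : Prop := ∀ a b y : ℤ, a < b →
  (∀ x, a ≤ x → x < b → ((x, y) : Cell) ∈ Q ∧ ((x, y - 1) : Cell) ∈ Q) →
  (((a - 1, y) : Cell) ∈ Q ↔ ((a - 1, y - 1) : Cell) ∈ Q) ∨
    (((b, y) : Cell) ∈ Q ↔ ((b, y - 1) : Cell) ∈ Q)

variable {Q : Set Cell} {l r l' r' X Y : ℤ}

/-- a common cell of the row intervals of `Y` and `Y - 1` is a chord side iff the right ends differ -/
lemma mem_ChG (h : Iv Q l r Y) (h' : Iv Q l' r' (Y - 1)) (a1 : l ≤ X) (a2 : X < r) (b1 : l' ≤ X)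
    (b2 : X < r') : ((X, Y) : Cell) ∈ ChG Q ↔ r ≠ r' := by
  constructor
  · rintro ⟨b, h1, h2, h3⟩ rfl
    simp only at h1 h2 h3
    have hb : b = r := by
      rcases lt_trichotomy b r with h4 | h4 | h4
      · exact absurd ⟨fun _ => h'.mem b (by omega) h4, fun _ => h.mem b (by omega) h4⟩ h3
      · exact h4
      · exact absurd (h2 r (by omega) h4).1 h.rt
    subst hb
    exact h3 ⟨fun h5 => absurd h5 h.rt, fun h5 => absurd h5 h'.rt⟩
  · intro hne
    refine ⟨min r r', by simp only; omega, fun x h1 h2 => ?_, fun h3 => ?_⟩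
    · simp only at h1 h2 ⊢
      exact ⟨h.mem x (by omega) (by omega), h'.mem x (by omega) (by omega)⟩
    · simp only at h3
      rcases lt_or_gt_of_ne hne with h4 | h4
      · rw [min_eq_left h4.le] at h3
        exact h.rt (h3.2 (h'.mem r (by omega) h4))
      · rw [min_eq_right h4.le] at h3
        exact h'.rt (h3.1 (h.mem r' (by omega) h4))

/-- **a chord starts at a common left end** -/
lemma left_eq (hG : GenS Q) (h : Iv Q l r Y) (h' : Iv Q l' r' (Y - 1)) (hl : max l l' < min r r')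
    (hne : r ≠ r') : l = l' := by
  have h1 := hG (max l l') (min r r') Y hl (fun x h2 h3 =>
    ⟨h.mem x (by omega) (by omega), h'.mem x (by omega) (by omega)⟩)
  by_contra hc
  rcases h1 with h1 | h1
  · rcases lt_or_gt_of_ne hc with h2 | h2
    · rw [max_eq_right h2.le] at h1
      exact h'.lf (h1.1 (h.mem _ (by omega) (by omega)))
    · rw [max_eq_left h2.le] at h1
      exact h.lf (h1.2 (h'.mem _ (by omega) (by omega)))
  · rcases lt_or_gt_of_ne hne with h2 | h2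
    · rw [min_eq_left h2.le] at h1
      exact h.rt (h1.2 (h'.mem _ (by omega) h2))
    · rw [min_eq_right h2.le] at h1
      exact h'.rt (h1.1 (h.mem _ (by omega) h2))

end Pool.Agent.H78.W
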