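import Mathlib
import Pool.Agent.H78.W.FRoom
import Pool.Agent.H13.W.Top

set_option autoImplicit false
open Finset

/-! # Chords and fine plates in a row interval (Route W, D11)

`chord_dn`, `chord_up` : in a row interval `[l, r)` of the row `Y` of a generic polyomino the chord sides
of the lines `Y`, `Y + 1` are `[l, e)`. `plV_iff` : the fine plates in terms of the cell. -/

namespace Pool.Agent.H78.W

open Pool.Agent.Q1.M4 (Cell)
open Pool.Agent.H13.W (chG)
open Pool.Agent.H5.C3 (Gen)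
open Pool.Agent.H58.W (plV)

variable {Q : Finset Cell} {l r l' r' X Y : ℤ}

lemma genS (h : Gen Q) : GenS (Q : Set Cell) := fun a b y h1 h2 => h a b y h1 h2

lemma mem_chG {c : Cell} : c ∈ chG Q ↔ c ∈ ChG (Q : Set Cell) := by
  classical
  unfold chG ChG
  simp only [mem_filter, Set.mem_setOf_eq, mem_coe]
  constructor
  · rintro ⟨-, -, h⟩
    exact h
  · rintro ⟨b, h1, h2, h3⟩
    exact ⟨(h2 _ le_rfl h1).1, (h2 _ le_rfl h1).2, b, h1, h2, h3⟩

lemma chG_sub {c : Cell} (h : c ∈ chG Q) : c ∈ Q ∧ (c.1, c.2 - 1) ∈ Q := by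
  classical
  unfold chG at h
  rw [mem_filter] at h
  exact ⟨h.1, h.2.1⟩

/-- **The lower chord of a row interval.** -/
theorem chord_dn (hG : Gen Q) (h : Iv (Q : Set Cell) l r Y) :
    ∃ e, l ≤ e ∧ e ≤ r ∧ (∀ X, l ≤ X → X < r → ((X, Y) ∈ chG Q ↔ X < e)) ∧
      (l < e → ∃ r', Iv (Q : Set Cell) l r' (Y - 1) ∧ r ≠ r' ∧ e = min r r') := by
  obtain ⟨B, hB⟩ := exists_Bd Q
  by_cases hex : ∃ X, l ≤ X ∧ X < r ∧ (X, Y) ∈ chG Q
  · obtain ⟨X, h1, h2, h3⟩ := hex
    obtain ⟨l', r', h4, h5, h6⟩ := exists_iv hB (x := X) (y := Y - 1) (chG_sub h3).2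
    rw [mem_chG, mem_ChG h h4 h1 h2 h5 h6] at h3
    have h7 := left_eq (genS hG) h h4 (by omega) h3
    subst h7
    refine ⟨min r r', by omega, by omega, fun X' h8 h9 => ?_, fun _ => ⟨r', h4, h3, rfl⟩⟩
    constructor
    · intro h10
      have h11 := (chG_sub h10).2
      simp only at h11
      obtain ⟨l2, r2, k1, k2, k3⟩ := exists_iv hB (x := X') (y := Y - 1) h11
      rw [mem_chG, mem_ChG h k1 h8 h9 k2 k3] at h10
      have h12 := left_eq (genS hG) h k1 (by omega) h10
      subst h12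
      have h13 := k1.eq_of_left h4
      omega
    · intro h10
      rw [mem_chG, mem_ChG h h4 h8 h9 h8 (by omega)]
      exact h3
  · push Not at hex
    refine ⟨l, le_rfl, h.lt.le, fun X h1 h2 => ⟨fun h3 => absurd h3 (hex X h1 h2), fun h3 => by omega⟩,
      fun h1 => absurd h1 (lt_irrefl _)⟩

/-- **The upper chord of a row interval.** -/
theorem chord_up (hG : Gen Q) (h : Iv (Q : Set Cell) l r Y) :
    ∃ e, l ≤ e ∧ e ≤ r ∧ (∀ X, l ≤ X → X < r → ((X, Y + 1) ∈ chG Q ↔ X < e)) ∧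
      (l < e → ∃ r', Iv (Q : Set Cell) l r' (Y + 1) ∧ r ≠ r' ∧ e = min r r') := by
  obtain ⟨B, hB⟩ := exists_Bd Q
  have e1 : Y + 1 - 1 = Y := by ring
  have h' : Iv (Q : Set Cell) l r (Y + 1 - 1) := by rw [e1]; exact h
  by_cases hex : ∃ X, l ≤ X ∧ X < r ∧ (X, Y + 1) ∈ chG Q
  · obtain ⟨X, h1, h2, h3⟩ := hex
    obtain ⟨l', r', h4, h5, h6⟩ := exists_iv hB (x := X) (y := Y + 1) (chG_sub h3).1
    rw [mem_chG, mem_ChG h4 h' h5 h6 h1 h2] at h3
    have h7 := left_eq (genS hG) h4 h' (by omega) h3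
    subst h7
    refine ⟨min r r', by omega, by omega, fun X' h8 h9 => ?_, fun _ => ⟨r', h4, h3.symm, rfl⟩⟩
    constructor
    · intro h10
      have h11 := (chG_sub h10).1
      obtain ⟨l2, r2, k1, k2, k3⟩ := exists_iv hB (x := X') (y := Y + 1) h11
      rw [mem_chG, mem_ChG k1 h' k2 k3 h8 h9] at h10
      have h12 := left_eq (genS hG) k1 h' (by omega) h10
      subst h12
      have h13 := k1.eq_of_left h4
      omega
    · intro h10
      rw [mem_chG, mem_ChG h4 h' (by omega) (by omega) h8 h9]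
      exact h3
  · push Not at hex
    refine ⟨l, le_rfl, h.lt.le, fun X h1 h2 => ⟨fun h3 => absurd h3 (hex X h1 h2), fun h3 => by omega⟩,
      fun h1 => absurd h1 (lt_irrefl _)⟩

/-! ### Fine cells -/

/-- **Thin plates**: `N` plates of `M'` fine cells on a coarse side, half widths `N b - K ≤ M' / 64`. -/
structure Thin (G : Finset Cell) (a0 b : ℤ) (N M' : ℕ) : Prop where
  hN : 0 < N
  hM' : 0 < M'
  ha : ∀ c ∈ G, a0 ≤ c.1
  hb : ∀ c ∈ G, c.1 < b
  thin : 64 * (N * (b - a0)) ≤ M'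

namespace Thin

variable {G : Finset Cell} {a0 b : ℤ} {N M' : ℕ} (T : Thin G a0 b N M') {x y : ℤ}

include T

lemma N0 : (0 : ℤ) < N := by exact_mod_cast T.hN

lemma M0' : (0 : ℤ) < M' := by exact_mod_cast T.hM'

lemma M0 : (0 : ℤ) < N * M' := mul_pos T.N0 T.M0'

lemma M'_le : (M' : ℤ) ≤ N * M' := by
  have h1 := T.N0
  have h2 := T.M0'
  nlinarith

/-- the plate index and the coarse column -/
lemma K_bd (x : ℤ) : N * (x / (N * M' : ℤ)) ≤ x / (M' : ℤ) ∧
    x / (M' : ℤ) < N * (x / (N * M' : ℤ)) + N := by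
  have h1 : x / (N * M' : ℤ) = x / (M' : ℤ) / (N : ℤ) := by
    rw [Int.ediv_ediv_of_nonneg T.M0'.le, mul_comm]
  rw [h1]
  have h2 := Int.mul_ediv_self_le (x := x / (M' : ℤ)) (k := (N : ℤ)) T.N0.ne'
  have h3 := Int.lt_mul_ediv_self_add (x := x / (M' : ℤ)) (k := (N : ℤ)) T.N0
  exact ⟨h2, h3⟩

/-- the half width of a plate over a chord side -/
lemma w_bd {Y : ℤ} (h : ((x / (N * M' : ℤ), Y) : Cell) ∈ G) :
    1 ≤ N * b - x / (M' : ℤ) ∧ 64 * (N * b - x / (M' : ℤ)) ≤ M' := by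
  obtain ⟨h1, h2⟩ := T.K_bd x
  have h3 := T.ha _ h
  have h4 := T.hb _ h
  simp only at h3 h4
  have h5 := T.thin
  have h6 := T.N0
  constructor
  · have : (N : ℤ) * (x / (N * M' : ℤ)) + N ≤ N * b := by nlinarith
    omega
  · have : (N : ℤ) * a0 ≤ N * (x / (N * M' : ℤ)) := by nlinarith
    have e : (N : ℤ) * (b - a0) = N * b - N * a0 := by ring
    rw [e] at h5
    omega

/-- **The fine plates in terms of the cell.** -/
theorem plV_iff : plV G b N M' (x, y) ≠ none ↔
    (((x / (N * M' : ℤ), y / (N * M' : ℤ)) : Cell) ∈ G ∧ y % (N * M' : ℤ) < N * b - x / M') ∨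
    (((x / (N * M' : ℤ), y / (N * M' : ℤ) + 1) : Cell) ∈ G ∧
      N * M' - y % (N * M' : ℤ) ≤ N * b - x / M') := by
  have hM := T.M0
  have hM'M := T.M'_le
  have hw := fun Y h => T.w_bd (x := x) (Y := Y) h
  unfold plV
  simp only [Nat.cast_mul]
  generalize x / (M' : ℤ) = K at *
  generalize hMM : (N * M' : ℤ) = M at *
  generalize x / M = X at *
  have hm := Int.emod_add_mul_ediv y M
  have hm0 := Int.emod_nonneg y hM.ne'
  have hm1 := Int.emod_lt_of_pos y hM
  generalize hYd : y / M = Y at *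
  generalize htd : y % M = t at *
  generalize hwd : N * b - K = w at *
  rcases lt_or_ge t (M - M / 2) with ht | ht
  · have hYn : (y + M / 2) / M = Y := by
      rw [← hm, show t + M * Y + M / 2 = (t + M / 2) + M * Y by ring,
        Int.add_mul_ediv_left _ _ hM.ne', Int.ediv_eq_zero_of_lt (by omega) (by omega), zero_add]
    rw [hYn]
    have e1 : y - M * Y = t := by rw [← hm]; ring
    rw [e1]
    constructor
    · intro h
      left
      by_contra hc
      apply h
      rw [if_neg]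
      rintro ⟨h1, -, h3⟩
      exact hc ⟨h1, h3⟩
    · rintro (⟨h1, h2⟩ | ⟨h1, h2⟩)
      · have := hw _ h1
        rw [if_pos ⟨h1, by omega, h2⟩]
        simp
      · have := hw _ h1
        omega
  · have hYn : (y + M / 2) / M = Y + 1 := by
      rw [← hm, show t + M * Y + M / 2 = (t + M / 2 - M) + M * (Y + 1) by ring,
        Int.add_mul_ediv_left _ _ hM.ne', Int.ediv_eq_zero_of_lt (by omega) (by omega), zero_add]
    rw [hYn]
    have e1 : y - M * (Y + 1) = t - M := by rw [← hm]; ring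
    rw [e1]
    constructor
    · intro h
      right
      by_contra hc
      apply h
      rw [if_neg]
      rintro ⟨h1, h2, -⟩
      exact hc ⟨h1, by omega⟩
    · rintro (⟨h1, h2⟩ | ⟨h1, h2⟩)
      · have := hw _ h1
        omega
      · have := hw _ h1
        rw [if_pos ⟨h1, by omega, by omega⟩]
        simp

end Thin

end Pool.Agent.H78.W
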