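import Mathlib
import Pool.Agent.H78.W.FCh
import Pool.Agent.H78.W.FRm
import Pool.Agent.H68.W.Room

set_option autoImplicit false
open Finset

/-! # Natural cells and plates, pointwise (Route W, D11 (3)) -/

namespace Pool.Agent.H78.W

open Pool.Agent.Q1.M4 (Cell Good)
open Pool.Agent.H13.W (chG)
open Pool.Agent.H5.C3 (Gen)
open Pool.Agent.H58.W (plV)
open Pool.Agent.H68.W (Row RSide lft rgt row_of row_last)

/-- generic coarse polyomino `Q`, thin plates, fine polyomino `Q'` -/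
structure Ctx (Q Q' : Finset Cell) (a0 b : ℤ) (N M' : ℕ) : Prop where
  gen : Gen Q
  good : Good Q
  thin : Thin (chG Q) a0 b N M'
  ref : ∀ x y : ℤ, (x, y) ∈ Q' ↔ (x / (N * M' : ℤ), y / (N * M' : ℤ)) ∈ Q

/-- the cell is in a plate of the chord below -/
def pD (Q : Finset Cell) (b : ℤ) (N M' : ℕ) (x y : ℤ) : Prop :=
  ((x / (N * M' : ℤ), y / (N * M' : ℤ)) : Cell) ∈ chG Q ∧ y % (N * M' : ℤ) < N * b - x / M'

/-- the cell is in a plate of the chord above -/
def pU (Q : Finset Cell) (b : ℤ) (N M' : ℕ) (x y : ℤ) : Prop :=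
  ((x / (N * M' : ℤ), y / (N * M' : ℤ) + 1) : Cell) ∈ chG Q ∧
    N * M' - y % (N * M' : ℤ) ≤ N * b - x / M'

lemma row_iv {F : Finset Cell} {l r y : ℤ} : Row F l r y ↔ Iv (F : Set Cell) l r y :=
  ⟨fun h => ⟨h.lt, h.mem, h.left, h.right⟩, fun h => ⟨h.lt, h.mem, h.lf, h.rt⟩⟩

/-- division of the next row -/
lemma div_add_one {M : ℤ} (hM : 0 < M) (y : ℤ) :
    (y % M + 1 < M ∧ (y + 1) / M = y / M ∧ (y + 1) % M = y % M + 1) ∨
      (y % M + 1 = M ∧ (y + 1) / M = y / M + 1 ∧ (y + 1) % M = 0) := by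
  have h1 := Int.emod_add_mul_ediv y M
  have h2 := Int.emod_nonneg y hM.ne'
  have h3 := Int.emod_lt_of_pos y hM
  by_cases h : y % M + 1 = M
  · right
    have e : y + 1 = 0 + M * (y / M + 1) := by rw [mul_add, mul_one]; omega
    refine ⟨h, ?_, ?_⟩
    · rw [e, Int.add_mul_ediv_left _ _ hM.ne', Int.zero_ediv, zero_add]
    · rw [e, Int.add_mul_emod_self_left, Int.zero_emod]
  · left
    have e : y + 1 = (y % M + 1) + M * (y / M) := by omega
    refine ⟨by omega, ?_, ?_⟩
    · rw [e, Int.add_mul_ediv_left _ _ hM.ne', Int.ediv_eq_zero_of_lt (by omega) (by omega), zero_add]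
    · rw [e, Int.add_mul_emod_self_left, Int.emod_eq_of_lt (by omega) (by omega)]

lemma div_sub_one {M : ℤ} (hM : 0 < M) (y : ℤ) :
    (0 < y % M ∧ (y - 1) / M = y / M ∧ (y - 1) % M = y % M - 1) ∨
      (y % M = 0 ∧ (y - 1) / M = y / M - 1 ∧ (y - 1) % M = M - 1) := by
  rcases div_add_one hM (y - 1) with ⟨h1, h2, h3⟩ | ⟨h1, h2, h3⟩
  · rw [sub_add_cancel] at h2 h3
    have := Int.emod_nonneg (y - 1) hM.ne'
    left
    omega
  · rw [sub_add_cancel] at h2 h3
    right
    omega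

namespace Ctx

variable {Q Q' : Finset Cell} {a0 b : ℤ} {N M' : ℕ} (C : Ctx Q Q' a0 b N M') {x x' y Y l r r' W : ℤ}

include C

lemma M0 : (0 : ℤ) < N * M' := C.thin.M0

lemma M0' : (0 : ℤ) < M' := C.thin.M0'

/-- thickness over a chord side -/
lemma w_bd {Y : ℤ} (h : ((x / (N * M' : ℤ), Y) : Cell) ∈ chG Q) :
    1 ≤ N * b - x / (M' : ℤ) ∧ 64 * (N * b - x / (M' : ℤ)) ≤ N * M' := by
  have h1 := C.thin.w_bd (x := x) h
  have h2 := C.thin.M'_le
  omega

lemma pD_small (h : pD Q b N M' x y) : 64 * (y % (N * M' : ℤ)) < N * M' := by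
  have h1 := C.w_bd h.1
  have h2 := h.2
  omega

lemma pU_big (h : pU Q b N M' x y) : 63 * (N * M' : ℤ) ≤ 64 * (y % (N * M' : ℤ)) := by
  have h1 := C.w_bd h.1
  have h2 := h.2
  omega

lemma not_both (h : pD Q b N M' x y) (h' : pU Q b N M' x' y) : False := by
  have h1 := C.pD_small h
  have h2 := C.pU_big h'
  have := C.M0
  omega

/-- value in the plates of the chord below -/
lemma pl_D (h : pD Q b N M' x y) :
    plV (chG Q) b N M' (x, y) = some (x / (M' : ℤ), y / (N * M' : ℤ)) := by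
  have hM := C.M0
  have h1 := C.w_bd h.1
  have h2 := h.2
  have hs := C.pD_small h
  have h0 := h.1
  unfold plV
  simp only [Nat.cast_mul]
  have hm := Int.emod_add_mul_ediv y (N * M' : ℤ)
  have hm0 := Int.emod_nonneg y hM.ne'
  generalize x / (M' : ℤ) = K at *
  generalize hMM : (N * M' : ℤ) = M at *
  generalize x / M = X at *
  generalize hYd : y / M = Y at *
  generalize htd : y % M = t at *
  have hYn : (y + M / 2) / M = Y := by
    rw [← hm, show t + M * Y + M / 2 = (t + M / 2) + M * Y by ring,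
      Int.add_mul_ediv_left _ _ hM.ne', Int.ediv_eq_zero_of_lt (by omega) (by omega), zero_add]
  rw [hYn]
  have e1 : y - M * Y = t := by rw [← hm]; ring
  rw [e1, if_pos ⟨h0, by omega, h2⟩]

/-- value in the plates of the chord above -/
lemma pl_U (h : pU Q b N M' x y) :
    plV (chG Q) b N M' (x, y) = some (x / (M' : ℤ), y / (N * M' : ℤ) + 1) := by
  have hM := C.M0
  have h1 := C.w_bd h.1
  have h2 := h.2
  have hs := C.pU_big h
  have h0 := h.1
  unfold plV
  simp only [Nat.cast_mul]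
  have hm := Int.emod_add_mul_ediv y (N * M' : ℤ)
  have hm1 := Int.emod_lt_of_pos y hM
  generalize x / (M' : ℤ) = K at *
  generalize hMM : (N * M' : ℤ) = M at *
  generalize x / M = X at *
  generalize hYd : y / M = Y at *
  generalize htd : y % M = t at *
  have hYn : (y + M / 2) / M = Y + 1 := by
    rw [← hm, show t + M * Y + M / 2 = (t + M / 2 - M) + M * (Y + 1) by ring,
      Int.add_mul_ediv_left _ _ hM.ne', Int.ediv_eq_zero_of_lt (by omega) (by omega), zero_add]
  rw [hYn]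
  have e1 : y - M * (Y + 1) = t - M := by rw [← hm]; ring
  rw [e1, if_pos ⟨h0, by omega, by omega⟩]

lemma pl_iff : plV (chG Q) b N M' (x, y) ≠ none ↔ pD Q b N M' x y ∨ pU Q b N M' x y :=
  C.thin.plV_iff

lemma pl_none (h1 : ¬ pD Q b N M' x y) (h2 : ¬ pU Q b N M' x y) :
    plV (chG Q) b N M' (x, y) = none := by
  by_contra h
  rcases C.pl_iff.1 h with h | h
  · exact h1 h
  · exact h2 h

lemma pl_not (h : plV (chG Q) b N M' (x, y) = none) : ¬ pD Q b N M' x y ∧ ¬ pU Q b N M' x y := by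
  constructor
  · intro h1
    rw [C.pl_D h1] at h
    simp at h
  · intro h1
    rw [C.pl_U h1] at h
    simp at h

/-- plates are inside the polyomino -/
lemma pl_Q (h : plV (chG Q) b N M' (x, y) ≠ none) : (x, y) ∈ Q' := by
  rw [C.ref]
  rcases C.pl_iff.1 h with h | h
  · exact (chG_sub h.1).1
  · have := (chG_sub h.1).2
    simp only [add_sub_cancel_right] at this
    exact this

/-! ### Chord sides -/

/-- chord sides of a line are closed to the left in a row interval -/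
lemma ch_dn_left (hr : Row Q l r Y) (h1 : l ≤ x) (h2 : x ≤ x') (h3 : x' < r) (h : (x', Y) ∈ chG Q) :
    (x, Y) ∈ chG Q := by
  obtain ⟨e, -, -, h6, -⟩ := chord_dn C.gen (row_iv.1 hr)
  rw [h6 x' (by omega) h3] at h
  rw [h6 x h1 (by omega)]
  omega

lemma ch_up_left (hr : Row Q l r Y) (h1 : l ≤ x) (h2 : x ≤ x') (h3 : x' < r)
    (h : (x', Y + 1) ∈ chG Q) : (x, Y + 1) ∈ chG Q := by
  obtain ⟨e, -, -, h6, -⟩ := chord_up C.gen (row_iv.1 hr)
  rw [h6 x' (by omega) h3] at h
  rw [h6 x h1 (by omega)]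
  omega

omit C in
/-- rows with the same right end have no chord side in common -/
lemma not_ch (h : Row Q l W Y) (h' : Row Q r W (Y - 1)) (h1 : l ≤ x) (h2 : r ≤ x) (h3 : x < W) :
    (x, Y) ∉ chG Q := by
  rw [mem_chG, mem_ChG (row_iv.1 h) (row_iv.1 h') h1 h3 h2 h3]
  simp

omit C in
/-- different right ends give a chord side -/
lemma is_ch (h : Row Q l r Y) (h' : Row Q x' r' (Y - 1)) (h1 : l ≤ x) (h2 : x < r) (h3 : x' ≤ x)
    (h4 : x < r') (hne : r ≠ r') : (x, Y) ∈ chG Q := by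
  rw [mem_chG, mem_ChG (row_iv.1 h) (row_iv.1 h') h1 h2 h3 h4]
  exact hne

end Ctx

end Pool.Agent.H78.W
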