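import Mathlib
import Pool.Agent.H78.W.FPl

set_option autoImplicit false
open Finset

/-! # The right side of a fine room (Route W, D11 (3)) -/

namespace Pool.Agent.H78.W

open Pool.Agent.Q1.M4 (Cell Good)
open Pool.Agent.H13.W (chG)
open Pool.Agent.H5.C3 (Gen)
open Pool.Agent.H58.W (plV)
open Pool.Agent.H50.W (dv)
open Pool.Agent.H68.W (Row RSide lft rgt row_of row_last lft_le lt_rgt)

/-- the free (natural) cells -/
noncomputable def Fn (Q Q' : Finset Cell) (b : ℤ) (N M' : ℕ) : Finset Cell :=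
  Q'.filter fun c => plV (chG Q) b N M' c = none

lemma mem_Fn {Q Q' : Finset Cell} {b : ℤ} {N M' : ℕ} {c : Cell} :
    c ∈ Fn Q Q' b N M' ↔ c ∈ Q' ∧ plV (chG Q) b N M' c = none := by
  unfold Fn
  rw [mem_filter]

/-- thickness of the plates at the right side `W` -/
noncomputable def tE (Q : Finset Cell) (b : ℤ) (N : ℕ) (W Y : ℤ) : ℤ :=
  if ((W - 1, Y) : Cell) ∈ chG Q then N * (b - W) + 1 else 0

namespace Ctx

variable {Q Q' : Finset Cell} {a0 b : ℤ} {N M' : ℕ} (C : Ctx Q Q' a0 b N M') {x x' y Y l W y0 y1 : ℤ}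

include C

lemma mem_fn : (x, y) ∈ Fn Q Q' b N M' ↔
    (x / (N * M' : ℤ), y / (N * M' : ℤ)) ∈ Q ∧ ¬ pD Q b N M' x y ∧ ¬ pU Q b N M' x y := by
  rw [mem_Fn, C.ref]
  exact and_congr Iff.rfl ⟨C.pl_not, fun h => C.pl_none h.1 h.2⟩

lemma tE_bd (W Y : ℤ) : 0 ≤ tE Q b N W Y ∧ 64 * tE Q b N W Y ≤ M' ∧
    64 * tE Q b N W Y ≤ N * M' := by
  have h0 := C.M0'
  have h1 := C.thin.M'_le
  unfold tE
  split_ifs with h
  · have h2 := C.thin.ha _ h
    have h3 := C.thin.hb _ h
    simp only at h2 h3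
    have h4 := C.thin.thin
    have h5 := C.thin.N0
    have h6 : (N : ℤ) * (b - W + 1) ≤ N * (b - a0) := by
      apply mul_le_mul_of_nonneg_left _ h5.le
      omega
    have h7 : 0 ≤ (N : ℤ) * (b - W) := mul_nonneg h5.le (by omega)
    have e : (N : ℤ) * (b - W + 1) = N * (b - W) + N := by ring
    omega
  · omega

/-- the row of coarse cells -/
lemma rng (h1 : N * M' * y0 + tE Q b N W y0 ≤ y) (h2 : y < N * M' * y1 - tE Q b N W y1) :
    y0 ≤ y / (N * M' : ℤ) ∧ y / (N * M' : ℤ) < y1 := by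
  have hM := C.M0
  have h3 := (C.tE_bd W y0).1
  have h4 := (C.tE_bd W y1).1
  constructor
  · rw [Int.le_ediv_iff_mul_le hM, mul_comm]
    omega
  · rw [Int.ediv_lt_iff_lt_mul hM, mul_comm]
    omega

/-- distance from the ends of the right side -/
lemma rng' (h1 : N * M' * y0 + tE Q b N W y0 ≤ y) (h2 : y < N * M' * y1 - tE Q b N W y1) :
    (y / (N * M' : ℤ) = y0 → tE Q b N W y0 ≤ y % (N * M' : ℤ)) ∧
      (y / (N * M' : ℤ) + 1 = y1 → y % (N * M' : ℤ) < N * M' - tE Q b N W y1) := by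
  have hm := Int.emod_add_mul_ediv y (N * M' : ℤ)
  constructor
  · intro h
    rw [h] at hm
    omega
  · intro h
    have e : (N * M' : ℤ) * y1 = N * M' * (y / (N * M' : ℤ)) + N * M' := by rw [← h]; ring
    omega

lemma xM_lt : x / (N * M' : ℤ) < W ↔ x < N * M' * W := by
  rw [Int.ediv_lt_iff_lt_mul C.M0, mul_comm]

lemma xM_ge : W ≤ x / (N * M' : ℤ) ↔ N * M' * W ≤ x := by
  rw [Int.le_ediv_iff_mul_le C.M0, mul_comm]

lemma K_lt (h : x < N * M' * W) : x / (M' : ℤ) < N * W := by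
  rw [Int.ediv_lt_iff_lt_mul C.M0']
  have : (N * W : ℤ) * M' = N * M' * W := by ring
  omega

lemma K_ge (h : N * M' * W ≤ x) : N * W ≤ x / (M' : ℤ) := by
  rw [Int.le_ediv_iff_mul_le C.M0']
  have : (N * W : ℤ) * M' = N * M' * W := by ring
  omega

lemma K_ge' (h : N * W ≤ x / (M' : ℤ)) : N * M' * W ≤ x := by
  rw [Int.le_ediv_iff_mul_le C.M0'] at h
  have : (N * W : ℤ) * M' = N * M' * W := by ring
  omega

/-- last column -/
lemma last_col (W : ℤ) : (N * M' * W - 1) / (N * M' : ℤ) = W - 1 ∧ (N * M' * W - 1) / (M' : ℤ) = N * W - 1 := by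
  have hM := C.M0
  have hM' := C.M0'
  have h1 := C.thin.M'_le
  constructor
  · rw [dv hM]
    have e : (N * M' : ℤ) * (W - 1) = N * M' * W - N * M' := by ring
    rw [e]; omega
  · rw [dv hM']
    have e : (M' : ℤ) * (N * W - 1) = N * M' * W - M' := by ring
    rw [e]; omega

lemma K_mono (h : x ≤ x') : x / (M' : ℤ) ≤ x' / (M' : ℤ) := Int.ediv_le_ediv C.M0' h

lemma X_mono (h : x ≤ x') : x / (N * M' : ℤ) ≤ x' / (N * M' : ℤ) := Int.ediv_le_ediv C.M0 h

/-- **Free cells are closed to the right** in a row interval of `Q`. -/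
lemma free_right {r : ℤ} (hr : Row Q l r (y / (N * M' : ℤ))) (h1 : l ≤ x / (N * M' : ℤ)) (h2 : x ≤ x')
    (h3 : x' < N * M' * r) (h : (x, y) ∈ Fn Q Q' b N M') : (x', y) ∈ Fn Q Q' b N M' := by
  rw [C.mem_fn] at h ⊢
  obtain ⟨-, h4, h5⟩ := h
  have h6 := C.X_mono h2
  have h7 := C.xM_lt.2 h3
  have h8 := C.K_mono h2
  refine ⟨hr.mem _ (by omega) h7, fun h9 => h4 ⟨?_, ?_⟩, fun h9 => h5 ⟨?_, ?_⟩⟩
  · exact C.ch_dn_left hr h1 h6 h7 h9.1
  · have := h9.2; omega
  · exact C.ch_up_left hr h1 h6 h7 h9.1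
  · have := h9.2; omega

variable (R : RSide Q W y0 y1)

include R

/-- inside the coarse right side there is no chord at the right wall -/
lemma no_ch_mid {Y : ℤ} (h1 : y0 < Y) (h2 : Y < y1) (h3 : lft Q (W - 1) Y ≤ x)
    (h4 : lft Q (W - 1) (Y - 1) ≤ x) (h5 : x < W) : (x, Y) ∉ chG Q :=
  not_ch (R.row h1.le h2) (R.row (by omega) (by omega)) h3 h4 h5

/-- the last column is free -/
lemma col_free (h1 : N * M' * y0 + tE Q b N W y0 ≤ y) (h2 : y < N * M' * y1 - tE Q b N W y1) :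
    (N * M' * W - 1, y) ∈ Fn Q Q' b N M' := by
  obtain ⟨a1, a2⟩ := C.rng h1 h2
  obtain ⟨b1, b2⟩ := C.rng' h1 h2
  obtain ⟨c1, c2⟩ := C.last_col W
  rw [C.mem_fn, c1]
  have hr := R.row a1 a2
  refine ⟨R.mem _ a1 a2, ?_, ?_⟩
  · rintro ⟨h3, h4⟩
    rw [c1] at h3
    rw [c2] at h4
    rcases eq_or_lt_of_le a1 with h5 | h5
    · have h6 := b1 h5.symm
      unfold tE at h6
      rw [if_pos (by rw [h5]; exact h3)] at h6
      have e : (N : ℤ) * (b - W) = N * b - N * W := by ring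
      omega
    · have h6 := R.row (y := y / (N * M' : ℤ) - 1) (by omega) (by omega)
      exact C.no_ch_mid R h5 a2 (by have := hr.lt; omega) (by have := h6.lt; omega) (by omega) h3
  · rintro ⟨h3, h4⟩
    rw [c1] at h3
    rw [c2] at h4
    rcases eq_or_lt_of_le (show y / (N * M' : ℤ) + 1 ≤ y1 by omega) with h5 | h5
    · have h6 := b2 h5
      unfold tE at h6
      rw [if_pos (by rw [← h5]; exact h3)] at h6
      have e : (N : ℤ) * (b - W) = N * b - N * W := by ring
      omega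
    · have h6 := R.row (y := y / (N * M' : ℤ) + 1) (by omega) h5
      refine C.no_ch_mid R (Y := y / (N * M' : ℤ) + 1) (by omega) h5 (by have := h6.lt; omega) ?_
        (by omega) h3
      rw [add_sub_cancel_right]
      have := hr.lt; omega

/-- without a chord at the lower end of the coarse right side nothing of `Q` is below its last cell -/
lemma below (h : ((W - 1, y0) : Cell) ∉ chG Q) : (W - 1, y0 - 1) ∉ Q ∧ (W, y0 - 1) ∉ Q := by
  have hlt := R.lt
  have h1 : (W - 1, y0 - 1) ∉ Q := by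
    intro h1
    have h2 := R.bot h1
    have h3 := R.row le_rfl hlt
    have h4 := row_of h1
    have h5 : W < rgt Q (W - 1) (y0 - 1) := by
      by_contra hc
      have h6 := lt_rgt h1
      have h7 : rgt Q (W - 1) (y0 - 1) = W := by omega
      have h8 := h4.right
      rw [h7] at h8
      exact h8 h2
    exact h (is_ch h3 h4 (by have := h3.lt; omega) (by omega) (lft_le h1) (lt_rgt h1) (by omega))
  refine ⟨h1, fun h2 => ?_⟩
  have h3 := C.good.diag2 (W - 1, y0 - 1) (by simpa using h2)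
    (by simpa using R.mem y0 le_rfl hlt)
  rcases h3 with h3 | h3
  · exact h1 h3
  · exact R.out y0 le_rfl hlt (by simpa using h3)

lemma above (h : ((W - 1, y1) : Cell) ∉ chG Q) : (W - 1, y1) ∉ Q ∧ (W, y1) ∉ Q := by
  have hlt := R.lt
  have h1 : (W - 1, y1) ∉ Q := by
    intro h1
    have h2 := R.top h1
    have h3 := R.row (y := y1 - 1) (by omega) (by omega)
    have h4 := row_of h1
    have h5 : W < rgt Q (W - 1) y1 := by
      by_contra hc
      have h6 := lt_rgt h1
      have h7 : rgt Q (W - 1) y1 = W := by omega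
      have h8 := h4.right
      rw [h7] at h8
      exact h8 h2
    exact h (is_ch h4 h3 (lft_le h1) (lt_rgt h1) (by have := h3.lt; omega) (by omega) (by omega))
  refine ⟨h1, fun h2 => ?_⟩
  have h3 := C.good.diag1 (W - 1, y1 - 1)
    (by simpa using R.mem (y1 - 1) (by omega) (by omega)) (by simpa using h2)
  rcases h3 with h3 | h3
  · exact R.out (y1 - 1) (by omega) (by omega) (by simpa using h3)
  · exact h1 (by simpa using h3)

/-- row below the right side -/
lemma row_below (h : y = N * M' * y0 + tE Q b N W y0 - 1) :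
    (0 < tE Q b N W y0 ∧ ((W - 1, y0) : Cell) ∈ chG Q ∧ tE Q b N W y0 = N * (b - W) + 1 ∧
      y / (N * M' : ℤ) = y0 ∧ y % (N * M' : ℤ) = tE Q b N W y0 - 1) ∨
    (tE Q b N W y0 = 0 ∧ ((W - 1, y0) : Cell) ∉ chG Q ∧ y / (N * M' : ℤ) = y0 - 1 ∧
      y % (N * M' : ℤ) = N * M' - 1) := by
  have hM := C.M0
  obtain ⟨h1, -, h2⟩ := C.tE_bd W y0
  by_cases hc : ((W - 1, y0) : Cell) ∈ chG Q
  · left
    have e : tE Q b N W y0 = N * (b - W) + 1 := by unfold tE; rw [if_pos hc]
    have hb := C.thin.hb _ hc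
    simp only at hb
    have h3 : 0 ≤ (N : ℤ) * (b - W) := mul_nonneg C.thin.N0.le (by omega)
    have h4 : y / (N * M' : ℤ) = y0 := by rw [dv hM]; omega
    have hm := Int.emod_add_mul_ediv y (N * M' : ℤ)
    rw [h4] at hm
    exact ⟨by omega, hc, e, h4, by omega⟩
  · right
    have e : tE Q b N W y0 = 0 := by unfold tE; rw [if_neg hc]
    have h4 : y / (N * M' : ℤ) = y0 - 1 := by
      rw [dv hM]
      have e1 : (N * M' : ℤ) * (y0 - 1) = N * M' * y0 - N * M' := by ring
      rw [e1]; omega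
    have hm := Int.emod_add_mul_ediv y (N * M' : ℤ)
    rw [h4] at hm
    have e1 : (N * M' : ℤ) * (y0 - 1) = N * M' * y0 - N * M' := by ring
    exact ⟨e, hc, h4, by omega⟩

/-- row above the right side -/
lemma row_above (h : y = N * M' * y1 - tE Q b N W y1) :
    (0 < tE Q b N W y1 ∧ ((W - 1, y1) : Cell) ∈ chG Q ∧ tE Q b N W y1 = N * (b - W) + 1 ∧
      y / (N * M' : ℤ) + 1 = y1 ∧ y % (N * M' : ℤ) = N * M' - tE Q b N W y1) ∨
    (tE Q b N W y1 = 0 ∧ ((W - 1, y1) : Cell) ∉ chG Q ∧ y / (N * M' : ℤ) = y1 ∧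
      y % (N * M' : ℤ) = 0) := by
  have hM := C.M0
  obtain ⟨h1, -, h2⟩ := C.tE_bd W y1
  by_cases hc : ((W - 1, y1) : Cell) ∈ chG Q
  · left
    have e : tE Q b N W y1 = N * (b - W) + 1 := by unfold tE; rw [if_pos hc]
    have hb := C.thin.hb _ hc
    simp only at hb
    have h3 : 0 ≤ (N : ℤ) * (b - W) := mul_nonneg C.thin.N0.le (by omega)
    have e1 : (N * M' : ℤ) * (y1 - 1) = N * M' * y1 - N * M' := by ring
    have h4 : y / (N * M' : ℤ) = y1 - 1 := by rw [dv hM, e1]; omega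
    have hm := Int.emod_add_mul_ediv y (N * M' : ℤ)
    rw [h4, e1] at hm
    exact ⟨by omega, hc, e, by omega, by omega⟩
  · right
    have e : tE Q b N W y1 = 0 := by unfold tE; rw [if_neg hc]
    have h4 : y / (N * M' : ℤ) = y1 := by rw [dv hM]; omega
    have hm := Int.emod_add_mul_ediv y (N * M' : ℤ)
    rw [h4] at hm
    exact ⟨e, hc, h4, by omega⟩

/-- **The right side of the fine room.** -/
theorem side : RSide (Fn Q Q' b N M') (N * M' * W) (N * M' * y0 + tE Q b N W y0)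
    (N * M' * y1 - tE Q b N W y1) where
  lt := by
    have hM := C.M0
    obtain ⟨-, -, h2⟩ := C.tE_bd W y0
    obtain ⟨-, -, h3⟩ := C.tE_bd W y1
    have hlt := R.lt
    have : (N * M' : ℤ) * (y0 + 1) ≤ N * M' * y1 := mul_le_mul_of_nonneg_left (by omega) hM.le
    have e : (N * M' : ℤ) * (y0 + 1) = N * M' * y0 + N * M' := by ring
    omega
  mem := fun y h1 h2 => C.col_free R h1 h2
  out := fun y h1 h2 h3 => by
    rw [C.mem_fn] at h3
    obtain ⟨a1, a2⟩ := C.rng h1 h2
    have e : (N * M' * W : ℤ) / (N * M' : ℤ) = W := Int.mul_ediv_cancel_left _ C.M0.ne'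
    rw [e] at h3
    exact R.out _ a1 a2 h3.1
  bot := fun h => by
    exfalso
    rw [C.mem_fn] at h
    obtain ⟨c1, c2⟩ := C.last_col W
    rcases C.row_below R rfl with ⟨-, h1, h2, h3, h4⟩ | ⟨-, h1, h2, -⟩
    · apply h.2.1
      refine ⟨by rw [c1, h3]; exact h1, ?_⟩
      rw [c2, h4, h2]
      have e : (N : ℤ) * (b - W) = N * b - N * W := by ring
      omega
    · have := (C.below R h1).1
      rw [c1, h2] at h
      exact this h.1
  top := fun h => by
    exfalso
    rw [C.mem_fn] at h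
    obtain ⟨c1, c2⟩ := C.last_col W
    rcases C.row_above R rfl with ⟨-, h1, h2, h3, h4⟩ | ⟨-, h1, h2, -⟩
    · apply h.2.2
      refine ⟨by rw [c1, h3]; exact h1, ?_⟩
      rw [c2, h4, h2]
      have e : (N : ℤ) * (b - W) = N * b - N * W := by ring
      omega
    · have := (C.above R h1).1
      rw [c1, h2] at h
      exact this h.1

end Ctx

end Pool.Agent.H78.W
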