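import Mathlib
import Pool.Agent.H78.W.FSide

set_option autoImplicit false
open Finset

/-! # Fine rooms (Route W, D11 (3)) -/

namespace Pool.Agent.H78.W

open Pool.Agent.Q1.M4 (Cell Good)
open Pool.Agent.H13.W (chG)
open Pool.Agent.H5.C3 (Gen)
open Pool.Agent.H58.W (plV)
open Pool.Agent.H50.W (dv)
open Pool.Agent.H68.W (Row RSide lft rgt row_of row_last lft_le lt_rgt room)

/-- left end of the row `y` of the fine room -/
noncomputable def AF (Q Q' : Finset Cell) (b : ℤ) (N M' : ℕ) (W y : ℤ) : ℤ :=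
  lft (Fn Q Q' b N M') (N * M' * W - 1) y

namespace Ctx

variable {Q Q' : Finset Cell} {a0 b : ℤ} {N M' : ℕ} (C : Ctx Q Q' a0 b N M') {x x' y Y l W y0 y1 : ℤ}
  (R : RSide Q W y0 y1)

include C R

lemma frow (h1 : N * M' * y0 + tE Q b N W y0 ≤ y) (h2 : y < N * M' * y1 - tE Q b N W y1) :
    Row (Fn Q Q' b N M') (AF Q Q' b N M' W y) (N * M' * W) y := (C.side R).row h1 h2

/-- coarse cells of the fine room -/
lemma ge_coarse (h1 : N * M' * y0 + tE Q b N W y0 ≤ y) (h2 : y < N * M' * y1 - tE Q b N W y1)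
    (h3 : AF Q Q' b N M' W y ≤ x) (h4 : x < N * M' * W) :
    lft Q (W - 1) (y / (N * M' : ℤ)) ≤ x / (N * M' : ℤ) := by
  obtain ⟨a1, a2⟩ := C.rng h1 h2
  have hr := R.row a1 a2
  have hf := C.frow R h1 h2
  by_contra hc
  have h5 : x / (N * M' : ℤ) < lft Q (W - 1) (y / (N * M' : ℤ)) := by omega
  rw [C.xM_lt] at h5
  set l := lft Q (W - 1) (y / (N * M' : ℤ)) with hl
  have h6 := hr.lt
  have h7 : (N * M' : ℤ) * l < N * M' * W := mul_lt_mul_of_pos_left h6 C.M0
  have h8 := hf.mem (N * M' * l - 1) (by omega) (by omega)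
  rw [C.mem_fn, (C.last_col l).1] at h8
  exact hr.left h8.1

lemma A_le (h1 : N * M' * y0 + tE Q b N W y0 ≤ y) (h2 : y < N * M' * y1 - tE Q b N W y1)
    (h3 : (x, y) ∈ Fn Q Q' b N M') (h4 : lft Q (W - 1) (y / (N * M' : ℤ)) ≤ x / (N * M' : ℤ))
    (h5 : x < N * M' * W) : AF Q Q' b N M' W y ≤ x := by
  obtain ⟨a1, a2⟩ := C.rng h1 h2
  have hr := R.row a1 a2
  have hf := C.frow R h1 h2
  by_contra hc
  have h6 := hf.lt
  exact hf.left (C.free_right hr h4 (by omega) (by omega) h3)

omit R in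
/-- a free cell in the first row of a coarse cell is not over a chord -/
lemma low (h0 : y % (N * M' : ℤ) = 0) (h : (x, y) ∈ Fn Q Q' b N M') :
    ((x / (N * M' : ℤ), y / (N * M' : ℤ)) : Cell) ∉ chG Q := by
  intro h1
  rw [C.mem_fn] at h
  have h2 := C.w_bd h1
  exact h.2.1 ⟨h1, by omega⟩

omit R in
lemma high (h0 : y % (N * M' : ℤ) + 1 = N * M') (h : (x, y) ∈ Fn Q Q' b N M') :
    ((x / (N * M' : ℤ), y / (N * M' : ℤ) + 1) : Cell) ∉ chG Q := by
  intro h1
  rw [C.mem_fn] at h
  have h2 := C.w_bd h1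
  exact h.2.2 ⟨h1, by omega⟩

omit R in
lemma M_big {Y : ℤ} (h : ((x / (N * M' : ℤ), Y) : Cell) ∈ chG Q) : 64 ≤ (N * M' : ℤ) := by
  have := C.w_bd h
  omega

/-- below the first row of a coarse cell -/
lemma cross_dn (h1 : N * M' * y0 + tE Q b N W y0 ≤ y) (h2 : y < N * M' * y1 - tE Q b N W y1)
    (h3 : AF Q Q' b N M' W y ≤ x) (h4 : x < N * M' * W) (h0 : y % (N * M' : ℤ) = 0)
    (h5 : y = N * M' * y0 + tE Q b N W y0 ∨ x < AF Q Q' b N M' W (y - 1)) :
    (x / (N * M' : ℤ), y / (N * M' : ℤ) - 1) ∉ Q := by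
  obtain ⟨a1, a2⟩ := C.rng h1 h2
  have hr := R.row a1 a2
  have hf := C.frow R h1 h2
  have hx := C.ge_coarse R h1 h2 h3 h4
  have hxF := hf.mem x h3 h4
  have hch := C.low h0 hxF
  have hM := C.M0
  intro hQ
  have hr2 := row_of hQ
  have h6 : rgt Q (x / (N * M' : ℤ)) (y / (N * M' : ℤ) - 1) = W := by
    by_contra hne
    exact hch (is_ch hr hr2 hx (C.xM_lt.2 h4) (lft_le hQ) (lt_rgt hQ) (fun h => hne h.symm))
  rw [h6] at hr2
  have hl := lft_le hQ
  rcases h5 with h5 | h5
  · -- the first row of the room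
    rcases C.row_below R (y := y - 1) (by omega) with ⟨b1, b2, b3, b4, b5⟩ | ⟨b1, b2, b3, b4⟩
    · rcases div_sub_one hM y with ⟨c1, c2, c3⟩ | ⟨c1, c2, c3⟩
      · omega
      · have := (C.tE_bd W y0).2.2
        omega
    · have h7 := (C.below R b2).1
      rcases div_sub_one hM y with ⟨c1, c2, c3⟩ | ⟨c1, c2, c3⟩
      · omega
      · rw [← c2, b3] at hr2
        exact h7 (hr2.mem _ (by have := hr2.lt; omega) (by omega))
  · rcases eq_or_lt_of_le h1 with h1' | h1'
    · -- first row again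
      rcases C.row_below R (y := y - 1) (by omega) with ⟨b1, b2, b3, b4, b5⟩ | ⟨b1, b2, b3, b4⟩
      · rcases div_sub_one hM y with ⟨c1, c2, c3⟩ | ⟨c1, c2, c3⟩
        · omega
        · have := (C.tE_bd W y0).2.2
          omega
      · have h7 := (C.below R b2).1
        rcases div_sub_one hM y with ⟨c1, c2, c3⟩ | ⟨c1, c2, c3⟩
        · omega
        · rw [← c2, b3] at hr2
          exact h7 (hr2.mem _ (by have := hr2.lt; omega) (by omega))
    · rcases div_sub_one hM y with ⟨c1, c2, c3⟩ | ⟨c1, c2, c3⟩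
      · omega
      · have h8 : (x, y - 1) ∈ Fn Q Q' b N M' := by
          rw [C.mem_fn, c2]
          refine ⟨hQ, ?_, ?_⟩
          · intro h9
            have e1 := C.pD_small h9
            have e2 := C.M_big h9.1
            omega
          · intro h9
            have := h9.1
            rw [c2, sub_add_cancel] at this
            exact hch this
        obtain ⟨d1, d2⟩ := C.rng (W := W) (y0 := y0) (y1 := y1) (y := y - 1) (by omega) (by omega)
        have h10 := R.row d1 d2
        have h9 := C.A_le R (y := y - 1) (by omega) (by omega) h8 (by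
          rw [c2]
          rw [c2] at h10
          have h11 := (hr2.uniq h10 (x := W - 1) (by have := hr2.lt; omega) (by omega)
            (by have := h10.lt; omega) (by omega)).1
          omega) h4
        omega

/-- above the last row of a coarse cell -/
lemma cross_up (h1 : N * M' * y0 + tE Q b N W y0 ≤ y) (h2 : y < N * M' * y1 - tE Q b N W y1)
    (h3 : AF Q Q' b N M' W y ≤ x) (h4 : x < N * M' * W) (h0 : y % (N * M' : ℤ) + 1 = N * M')
    (h5 : y = N * M' * y1 - tE Q b N W y1 - 1 ∨ x < AF Q Q' b N M' W (y + 1)) :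
    (x / (N * M' : ℤ), y / (N * M' : ℤ) + 1) ∉ Q := by
  obtain ⟨a1, a2⟩ := C.rng h1 h2
  have hr := R.row a1 a2
  have hf := C.frow R h1 h2
  have hx := C.ge_coarse R h1 h2 h3 h4
  have hxF := hf.mem x h3 h4
  have hch := C.high h0 hxF
  have hM := C.M0
  intro hQ
  have hr2 := row_of hQ
  have hr' : Row Q (lft Q (W - 1) (y / (N * M' : ℤ))) W (y / (N * M' : ℤ) + 1 - 1) := by
    rw [add_sub_cancel_right]; exact hr
  have h6 : rgt Q (x / (N * M' : ℤ)) (y / (N * M' : ℤ) + 1) = W := by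
    by_contra hne
    exact hch (is_ch hr2 hr' (lft_le hQ) (lt_rgt hQ) hx (C.xM_lt.2 h4) hne)
  rw [h6] at hr2
  have hl := lft_le hQ
  have last : ¬ (y = N * M' * y1 - tE Q b N W y1 - 1) := by
    intro h5
    rcases C.row_above R (y := y + 1) (by omega) with ⟨b1, b2, b3, b4, b5⟩ | ⟨b1, b2, b3, b4⟩
    · rcases div_add_one hM y with ⟨c1, c2, c3⟩ | ⟨c1, c2, c3⟩
      · omega
      · have := (C.tE_bd W y1).2.2
        omega
    · have h7 := (C.above R b2).1
      rcases div_add_one hM y with ⟨c1, c2, c3⟩ | ⟨c1, c2, c3⟩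
      · omega
      · rw [← c2, b3] at hr2
        exact h7 (hr2.mem _ (by have := hr2.lt; omega) (by omega))
  rcases h5 with h5 | h5
  · exact last h5
  · rcases div_add_one hM y with ⟨c1, c2, c3⟩ | ⟨c1, c2, c3⟩
    · omega
    · have h8 : (x, y + 1) ∈ Fn Q Q' b N M' := by
        rw [C.mem_fn, c2]
        refine ⟨hQ, ?_, ?_⟩
        · intro h9
          have := h9.1
          rw [c2] at this
          exact hch this
        · intro h9
          have e1 := C.pU_big h9
          omega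
      obtain ⟨d1, d2⟩ := C.rng (W := W) (y0 := y0) (y1 := y1) (y := y + 1) (by omega) (by omega)
      have h10 := R.row d1 d2
      have h9 := C.A_le R (y := y + 1) (by omega) (by omega) h8 (by
        rw [c2]
        rw [c2] at h10
        have h11 := (hr2.uniq h10 (x := W - 1) (by have := hr2.lt; omega) (by omega)
          (by have := h10.lt; omega) (by omega)).1
        omega) h4
      omega

/-- two rows of one coarse row, the lower one is shorter -/
lemma step_dn (h1 : N * M' * y0 + tE Q b N W y0 ≤ y - 1) (h2 : y < N * M' * y1 - tE Q b N W y1)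
    (h3 : AF Q Q' b N M' W y ≤ x) (h4 : x < AF Q Q' b N M' W (y - 1)) (h0 : 0 < y % (N * M' : ℤ)) :
    pD Q b N M' x (y - 1) ∧ x / (M' : ℤ) = N * b - y % (N * M' : ℤ) := by
  have hM := C.M0
  have hf := C.frow R (y := y) (by omega) h2
  have hf1 := C.frow R (y := y - 1) h1 (by omega)
  have hlt := hf1.lt
  have hxF := hf.mem x h3 (by omega)
  have hx := C.ge_coarse R (by omega) h2 h3 (by omega)
  rcases div_sub_one hM y with ⟨c1, c2, c3⟩ | ⟨c1, c2, c3⟩
  · have hnF : (x, y - 1) ∉ Fn Q Q' b N M' := by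
      intro hn
      have := C.A_le R h1 (by omega) hn (by rw [c2]; exact hx) (by omega)
      omega
    rw [C.mem_fn] at hxF hnF
    rw [c2] at hnF
    have h5 : pD Q b N M' x (y - 1) ∨ pU Q b N M' x (y - 1) := by
      by_contra hc
      push Not at hc
      exact hnF ⟨hxF.1, hc.1, hc.2⟩
    rcases h5 with h5 | h5
    · refine ⟨h5, ?_⟩
      have h6 := h5.2
      have h7 : ¬ (y % (N * M' : ℤ) < N * b - x / M') := fun h7 => hxF.2.1 ⟨by
        have := h5.1
        rwa [c2] at this, h7⟩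
      omega
    · exfalso
      refine hxF.2.2 ⟨?_, ?_⟩
      · have := h5.1
        rwa [c2] at this
      · have := h5.2
        omega
  · omega

lemma step_up (h1 : N * M' * y0 + tE Q b N W y0 ≤ y) (h2 : y + 1 < N * M' * y1 - tE Q b N W y1)
    (h3 : AF Q Q' b N M' W y ≤ x) (h4 : x < AF Q Q' b N M' W (y + 1))
    (h0 : y % (N * M' : ℤ) + 1 < N * M') :
    pU Q b N M' x (y + 1) ∧ x / (M' : ℤ) = N * b - (N * M' - y % (N * M' : ℤ) - 1) := by
  have hM := C.M0
  have hf := C.frow R (y := y) h1 (by omega)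
  have hf1 := C.frow R (y := y + 1) (by omega) h2
  have hlt := hf1.lt
  have hxF := hf.mem x h3 (by omega)
  have hx := C.ge_coarse R h1 (by omega) h3 (by omega)
  rcases div_add_one hM y with ⟨c1, c2, c3⟩ | ⟨c1, c2, c3⟩
  · have hnF : (x, y + 1) ∉ Fn Q Q' b N M' := by
      intro hn
      have := C.A_le R (y := y + 1) (by omega) h2 hn (by rw [c2]; exact hx) (by omega)
      omega
    rw [C.mem_fn] at hxF hnF
    rw [c2] at hnF
    have h5 : pD Q b N M' x (y + 1) ∨ pU Q b N M' x (y + 1) := by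
      by_contra hc
      push Not at hc
      exact hnF ⟨hxF.1, hc.1, hc.2⟩
    rcases h5 with h5 | h5
    · exfalso
      refine hxF.2.1 ⟨?_, ?_⟩
      · have := h5.1
        rwa [c2] at this
      · have := h5.2
        omega
    · refine ⟨h5, ?_⟩
      have h6 := h5.2
      have h7 : ¬ (N * M' - y % (N * M' : ℤ) ≤ N * b - x / M') := fun h7 => hxF.2.2 ⟨by
        have := h5.1
        rwa [c2] at this, h7⟩
      omega
  · omega

end Ctx

end Pool.Agent.H78.W
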