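import Mathlib
import Pool.Agent.H78.W.FOf
import Pool.Agent.H50.W.RefShape

set_option autoImplicit false
open Finset

/-! # Fine rooms exist (Route W, D11 (3))

`Ctx.frm` : for every right side `{W} × [y0, y1)` of the coarse polyomino the free cells of the fine
polyomino with plates which lie in the coarse room form a fine room. `Ctx.mem_iff` : its cells.
`ctx_of` : the context for a generic shape and all thin plates. -/

namespace Pool.Agent.H78.W

open Pool.Agent.Q1.M4 (Cell Good)
open Pool.Agent.H13.W (chG)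
open Pool.Agent.H5.C3 (Gen)
open Pool.Agent.H58.W (plV)
open Pool.Agent.H50.W (dv)
open Pool.Agent.H68.W (Row RSide lft rgt row_of row_last lft_le lt_rgt room)

namespace Ctx

variable {Q Q' : Finset Cell} {a0 b : ℤ} {N M' : ℕ} (C : Ctx Q Q' a0 b N M') {x x' y Y l W y0 y1 : ℤ}

include C

lemma pl_none_of (h : (x / (N * M' : ℤ), y / (N * M' : ℤ)) ∉ Q) :
    plV (chG Q) b N M' (x, y) = none := by
  by_contra hc
  exact h ((C.ref x y).1 (C.pl_Q hc))

lemma pl_or (h : (x / (N * M' : ℤ), y / (N * M' : ℤ)) ∈ Q) (h' : (x, y) ∉ Fn Q Q' b N M') :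
    pD Q b N M' x y ∨ pU Q b N M' x y := by
  rw [C.mem_fn] at h'
  by_contra hc
  push Not at hc
  exact h' ⟨h, hc.1, hc.2⟩

/-- the coarse column of the next cell -/
lemma X_succ (x : ℤ) : (x + 1) / (N * M' : ℤ) = x / (N * M' : ℤ) ∨
    (x + 1) / (N * M' : ℤ) = x / (N * M' : ℤ) + 1 := by
  rcases div_add_one C.M0 x with h | h
  · exact Or.inl h.2.1
  · exact Or.inr h.2.1

variable (R : RSide Q W y0 y1)

include R

/-- the right wall -/
lemma rwall (h1 : N * M' * y0 + tE Q b N W y0 - 1 ≤ y) (h2 : y ≤ N * M' * y1 - tE Q b N W y1) :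
    (N * M' * W, y) ∉ Q' := by
  have e : (N * M' * W : ℤ) / (N * M' : ℤ) = W := Int.mul_ediv_cancel_left _ C.M0.ne'
  rw [C.ref, e]
  have hlt := R.lt
  rcases eq_or_lt_of_le h1 with h3 | h3
  · rcases C.row_below R h3.symm with ⟨-, -, -, b4, -⟩ | ⟨-, b2, b3, -⟩
    · rw [b4]; exact R.out y0 le_rfl hlt
    · rw [b3]; exact (C.below R b2).2
  · rcases eq_or_lt_of_le h2 with h4 | h4
    · rcases C.row_above R h4 with ⟨-, -, -, b4, -⟩ | ⟨-, b2, b3, -⟩
      · have : y / (N * M' : ℤ) = y1 - 1 := by omega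
        rw [this]; exact R.out _ (by omega) (by omega)
      · rw [b3]; exact (C.above R b2).2
    · obtain ⟨a1, a2⟩ := C.rng (W := W) (y0 := y0) (y1 := y1) (y := y) (by omega) h4
      exact R.out _ a1 a2

lemma bot' : Seg Q' (plV (chG Q) b N M') (AF Q Q' b N M' W (N * M' * y0 + tE Q b N W y0)) (N * M' * W)
    (N * M' * y0 + tE Q b N W y0 - 1) := by
  have hM := C.M0
  have hs := C.side R
  have hst := hs.lt
  set y := (N * M' * y0 + tE Q b N W y0 : ℤ) with hy
  rcases C.row_below R (y := y - 1) (by omega) with ⟨b1, b2, b3, b4, b5⟩ | ⟨b1, b2, b3, b4⟩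
  · left
    refine ⟨(N * W - 1, y0), fun x h1 h2 => ?_⟩
    have hf := C.frow R (y := y) (by omega) hst
    have hxF := hf.mem x h1 h2
    have hx := C.ge_coarse R (by omega) hst h1 h2
    rcases div_sub_one hM y with ⟨c1, c2, c3⟩ | ⟨c1, c2, c3⟩
    · rw [C.mem_fn] at hxF
      have hr := R.row le_rfl R.lt
      have e1 : y / (N * M' : ℤ) = y0 := by omega
      rw [e1] at hx
      have hch := C.ch_dn_left hr hx (x' := W - 1) (by have := C.xM_lt.2 h2; omega) (by omega) b2
      have h3 : ¬ (y % (N * M' : ℤ) < N * b - x / M') := fun h3 =>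
        hxF.2.1 ⟨by rw [e1]; exact hch, h3⟩
      have h4 := C.K_lt h2
      have e2 : (N : ℤ) * (b - W) = N * b - N * W := by ring
      have e3 : x / (M' : ℤ) = N * W - 1 := by omega
      have h5 : pD Q b N M' x (y - 1) := ⟨by rw [b4]; exact hch, by omega⟩
      rw [C.pl_D h5, b4, e3]
    · have := (C.tE_bd W y0).2.2
      omega
  · right
    intro x h1 h2 h3
    rw [C.ref] at h3
    rcases div_sub_one hM y with ⟨c1, c2, c3⟩ | ⟨c1, c2, c3⟩
    · have := Int.emod_lt_of_pos y hM
      omega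
    · rw [c2] at h3
      exact C.cross_dn R (by omega) hst h1 h2 c1 (Or.inl hy) h3

lemma top' : Seg Q' (plV (chG Q) b N M') (AF Q Q' b N M' W (N * M' * y1 - tE Q b N W y1 - 1))
    (N * M' * W) (N * M' * y1 - tE Q b N W y1) := by
  have hM := C.M0
  have hs := C.side R
  have hst := hs.lt
  set y := (N * M' * y1 - tE Q b N W y1 - 1 : ℤ) with hy
  have hy1 : (N * M' * y1 - tE Q b N W y1 : ℤ) = y + 1 := by omega
  rw [hy1]
  rcases C.row_above R (y := y + 1) (by omega) with ⟨b1, b2, b3, b4, b5⟩ | ⟨b1, b2, b3, b4⟩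
  · left
    refine ⟨(N * W - 1, y1), fun x h1 h2 => ?_⟩
    have hf := C.frow R (y := y) (by omega) (by omega)
    have hxF := hf.mem x h1 h2
    have hx := C.ge_coarse R (y := y) (by omega) (by omega) h1 h2
    rcases div_add_one hM y with ⟨c1, c2, c3⟩ | ⟨c1, c2, c3⟩
    · rw [C.mem_fn] at hxF
      have e1 : y / (N * M' : ℤ) = y1 - 1 := by omega
      rw [e1] at hx
      have hr := R.row (y := y1 - 1) (by have := R.lt; omega) (by omega)
      have hch := C.ch_up_left hr hx (x' := W - 1) (by have := C.xM_lt.2 h2; omega) (by omega)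
        (by rw [sub_add_cancel]; exact b2)
      rw [sub_add_cancel] at hch
      have h3 : ¬ (N * M' - y % (N * M' : ℤ) ≤ N * b - x / M') := fun h3 =>
        hxF.2.2 ⟨by rw [e1, sub_add_cancel]; exact hch, h3⟩
      have h4 := C.K_lt h2
      have e2 : (N : ℤ) * (b - W) = N * b - N * W := by ring
      have e3 : x / (M' : ℤ) = N * W - 1 := by omega
      have h5 : pU Q b N M' x (y + 1) := ⟨by rw [b4]; exact hch, by omega⟩
      rw [C.pl_U h5, b4, e3]
    · have := (C.tE_bd W y1).2.2
      omega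
  · right
    intro x h1 h2 h3
    rw [C.ref] at h3
    rcases div_add_one hM y with ⟨c1, c2, c3⟩ | ⟨c1, c2, c3⟩
    · have := Int.emod_nonneg y hM.ne'
      omega
    · rw [c2] at h3
      exact C.cross_up R (by omega) (by omega) h1 h2 c1 (Or.inl rfl) h3

lemma dn' (h1 : N * M' * y0 + tE Q b N W y0 < y) (h2 : y < N * M' * y1 - tE Q b N W y1) :
    Seg Q' (plV (chG Q) b N M') (AF Q Q' b N M' W y) (AF Q Q' b N M' W (y - 1)) (y - 1) := by
  have hM := C.M0
  have hf1 := C.frow R (y := y - 1) (by omega) (by omega)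
  have hlt := hf1.lt
  rcases div_sub_one hM y with ⟨c1, c2, c3⟩ | ⟨c1, c2, c3⟩
  · left
    refine ⟨(N * b - y % (N * M' : ℤ), y / (N * M' : ℤ)), fun x h3 h4 => ?_⟩
    obtain ⟨h5, h6⟩ := C.step_dn R (by omega) h2 h3 h4 c1
    rw [C.pl_D h5, c2, h6]
  · right
    intro x h3 h4 h5
    rw [C.ref, c2] at h5
    exact C.cross_dn R h1.le h2 h3 (by omega) c1 (Or.inr h4) h5

lemma up' (h1 : N * M' * y0 + tE Q b N W y0 ≤ y) (h2 : y + 1 < N * M' * y1 - tE Q b N W y1) :
    Seg Q' (plV (chG Q) b N M') (AF Q Q' b N M' W y) (AF Q Q' b N M' W (y + 1)) (y + 1) := by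
  have hM := C.M0
  have hf1 := C.frow R (y := y + 1) (by omega) (by omega)
  have hlt := hf1.lt
  rcases div_add_one hM y with ⟨c1, c2, c3⟩ | ⟨c1, c2, c3⟩
  · left
    refine ⟨(N * b - (N * M' - y % (N * M' : ℤ) - 1), y / (N * M' : ℤ) + 1), fun x h3 h4 => ?_⟩
    obtain ⟨h5, h6⟩ := C.step_up R h1 h2 h3 h4 c1
    rw [C.pl_U h5, c2, h6]
  · right
    intro x h3 h4 h5
    rw [C.ref, c2] at h5
    exact C.cross_up R h1 (by omega) h3 (by omega) c1 (Or.inr h4) h5

lemma eq' (h1 : N * M' * y0 + tE Q b N W y0 ≤ y) (h2 : y + 1 < N * M' * y1 - tE Q b N W y1)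
    (h3 : AF Q Q' b N M' W y = AF Q Q' b N M' W (y + 1)) :
    plV (chG Q) b N M' (AF Q Q' b N M' W y - 1, y) =
      plV (chG Q) b N M' (AF Q Q' b N M' W y - 1, y + 1) := by
  have hM := C.M0
  have f0 := C.frow R (y := y) h1 (by omega)
  have f1 := C.frow R (y := y + 1) (by omega) h2
  rw [← h3] at f1
  set a := AF Q Q' b N M' W y with ha
  have l0 := f0.left
  have l1 := f1.left
  have lt0 := f0.lt
  rcases div_add_one hM y with ⟨c1, c2, c3⟩ | ⟨c1, c2, c3⟩
  · by_cases hQ : ((a - 1) / (N * M' : ℤ), y / (N * M' : ℤ)) ∈ Q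
    · have p0 := C.pl_or hQ l0
      have p1 := C.pl_or (y := y + 1) (by rw [c2]; exact hQ) l1
      rcases p0 with p0 | p0 <;> rcases p1 with p1 | p1
      · rw [C.pl_D p0, C.pl_D p1, c2]
      · have := C.pD_small p0
        have := C.pU_big p1
        have := C.M_big p0.1
        omega
      · have := C.pU_big p0
        have := C.pD_small p1
        omega
      · rw [C.pl_U p0, C.pl_U p1, c2]
    · rw [C.pl_none_of hQ, C.pl_none_of (by rw [c2]; exact hQ)]
  · -- the coarse row changes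
    obtain ⟨a1, a2⟩ := C.rng (W := W) (y0 := y0) (y1 := y1) (y := y) h1 (by omega)
    obtain ⟨b1, b2⟩ := C.rng (W := W) (y0 := y0) (y1 := y1) (y := y + 1) (by omega) h2
    have r0 := R.row a1 a2
    have r1 := R.row b1 b2
    have g0 := C.ge_coarse R (y := y) h1 (by omega) (x := a) (by omega) lt0
    have g1 := C.ge_coarse R (y := y + 1) (by omega) h2 (x := a) (by omega) lt0
    rw [c2] at r1 b1 b2 g1
    have hs := C.X_succ (a - 1)
    rw [sub_add_cancel] at hs
    have key : ¬ (((a - 1) / (N * M' : ℤ), y / (N * M' : ℤ) + 1) ∈ chG Q) := by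
      intro hc
      have q1 := (chG_sub hc).1
      have q0 := (chG_sub hc).2
      simp only [add_sub_cancel_right] at q0 q1
      have k0 : lft Q (W - 1) (y / (N * M' : ℤ)) ≤ (a - 1) / (N * M' : ℤ) := by
        by_contra hcc
        apply r0.left
        rwa [show lft Q (W - 1) (y / (N * M' : ℤ)) - 1 = (a - 1) / (N * M' : ℤ) by omega]
      have k1 : lft Q (W - 1) (y / (N * M' : ℤ) + 1) ≤ (a - 1) / (N * M' : ℤ) := by
        by_contra hcc
        apply r1.left
        rwa [show lft Q (W - 1) (y / (N * M' : ℤ) + 1) - 1 = (a - 1) / (N * M' : ℤ) by omega]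
      have k2 : (a - 1) / (N * M' : ℤ) < W := by rw [C.xM_lt]; omega
      exact C.no_ch_mid R (Y := y / (N * M' : ℤ) + 1) (by omega) b2 k1
        (by rw [add_sub_cancel_right]; exact k0) k2 hc
    have hq0 : ((a - 1) / (N * M' : ℤ), y / (N * M' : ℤ)) ∉ Q := by
      intro hQ
      rcases C.pl_or hQ l0 with p0 | p0
      · have := C.pD_small p0
        have := C.M_big p0.1
        omega
      · exact key p0.1
    have hq1 : ((a - 1) / (N * M' : ℤ), (y + 1) / (N * M' : ℤ)) ∉ Q := by
      intro hQ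
      rcases C.pl_or hQ l1 with p0 | p0
      · have := p0.1
        rw [c2] at this
        exact key this
      · have := C.pU_big p0
        omega
    rw [C.pl_none_of hq0, C.pl_none_of hq1]

lemma dBL' (h1 : N * M' * y0 + tE Q b N W y0 ≤ y) (h2 : y < N * M' * y1 - tE Q b N W y1)
    (h3 : y = N * M' * y0 + tE Q b N W y0 ∨ AF Q Q' b N M' W y < AF Q Q' b N M' W (y - 1)) :
    plV (chG Q) b N M' (AF Q Q' b N M' W y - 1, y - 1) =
      plV (chG Q) b N M' (AF Q Q' b N M' W y - 1, y) ∧
      ((AF Q Q' b N M' W y - 1, y) ∉ Q' → (AF Q Q' b N M' W y - 1, y - 1) ∉ Q') := by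
  have hM := C.M0
  have f0 := C.frow R (y := y) h1 h2
  have l0 := f0.left
  have lt0 := f0.lt
  have hst := (C.side R).lt
  rcases div_sub_one hM y with ⟨c1, c2, c3⟩ | ⟨c1, c2, c3⟩
  · refine ⟨?_, fun h4 => by rw [C.ref] at h4 ⊢; rwa [c2]⟩
    by_cases hQ : ((AF Q Q' b N M' W y - 1) / (N * M' : ℤ), y / (N * M' : ℤ)) ∈ Q
    · rcases C.pl_or hQ l0 with p0 | p0
      · have p1 : pD Q b N M' (AF Q Q' b N M' W y - 1) (y - 1) := by
          refine ⟨by rw [c2]; exact p0.1, ?_⟩
          have := p0.2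
          omega
        rw [C.pl_D p0, C.pl_D p1, c2]
      · exfalso
        have e1 := C.pU_big p0
        have e2 := C.M_big p0.1
        by_cases hy : y = N * M' * y0 + tE Q b N W y0
        · rcases C.row_below R (y := y - 1) (by omega) with ⟨b1, b2, b3, b4, b5⟩ | ⟨b1, b2, b3, b4⟩
          · have := (C.tE_bd W y0).2.2
            omega
          · have := Int.emod_lt_of_pos y hM
            omega
        · have h4 : AF Q Q' b N M' W y < AF Q Q' b N M' W (y - 1) := by
            rcases h3 with h3 | h3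
            · exact absurd h3 hy
            · exact h3
          obtain ⟨h5, -⟩ := C.step_dn R (by omega) h2 le_rfl h4 c1
          have := C.pD_small h5
          omega
    · rw [C.pl_none_of hQ, C.pl_none_of (by rw [c2]; exact hQ)]
  · -- first row of a coarse cell
    obtain ⟨a1, a2⟩ := C.rng (W := W) (y0 := y0) (y1 := y1) (y := y) h1 h2
    have r0 := R.row a1 a2
    have g0 := C.ge_coarse R (y := y) h1 h2 (x := AF Q Q' b N M' W y) le_rfl lt0
    have hX1 := r0.mem _ g0 (C.xM_lt.2 lt0)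
    have hcr := C.cross_dn R h1 h2 (x := AF Q Q' b N M' W y) le_rfl lt0 c1 h3
    have hs := C.X_succ (AF Q Q' b N M' W y - 1)
    rw [sub_add_cancel] at hs
    set a := AF Q Q' b N M' W y with ha
    by_cases hQ : ((a - 1) / (N * M' : ℤ), y / (N * M' : ℤ)) ∈ Q
    · refine ⟨?_, fun h4 => absurd ((C.ref _ _).2 hQ) h4⟩
      rcases C.pl_or hQ l0 with p0 | p0
      · have hw := C.w_bd p0.1
        have p1 : pU Q b N M' (a - 1) (y - 1) :=
          ⟨by rw [c2, sub_add_cancel]; exact p0.1, by omega⟩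
        rw [C.pl_D p0, C.pl_U p1, c2, sub_add_cancel]
      · have := C.pU_big p0
        omega
    · have e1 : a / (N * M' : ℤ) = (a - 1) / (N * M' : ℤ) + 1 := by
        rcases hs with hs | hs
        · rw [hs] at hX1; exact absurd hX1 hQ
        · exact hs
      have hd : ((a - 1) / (N * M' : ℤ), y / (N * M' : ℤ) - 1) ∉ Q := by
        intro hd
        rw [e1] at hX1 hcr
        rcases C.good.diag1 _ hd (by simpa using hX1) with h5 | h5
        · exact hcr (by simpa using h5)
        · exact hQ (by simpa using h5)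
      refine ⟨?_, fun _ => by rw [C.ref, c2]; exact hd⟩
      rw [C.pl_none_of hQ, C.pl_none_of (by rw [c2]; exact hd)]

lemma dTL' (h1 : N * M' * y0 + tE Q b N W y0 ≤ y) (h2 : y < N * M' * y1 - tE Q b N W y1)
    (h3 : y = N * M' * y1 - tE Q b N W y1 - 1 ∨ AF Q Q' b N M' W y < AF Q Q' b N M' W (y + 1)) :
    plV (chG Q) b N M' (AF Q Q' b N M' W y - 1, y + 1) =
      plV (chG Q) b N M' (AF Q Q' b N M' W y - 1, y) ∧
      ((AF Q Q' b N M' W y - 1, y) ∉ Q' → (AF Q Q' b N M' W y - 1, y + 1) ∉ Q') := by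
  have hM := C.M0
  have f0 := C.frow R (y := y) h1 h2
  have l0 := f0.left
  have lt0 := f0.lt
  have hst := (C.side R).lt
  rcases div_add_one hM y with ⟨c1, c2, c3⟩ | ⟨c1, c2, c3⟩
  · refine ⟨?_, fun h4 => by rw [C.ref] at h4 ⊢; rwa [c2]⟩
    by_cases hQ : ((AF Q Q' b N M' W y - 1) / (N * M' : ℤ), y / (N * M' : ℤ)) ∈ Q
    · rcases C.pl_or hQ l0 with p0 | p0
      · exfalso
        have e1 := C.pD_small p0
        have e2 := C.M_big p0.1
        by_cases hy : y = N * M' * y1 - tE Q b N W y1 - 1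
        · rcases C.row_above R (y := y + 1) (by omega) with ⟨b1, b2, b3, b4, b5⟩ | ⟨b1, b2, b3, b4⟩
          · have := (C.tE_bd W y1).2.2
            omega
          · have := Int.emod_nonneg y hM.ne'
            omega
        · have h4 : AF Q Q' b N M' W y < AF Q Q' b N M' W (y + 1) := by
            rcases h3 with h3 | h3
            · exact absurd h3 hy
            · exact h3
          obtain ⟨h5, -⟩ := C.step_up R h1 (by omega) le_rfl h4 c1
          have := C.pU_big h5
          omega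
      · have p1 : pU Q b N M' (AF Q Q' b N M' W y - 1) (y + 1) := by
          refine ⟨by rw [c2]; exact p0.1, ?_⟩
          have := p0.2
          omega
        rw [C.pl_U p0, C.pl_U p1, c2]
    · rw [C.pl_none_of hQ, C.pl_none_of (by rw [c2]; exact hQ)]
  · -- last row of a coarse cell
    obtain ⟨a1, a2⟩ := C.rng (W := W) (y0 := y0) (y1 := y1) (y := y) h1 h2
    have r0 := R.row a1 a2
    have g0 := C.ge_coarse R (y := y) h1 h2 (x := AF Q Q' b N M' W y) le_rfl lt0
    have hX1 := r0.mem _ g0 (C.xM_lt.2 lt0)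
    have hcr := C.cross_up R h1 h2 (x := AF Q Q' b N M' W y) le_rfl lt0 c1 h3
    have hs := C.X_succ (AF Q Q' b N M' W y - 1)
    rw [sub_add_cancel] at hs
    set a := AF Q Q' b N M' W y with ha
    by_cases hQ : ((a - 1) / (N * M' : ℤ), y / (N * M' : ℤ)) ∈ Q
    · refine ⟨?_, fun h4 => absurd ((C.ref _ _).2 hQ) h4⟩
      rcases C.pl_or hQ l0 with p0 | p0
      · have := C.pD_small p0
        have := C.M_big p0.1
        omega
      · have hw := C.w_bd p0.1
        have p1 : pD Q b N M' (a - 1) (y + 1) :=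
          ⟨by rw [c2]; exact p0.1, by omega⟩
        rw [C.pl_U p0, C.pl_D p1, c2]
    · have e1 : a / (N * M' : ℤ) = (a - 1) / (N * M' : ℤ) + 1 := by
        rcases hs with hs | hs
        · rw [hs] at hX1; exact absurd hX1 hQ
        · exact hs
      have hd : ((a - 1) / (N * M' : ℤ), y / (N * M' : ℤ) + 1) ∉ Q := by
        intro hd
        rw [e1] at hX1 hcr
        rcases C.good.diag2 ((a - 1) / (N * M' : ℤ), y / (N * M' : ℤ)) (by simpa using hX1)
          (by simpa using hd) with h5 | h5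
        · exact hQ h5
        · exact hcr (by simpa using h5)
      refine ⟨?_, fun _ => by rw [C.ref, c2]; exact hd⟩
      rw [C.pl_none_of hQ, C.pl_none_of (by rw [c2]; exact hd)]

/-- **The fine room of a coarse right side.** -/
theorem frm : FRm Q' (plV (chG Q) b N M') (N * M' * W) (N * M' * y0 + tE Q b N W y0)
    (N * M' * y1 - tE Q b N W y1) (AF Q Q' b N M' W) where
  lt := (C.side R).lt
  AW := fun y h1 h2 => (C.frow R h1 h2).lt
  plQ := fun c hc => C.pl_Q (x := c.1) (y := c.2) hc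
  nat := fun x y h1 h2 h3 h4 => mem_Fn.1 ((C.frow R h1 h2).mem x h3 h4)
  rt := fun y h1 h2 => C.rwall R h1 h2
  lf := fun y h1 h2 => by
    have h3 := (C.frow R h1 h2).left
    rw [mem_Fn, not_and_or] at h3
    exact h3.symm
  bot := C.bot' R
  top := C.top' R
  dn := fun y h1 h2 _ => C.dn' R h1 h2
  up := fun y h1 h2 _ => C.up' R h1 h2
  eq := fun y h1 h2 h3 => C.eq' R h1 h2 h3
  dBL := fun y h1 h2 h3 => C.dBL' R h1 h2 h3
  dTL := fun y h1 h2 h3 => C.dTL' R h1 h2 h3

/-- **The cells of the fine room.** -/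
theorem mem_iff : ((N * M' * y0 + tE Q b N W y0 ≤ y ∧ y < N * M' * y1 - tE Q b N W y1) ∧
    AF Q Q' b N M' W y ≤ x ∧ x < N * M' * W) ↔
    (x, y) ∈ Fn Q Q' b N M' ∧ (x / (N * M' : ℤ), y / (N * M' : ℤ)) ∈ room Q W y0 y1 := by
  have hM := C.M0
  rw [R.mem_room]
  constructor
  · rintro ⟨⟨h1, h2⟩, h3, h4⟩
    obtain ⟨a1, a2⟩ := C.rng h1 h2
    exact ⟨(C.frow R h1 h2).mem x h3 h4, ⟨C.ge_coarse R h1 h2 h3 h4, C.xM_lt.2 h4⟩, a1, a2⟩
  · rintro ⟨h1, ⟨h2, h3⟩, h4, h5⟩
    have hr := R.row h4 h5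
    rw [C.xM_lt] at h3
    have hm := Int.emod_add_mul_ediv y (N * M' : ℤ)
    have hm0 := Int.emod_nonneg y hM.ne'
    have hm1 := Int.emod_lt_of_pos y hM
    have hF := C.mem_fn.1 h1
    have hlo : N * M' * y0 + tE Q b N W y0 ≤ y := by
      rcases eq_or_lt_of_le h4 with h6 | h6
      · by_contra hc
        rw [← h6] at hm
        by_cases hch : ((W - 1, y0) : Cell) ∈ chG Q
        · have e : tE Q b N W y0 = N * (b - W) + 1 := by unfold tE; rw [if_pos hch]
          have h7 := C.K_lt h3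
          have e2 : (N : ℤ) * (b - W) = N * b - N * W := by ring
          refine hF.2.1 ⟨C.ch_dn_left hr h2 (x' := W - 1) (by have := C.xM_lt.2 h3; omega) (by omega)
            (by rw [← h6]; exact hch), by omega⟩
        · have e : tE Q b N W y0 = 0 := by unfold tE; rw [if_neg hch]
          omega
      · have h7 := (C.tE_bd W y0).2.2
        have : (N * M' : ℤ) * (y0 + 1) ≤ N * M' * (y / (N * M' : ℤ)) :=
          mul_le_mul_of_nonneg_left (by omega) hM.le
        have e : (N * M' : ℤ) * (y0 + 1) = N * M' * y0 + N * M' := by ring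
        omega
    have hhi : y < N * M' * y1 - tE Q b N W y1 := by
      rcases eq_or_lt_of_le (show y / (N * M' : ℤ) + 1 ≤ y1 by omega) with h6 | h6
      · by_contra hc
        have e0 : (N * M' : ℤ) * y1 = N * M' * (y / (N * M' : ℤ)) + N * M' := by rw [← h6]; ring
        by_cases hch : ((W - 1, y1) : Cell) ∈ chG Q
        · have e : tE Q b N W y1 = N * (b - W) + 1 := by unfold tE; rw [if_pos hch]
          have h7 := C.K_lt h3
          have e2 : (N : ℤ) * (b - W) = N * b - N * W := by ring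
          refine hF.2.2 ⟨C.ch_up_left hr h2 (x' := W - 1) (by have := C.xM_lt.2 h3; omega) (by omega)
            (by rw [h6]; exact hch), by omega⟩
        · have e : tE Q b N W y1 = 0 := by unfold tE; rw [if_neg hch]
          omega
      · have h7 := (C.tE_bd W y1).2.2
        have : (N * M' : ℤ) * (y / (N * M' : ℤ) + 2) ≤ N * M' * y1 :=
          mul_le_mul_of_nonneg_left (by omega) hM.le
        have e : (N * M' : ℤ) * (y / (N * M' : ℤ) + 2) = N * M' * (y / (N * M' : ℤ)) + 2 * (N * M') := by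
          ring
        omega
    exact ⟨⟨hlo, hhi⟩, C.A_le R hlo hhi h1 h2 h3, h3⟩

end Ctx

end Pool.Agent.H78.W
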