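import Mathlib
import Pool.Agent.H78.W.FMain
import Pool.Agent.H50.W.RefShape

set_option autoImplicit false
open Finset

/-! # The context of a generic shape with thin plates (Route W, D11 (3)) -/

namespace Pool.Agent.H78.W

open Pool.Agent.Q1.M4 (Cell Good)
open Pool.Agent.H13.W (chG)
open Pool.Agent.H5.C3 (Gen)
open Pool.Agent.H58.W (plV)
open Pool.Agent.H50.W (dv rf mem_ref_mu)
open Pool.Agent.H21.FM (Shape)
open Pool.Agent.H33.Q1 (ct)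

/-- a lower bound of the columns -/
lemma exists_a0 (G : Finset Cell) : ∃ a0 : ℤ, ∀ c ∈ G, a0 ≤ c.1 := by
  obtain ⟨B, hB⟩ := exists_Bd G
  exact ⟨-B, fun c hc => (hB c (by simpa using hc)).1⟩

lemma mem_rf (S : Shape) {M : ℕ} (hM : 0 < M) (x y : ℤ) :
    (x, y) ∈ (rf S M hM).P.Q ↔ (x / (M : ℤ), y / (M : ℤ)) ∈ S.P.Q := mem_ref_mu hM

/-- **The context**: a generic shape, `M'` large. -/
theorem ctx_of (S : Shape) (hG : Gen S.P.Q) {b : ℤ} (hb : ∀ c ∈ chG S.P.Q, c.1 < b) :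
    ∃ a0 : ℤ, ∀ N M' : ℕ, ∀ hM : 0 < N * M', 64 * ((N : ℤ) * (b - a0)) ≤ M' →
      Ctx S.P.Q (rf S (N * M') hM).P.Q a0 b N M' := by
  obtain ⟨a0, ha⟩ := exists_a0 (chG S.P.Q)
  refine ⟨a0, fun N M' hM h => ⟨hG, S.P.good, ⟨?_, ?_, ha, hb, h⟩, fun x y => ?_⟩⟩
  · exact Nat.pos_of_ne_zero fun h0 => by rw [h0, Nat.zero_mul] at hM; exact lt_irrefl _ hM
  · exact Nat.pos_of_ne_zero fun h0 => by rw [h0, Nat.mul_zero] at hM; exact lt_irrefl _ hM
  · rw [mem_rf S hM]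
    push_cast
    rfl

end Pool.Agent.H78.W
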