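import Mathlib
import Pool.Agent.H78.W.FCtx
import Pool.Agent.H68.W.RoomZ
import Pool.Agent.H74.W.World

set_option autoImplicit false
open Finset

/-! # A disc in one fine room (Route W, D11 (P))

`fine_ball` : near a point of the domain which is neither on a chord nor a vertex, for all fine plates,
all fine cells lie in the fine room of ONE coarse right side, together with the fine cells at distance at
most `L`. -/

namespace Pool.Agent.H78.W

open Metric Filter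
open Pool.Agent.Q1.M4 (Cell Good Om lat)
open Pool.Agent.H13.W (chG)
open Pool.Agent.H5.C3 (Gen)
open Pool.Agent.H14.FM (ic)
open Pool.Agent.H58.W (plV)
open Pool.Agent.H50.W (dv rf)
open Pool.Agent.H21.FM (Shape)
open Pool.Agent.H68.W (Row RSide lft rgt row_of row_last lft_le lt_rgt room cz vtx room_ball')
open Pool.Agent.H74.W (lK chU RR ps)

/-- position of a fine cell -/
noncomputable def pc (M : ℤ) (c : Cell) : ℂ := ⟨(c.1 : ℝ) / M, (c.2 : ℝ) / M⟩

lemma floor_div {M : ℤ} (hM : 0 < M) (x : ℤ) : ⌊(x : ℝ) / M⌋ = x / M := by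
  have hM' : (0 : ℝ) < M := by exact_mod_cast hM
  rw [Int.floor_eq_iff]
  obtain ⟨h1, h2⟩ := (dv hM).1 (rfl : x / M = x / M)
  constructor
  · rw [le_div_iff₀ hM']
    have : ((M * (x / M) : ℤ) : ℝ) ≤ x := by exact_mod_cast h1
    push_cast at this
    linarith
  · rw [div_lt_iff₀ hM']
    have : (x : ℝ) < ((M * (x / M) + M : ℤ) : ℝ) := by exact_mod_cast h2
    push_cast at this
    nlinarith

lemma cz_pc {M : ℤ} (hM : 0 < M) (c : Cell) : cz (pc M c) = (c.1 / M, c.2 / M) := by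
  unfold cz pc
  simp only
  rw [floor_div hM, floor_div hM]

lemma pc_mem {M : ℤ} (hM : 0 < M) {z0 : ℂ} {r ρ : ℝ} {c : Cell} {z : ℂ} (hz : dist z z0 < r)
    (h1 : |(c.1 : ℝ) / M - z.re| ≤ ρ) (h2 : |(c.2 : ℝ) / M - z.im| ≤ ρ) :
    dist (pc M c) z0 < r + 2 * ρ := by
  have h3 : dist (pc M c) z ≤ 2 * ρ := by
    rw [dist_eq_norm]
    refine (Complex.norm_le_abs_re_add_abs_im _).trans ?_
    have e1 : (pc M c - z).re = (c.1 : ℝ) / M - z.re := by simp [pc]
    have e2 : (pc M c - z).im = (c.2 : ℝ) / M - z.im := by simp [pc]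
    rw [e1, e2]
    linarith
  have := dist_triangle (pc M c) z z0
  linarith

/-- **In a disc covered by one coarse room there is no plate.** -/
theorem free_of_near {Q Q' : Finset Cell} {a0 b : ℤ} {N M' : ℕ} (C : Ctx Q Q' a0 b N M') {W y0 y1 : ℤ}
    (R : RSide Q W y0 y1) {x y : ℤ}
    (h : ∀ j : ℤ, 64 * |j| ≤ M' + 64 → (x / (N * M' : ℤ), (y + j) / (N * M' : ℤ)) ∈ room Q W y0 y1) :
    (x, y) ∈ Fn Q Q' b N M' := by
  have hM := C.M0
  have hM' := C.M0'
  have h0 := h 0 (by simp; omega)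
  rw [add_zero] at h0
  have hQ : (x / (N * M' : ℤ), y / (N * M' : ℤ)) ∈ Q := by
    have := R.mem_room.1 h0
    exact (R.row this.2.1 this.2.2).mem _ this.1.1 this.1.2
  have hm := Int.emod_add_mul_ediv y (N * M' : ℤ)
  have hm0 := Int.emod_nonneg y hM.ne'
  have hm1 := Int.emod_lt_of_pos y hM
  rw [C.mem_fn]
  refine ⟨hQ, ?_, ?_⟩
  · intro hp
    have hw := C.thin.w_bd hp.1
    have h2 := hp.2
    -- the cell below the line
    have h3 := h (-(y % (N * M' : ℤ)) - 1) (by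
      rw [abs_of_nonpos (by omega)]; omega)
    have e1 : (y + (-(y % (N * M' : ℤ)) - 1)) / (N * M' : ℤ) = y / (N * M' : ℤ) - 1 := by
      rw [dv hM]
      have e : (N * M' : ℤ) * (y / (N * M' : ℤ) - 1) = N * M' * (y / (N * M' : ℤ)) - N * M' := by ring
      rw [e]; omega
    rw [e1] at h3
    have k0 := R.mem_room.1 h0
    have k1 := R.mem_room.1 h3
    exact C.no_ch_mid R (by omega) k0.2.2 k0.1.1 k1.1.1 k0.1.2 hp.1
  · intro hp
    have hw := C.thin.w_bd hp.1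
    have h2 := hp.2
    have h3 := h (N * M' - y % (N * M' : ℤ)) (by
      rw [abs_of_nonneg (by omega)]; omega)
    have e1 : (y + (N * M' - y % (N * M' : ℤ))) / (N * M' : ℤ) = y / (N * M' : ℤ) + 1 := by
      rw [dv hM]
      have e : (N * M' : ℤ) * (y / (N * M' : ℤ) + 1) = N * M' * (y / (N * M' : ℤ)) + N * M' := by ring
      rw [e]; omega
    rw [e1] at h3
    have k0 := R.mem_room.1 h0
    have k1 := R.mem_room.1 h3
    exact C.no_ch_mid R (Y := y / (N * M' : ℤ) + 1) (by omega) k1.2.2 k1.1.1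
      (by rw [add_sub_cancel_right]; exact k0.1.1) k0.1.2 hp.1

/-- the fine cell of a tile is close to the tile -/
lemma cell_near {n M : ℤ} (hn : 0 < n) (hM : 0 < M) (x d : ℤ) :
    |((x / n + d : ℤ) : ℝ) / M - (x : ℝ) / (n * M)| ≤ (|(d : ℝ)| + 1) / M := by
  have hn' : (0 : ℝ) < n := by exact_mod_cast hn
  have hM' : (0 : ℝ) < M := by exact_mod_cast hM
  obtain ⟨h1, h2⟩ := (dv hn).1 (rfl : x / n = x / n)
  have h3 : ((n * (x / n) : ℤ) : ℝ) ≤ x := by exact_mod_cast h1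
  have h4 : (x : ℝ) < ((n * (x / n) + n : ℤ) : ℝ) := by exact_mod_cast h2
  push_cast at h3 h4
  set q : ℝ := ((x / n : ℤ) : ℝ) with hq
  have e : ((x / n + d : ℤ) : ℝ) / M - (x : ℝ) / (n * M) = (q + d - x / n) / M := by
    push_cast
    rw [← hq]
    field_simp
  rw [e, abs_div, abs_of_pos hM']
  apply div_le_div_of_nonneg_right _ hM'.le
  have h5 : |q - x / n| ≤ 1 := by
    have h6 : q ≤ x / n := by rw [le_div_iff₀ hn']; linarith
    have h7 : (x : ℝ) / n ≤ q + 1 := by rw [div_le_iff₀ hn']; nlinarith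
    rw [abs_le]
    constructor <;> linarith
  have h6 : q + d - x / n = (q - x / n) + d := by ring
  rw [h6]
  have := abs_add_le (q - x / n) (d : ℝ)
  linarith

/-- **A disc in one fine room.** -/
theorem fine_ball (S : Shape) (hG : Gen S.P.Q) {b : ℤ} (hb : ∀ c ∈ chG S.P.Q, c.1 < b) {z0 : ℂ}
    (h0 : z0 ∈ Om S.P.Q ic ic) (h1 : z0 ∉ chU S.P.Q) (h2 : z0 ∉ vtx S.P.Q) :
    ∃ r > (0 : ℝ), ∃ (W y0 y1 a0 : ℤ), RSide S.P.Q W y0 y1 ∧ ∀ L : ℕ, ∀ᶠ k in lK,
      ∃ hM : 0 < k.1 * k.2, Ctx S.P.Q (rf S (k.1 * k.2) hM).P.Q a0 b k.1 k.2 ∧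
        ∀ h : ℕ, 0 < h → ∀ p : ℤ × ℤ, dist (ps k h p) z0 < r → ∀ i j : ℤ, |i| ≤ L → |j| ≤ L →
          (p.1 / (2 * h : ℤ) + i, p.2 / (2 * h : ℤ) + j) ∈ Fn S.P.Q (rf S (k.1 * k.2) hM).P.Q b k.1 k.2 ∧
          ((p.1 / (2 * h : ℤ) + i) / (k.1 * k.2 : ℤ), (p.2 / (2 * h : ℤ) + j) / (k.1 * k.2 : ℤ)) ∈
            room S.P.Q W y0 y1 := by
  obtain ⟨r0, hr0, W, y0, y1, R, hball⟩ := room_ball' h0 h1 h2
  obtain ⟨a0, hctx⟩ := ctx_of S hG hb
  refine ⟨r0 / 2, by positivity, W, y0, y1, a0, R, fun L => ?_⟩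
  unfold lK
  rw [Filter.Eventually, Filter.mem_curry_iff]
  obtain ⟨N0, hN0⟩ := exists_nat_gt (8 / r0)
  filter_upwards [eventually_ge_atTop (max N0 1)] with N hN
  filter_upwards [eventually_ge_atTop (max (max (64 * ((N : ℤ) * (b - a0))).toNat 64) (L + 1))]
    with M' hM'
  have hNp : 0 < N := lt_of_lt_of_le one_pos ((le_max_right _ _).trans hN)
  have hM1 : (64 * ((N : ℤ) * (b - a0))).toNat ≤ M' := ((le_max_left _ _).trans (le_max_left _ _)).trans hM'
  have hM2 : 64 ≤ M' := ((le_max_right _ _).trans (le_max_left _ _)).trans hM'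
  have hM3 : L + 1 ≤ M' := (le_max_right _ _).trans hM'
  have hMp : 0 < N * M' := Nat.mul_pos hNp (by omega)
  have hC := hctx N M' hMp (by omega)
  refine ⟨hMp, hC, fun h hh p hp i j hi hj => ?_⟩
  have hN8 : 8 / r0 < N := lt_of_lt_of_le hN0 (by exact_mod_cast (le_max_left _ _).trans hN)
  have hNr : (0 : ℝ) < N := by exact_mod_cast hNp
  have hMr : (64 : ℝ) ≤ M' := by exact_mod_cast hM2
  have hLr : (L : ℝ) + 1 ≤ M' := by exact_mod_cast hM3
  have hMz : (0 : ℤ) < (N * M' : ℤ) := by exact_mod_cast hMp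
  have hn : (0 : ℤ) < 2 * h := by positivity
  have hMr' : (0 : ℝ) < ((N * M' : ℤ) : ℝ) := by exact_mod_cast hMz
  have eRR : (RR (N, M') h : ℝ) = ((2 * h : ℤ) : ℝ) * ((N * M' : ℤ) : ℝ) := by
    unfold RR; push_cast; ring
  have ere : (ps (N, M') h p).re = (p.1 : ℝ) / (((2 * h : ℤ) : ℝ) * ((N * M' : ℤ) : ℝ)) := by
    unfold ps
    rw [Complex.div_ofReal_re, eRR]
    rfl
  have eim : (ps (N, M') h p).im = (p.2 : ℝ) / (((2 * h : ℤ) : ℝ) * ((N * M' : ℤ) : ℝ)) := by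
    unfold ps
    rw [Complex.div_ofReal_im, eRR]
    rfl
  -- all cells near the cell of `p` are in the coarse room
  have key : ∀ j' : ℤ, |j'| ≤ L + (M' + 64) / 64 →
      ((p.1 / (2 * h : ℤ) + i) / (N * M' : ℤ), (p.2 / (2 * h : ℤ) + j') / (N * M' : ℤ)) ∈
        room S.P.Q W y0 y1 := by
    intro j' hj'
    have hir : |(i : ℝ)| ≤ L := by exact_mod_cast hi
    have hjr : |(j' : ℝ)| ≤ L + M' / 64 + 1 := by
      have e1 : 64 * ((M' + 64 : ℤ) / 64) ≤ M' + 64 := Int.mul_ediv_self_le (by norm_num)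
      have e2 : ((|j'| : ℤ) : ℝ) ≤ ((L + (M' + 64 : ℤ) / 64 : ℤ) : ℝ) := by exact_mod_cast hj'
      have e3 : (64 : ℝ) * (((M' + 64 : ℤ) / 64 : ℤ) : ℝ) ≤ M' + 64 := by exact_mod_cast e1
      push_cast at e2
      push_cast at e3
      linarith
    have d1 := cell_near hn hMz p.1 i
    have d2 := cell_near hn hMz p.2 j'
    rw [← ere] at d1
    rw [← eim] at d2
    have hρ1 : (|(i : ℝ)| + 1) / ((N * M' : ℤ) : ℝ) ≤ 2 / N := by
      rw [div_le_div_iff₀ hMr' hNr]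
      push_cast
      nlinarith
    have hρ2 : (|(j' : ℝ)| + 1) / ((N * M' : ℤ) : ℝ) ≤ 2 / N := by
      rw [div_le_div_iff₀ hMr' hNr]
      push_cast
      nlinarith
    have d3 := pc_mem hMz hp (c := (p.1 / (2 * h : ℤ) + i, p.2 / (2 * h : ℤ) + j')) (ρ := 2 / N)
      (d1.trans hρ1) (d2.trans hρ2)
    have d4 : r0 / 2 + 2 * (2 / N) ≤ r0 := by
      have : (8 : ℝ) < N * r0 := by rwa [div_lt_iff₀ hr0] at hN8
      have : 4 / (N : ℝ) ≤ r0 / 2 := by
        rw [div_le_div_iff₀ hNr (by norm_num)]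
        linarith
      have e : 2 * (2 / (N : ℝ)) = 4 / N := by ring
      rw [e]; linarith
    have d5 := hball _ (mem_ball.2 (lt_of_lt_of_le d3 d4))
    rwa [cz_pc hMz] at d5
  refine ⟨free_of_near hC R (fun j' hj' => ?_), key j ?_⟩
  · have := key (j + j') (by
      have h3 := abs_add_le j j'
      omega)
    rwa [← add_assoc] at this
  · have : (0 : ℤ) ≤ (M' + 64 : ℤ) / 64 := by positivity
    omega

end Pool.Agent.H78.W
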