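import Mathlib
import Pool.Agent.H82.W.S3
import Pool.Agent.H19.W.MoveC
import Pool.Agent.H50.W.Plates

set_option autoImplicit false
set_option linter.unusedVariables false
open Finset

/-! # StChd, V1: the picture of one chord and its four worlds (13's note 2192)

Tile coordinates `(x, y)`, label `lt (x, y)`, `cx`, `cy` = column and row of a label. Orientation: the tooth is
ABOVE the continuing room (the other orientation is the same picture, reflected by `y ↦ -1 - y`).

`Pic` : data. The chord is the line between the rows `Yc - 1` and `Yc`, it ends on the right at the column `xe`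
(left side of the tooth); the tooth occupies the columns `xe ≤ x < xt`; `P = true` : the room above goes on
behind the tooth (`xt ≤ x < xw`), `P = false` : `xt = xw`, convex corner. `xw` = column of the right wall.
Plate in the column `x` (of the chord): rows `Yc - T x ≤ y < Yc + T x`, `T x = 2 h (B - x / m)`, name
`kn (x / m)`. `Λ` = tiles of the strand graph, `E` = random tiles, `W0` = open outer labels of the world with the
exit `(xw, Yc - 1)`.

Worlds (`WD` of 82):
* `WW p` : moving end `p` in the wide room (below): row `p.2` deleted from `p` to `xw`;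
* `WN p` : moving end `p` in the narrow room (above): row `p.2` deleted from `p` to `xe`, and the row `YF`
  through the part behind the tooth (19's A+);
* `WU`, `WL` : canonical worlds, string in the row `Yd = Yc + h` from `xs` to `xe`, row `YF` deleted behind the
  tooth; `WU` : plates right of `xs` one row thicker on the top, flipped above `Yd`; `WL` : one row thicker at the
  bottom, flipped below `Yd`, the row `Yc - 1` below the tooth has the state of the bottom of the tooth.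
-/

namespace Pool.Agent.H78.W

open Pool.Agent.H33.Q1 (lt tt ct lt_odd tt_lt lt_tt lt_inj)
open Pool.Agent.H82.W (WD)
open Pool.Agent.H13.W (up dn)
open Pool.Agent.H19.W (cx cy cx_lt cy_lt lt_cc)
open Pool.Agent.H50.W (bk)

variable {κ : Type*}

/-- block of a label for a plate function on tiles -/
def bb (p : ℤ → ℤ → Option κ) (e : ℤ × ℤ) : (ℤ × ℤ) ⊕ κ :=
  match p (cx e) (cy e) with
  | none => Sum.inl e
  | some k => Sum.inr k

/-- **The data of one chord in tile coordinates.** -/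
structure Pic (κ : Type*) where
  /-- `2 h` tiles per fine cell -/
  h : ℕ
  /-- number of columns of a plate -/
  m : ℤ
  /-- half thickness of the plate `i` : `2 h (B - i)` -/
  B : ℤ
  /-- first row above the chord -/
  Yc : ℤ
  /-- first column of the canonical string -/
  xs : ℤ
  /-- column of the left side of the tooth -/
  xe : ℤ
  /-- first column behind the tooth -/
  xt : ℤ
  /-- column of the right wall of the wide room -/
  xw : ℤ
  /-- deleted row behind the tooth -/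
  YF : ℤ
  /-- is there a room behind the tooth above the chord -/
  P : Bool
  Λ : Finset (ℤ × ℤ)
  E : Finset (ℤ × ℤ)
  /-- plate of the tile `(x, y)` -/
  pl : ℤ → ℤ → Option κ
  /-- name of the plate `i` of the chord -/
  kn : ℤ → κ
  /-- open outer labels for the exit `(xw, Yc - 1)` -/
  W0 : Finset (ℤ × ℤ)
  /-- colour of the tooth in `W0` -/
  kT : Bool
  /-- colour of the right wall below `Yc` in `W0` -/
  kW : Bool

namespace Pic

variable (G : Pic κ)

/-- row of the canonical string -/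
def Yd : ℤ := G.Yc + G.h

/-- half thickness of the plate of the column `x` -/
def T (x : ℤ) : ℤ := 2 * G.h * (G.B - x / G.m)

/-- top row of the strip in the column `x` : `t` over the chord, `Yc` in the tooth, `YF` behind it -/
def tp (t x : ℤ) : ℤ :=
  if x ≤ G.xe then t else if G.P = true ∧ G.xt - 1 ≤ x then G.YF else G.Yc

/-- outer tiles between the two exits -/
def tog (t x y : ℤ) : Prop := G.xe ≤ x ∧ x ≤ G.xw ∧ G.Yc ≤ y ∧ y ≤ G.tp t x

open Classical in
/-- open outer labels, exit of the string in the row `t` of the column `xe` -/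
noncomputable def KN (t : ℤ) : Finset (ℤ × ℤ) :=
  symmDiff G.W0 ((G.Λ \ G.E).filter fun e => G.tog t (cx e) (cy e))

open Classical in
/-- open outer labels, exit of the string in the row `r` of the right wall -/
noncomputable def KW (r : ℤ) : Finset (ℤ × ℤ) :=
  symmDiff G.W0 ((G.Λ \ G.E).filter fun e => cx e = G.xw ∧ r < cy e ∧ cy e < G.Yc)

/-- deleted labels: string from `(x0, t)` to the tooth, and the row `YF` behind the tooth -/
def DN (x0 t : ℤ) : Set (ℤ × ℤ) := {e | (e.1 + e.2) % 2 = 1 ∧ ((cy e = t ∧ x0 ≤ cx e ∧ cx e ≤ G.xe) ∨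
  (G.P = true ∧ cy e = G.YF ∧ G.xt - 1 ≤ cx e ∧ cx e ≤ G.xw))}

/-- deleted labels: string from `(x0, r)` to the right wall -/
def DW (x0 r : ℤ) : Set (ℤ × ℤ) := {e | (e.1 + e.2) % 2 = 1 ∧ cy e = r ∧ x0 ≤ cx e ∧ cx e ≤ G.xw}

/-- plates of `WU` : right of `xs` one more row on the top -/
def plU (x y : ℤ) : Option κ :=
  if G.xs ≤ x ∧ x < G.xe ∧ y = G.Yc + G.T x then G.pl x (y - 1) else G.pl x y

/-- plates of `WL` : right of `xs` one more row at the bottom -/
def plL (x y : ℤ) : Option κ :=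
  if G.xs ≤ x ∧ x < G.xe ∧ y = G.Yc - G.T x - 1 then G.pl x (y + 1) else G.pl x y

/-- flipped labels of `WU` -/
def FU : Finset (ℤ × ℤ) := G.E.filter fun e =>
  G.xs ≤ cx e ∧ cx e < G.xe ∧ G.Yd < cy e ∧ cy e ≤ G.Yc + G.T (cx e)

/-- flipped labels of `WL` -/
def FL : Finset (ℤ × ℤ) := G.E.filter fun e =>
  G.xs ≤ cx e ∧ cx e < G.xe ∧ G.Yc - G.T (cx e) - 1 ≤ cy e ∧ cy e < G.Yd

/-- the row of random tiles below the tooth -/
def Rt : Finset (ℤ × ℤ) := G.E.filter fun e => cy e = G.Yc - 1 ∧ G.xe ≤ cx e ∧ cx e < G.xt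

open Classical in
/-- open labels of `WL` in this row -/
noncomputable def RtW : Finset (ℤ × ℤ) := G.Rt.filter fun e => up e ∈ G.KN G.Yd

/-- **World of an end in the wide room.** -/
noncomputable def WW (p : ℤ × ℤ) : WD ((ℤ × ℤ) ⊕ κ) where
  Λ := (G.Λ : Set (ℤ × ℤ))
  D := G.DW p.1 p.2
  E := G.E
  b := bb G.pl
  F := ∅
  W := G.KW p.2

/-- **World of an end in the narrow room** (19's A+). -/
noncomputable def WN (p : ℤ × ℤ) : WD ((ℤ × ℤ) ⊕ κ) where
  Λ := (G.Λ : Set (ℤ × ℤ))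
  D := G.DN p.1 p.2
  E := G.E
  b := bb G.pl
  F := ∅
  W := G.KN p.2

/-- **Canonical world, plates raised.** -/
noncomputable def WU : WD ((ℤ × ℤ) ⊕ κ) where
  Λ := (G.Λ : Set (ℤ × ℤ))
  D := G.DN G.xs G.Yd
  E := G.E
  b := bb G.plU
  F := G.FU
  W := G.KN G.Yd

/-- **Canonical world, plates and tooth lowered.** -/
noncomputable def WL : WD ((ℤ × ℤ) ⊕ κ) where
  Λ := (G.Λ : Set (ℤ × ℤ))
  D := G.DN G.xs G.Yd
  E := G.E \ G.Rt
  b := bb G.plL
  F := G.FL
  W := G.KN G.Yd ∪ G.RtW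

/-- **Hypotheses on the picture**, in the band `xl ≤ x`, `Yc - H ≤ y < Yc + H`. -/
structure Ok (xl H : ℤ) : Prop where
  hh : 0 < G.h
  hm : 0 < G.m
  odd : ∀ e ∈ G.Λ, (e.1 + e.2) % 2 = 1
  sub : G.E ⊆ G.Λ
  dis : ∀ e ∈ G.W0, e ∉ G.E
  sW : G.W0 ⊆ G.Λ
  /-- numbers -/
  xls : xl ≤ G.xs
  xse : G.xs < G.xe
  xet : G.xe + 4 ≤ G.xt
  xtw : G.xt ≤ G.xw
  xtw' : G.P = false → G.xt = G.xw
  xtw2 : G.P = true → G.xt + 4 ≤ G.xw
  YF1 : G.Yd + 1 < G.YF
  YF2 : G.YF + 1 < G.Yc + H
  /-- the thickness of the plates -/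
  th : ∀ x, xl ≤ x → x < G.xe → 2 * (G.h : ℤ) ≤ G.T x ∧ G.T x + 1 < H
  /-- random tiles over and below the chord -/
  gl : ∀ x y, xl ≤ x → x < G.xe → G.Yc - H ≤ y → y < G.Yc + H → lt (x, y) ∈ G.E
  /-- below the tooth and further -/
  gb : ∀ x y, G.xe ≤ x → x < G.xw → G.Yc - H ≤ y → y < G.Yc → lt (x, y) ∈ G.E
  /-- behind the tooth -/
  gp : G.P = true → ∀ x y, G.xt ≤ x → x < G.xw → G.Yc ≤ y → y < G.Yc + H → lt (x, y) ∈ G.E
  /-- the tooth -/
  gt : ∀ x y, G.xe ≤ x → x < G.xt → G.Yc ≤ y → y < G.Yc + H → lt (x, y) ∉ G.E ∧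
    (lt (x, y) ∈ G.Λ ↔ x = G.xe ∨ y = G.Yc ∨ (G.P = true ∧ x = G.xt - 1))
  /-- the right wall -/
  gw : ∀ y, G.Yc - H ≤ y → y < G.Yc + H → lt (G.xw, y) ∉ G.E ∧
    (lt (G.xw, y) ∈ G.Λ ↔ y ≤ G.Yc ∨ G.P = true)
  /-- nothing behind it -/
  go : ∀ y, G.Yc - H ≤ y → y < G.Yc + H → lt (G.xw + 1, y) ∉ G.Λ
  /-- colour of the tooth -/
  cT : ∀ x y, G.xe ≤ x → x < G.xt → G.Yc ≤ y → y < G.Yc + H → lt (x, y) ∈ G.Λ →
    (lt (x, y) ∈ G.W0 ↔ G.kT = true)
  /-- colours of the right wall -/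
  cW : ∀ y, G.Yc - H ≤ y → y < G.Yc + H → lt (G.xw, y) ∈ G.Λ →
    (lt (G.xw, y) ∈ G.W0 ↔ (G.kW = true ↔ y < G.Yc))
  /-- plates of the chord -/
  pc : ∀ x y, xl ≤ x → x < G.xe → G.Yc - H ≤ y → y < G.Yc + H →
    G.pl x y = if G.Yc - G.T x ≤ y ∧ y < G.Yc + G.T x then some (G.kn (x / G.m)) else none
  /-- no plates right of the chord -/
  pn : ∀ x y, G.xe ≤ x → x ≤ G.xw → G.Yc - H ≤ y → y < G.Yc + H → G.pl x y = none
  /-- the plates of the chord are nowhere else -/
  po : ∀ x y x', xl ≤ x' → x' < G.xe → G.pl x y = some (G.kn (x' / G.m)) →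
    x / G.m = x' / G.m ∧ G.Yc - G.T x ≤ y ∧ y < G.Yc + G.T x
  /-- plate boundaries and fine cells -/
  dxl : G.m ∣ xl
  dxs : G.m ∣ G.xs
  dxe : G.m ∣ G.xe
  dm : 2 * (G.h : ℤ) ∣ G.m
  dYc : 2 * (G.h : ℤ) ∣ G.Yc
  dxt : 2 * (G.h : ℤ) ∣ G.xt
  dxw : 2 * (G.h : ℤ) ∣ G.xw

end Pic

end Pool.Agent.H78.W
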