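import Mathlib
import Pool.Agent.H78.W.VG

set_option autoImplicit false
set_option linter.unusedVariables false
open Finset

/-! # StChd, V1: basic facts on the picture; the move of the narrow world onto `WU`

`VUp` : numerical hypotheses (block rectangle `[xa, xb) × [ya, yb)`, moving end `p`). `VUp.strip` (19's
`StripOK`), `VUp.lm` (82's `LMove`), `VUp.moved`, `VUp.move`, `VUp.simu`. -/

namespace Pool.Agent.H78.W

open Pool.Agent.H33.Q1 (lt tt ct lt_odd tt_lt lt_tt lt_inj)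
open Pool.Agent.H82.W (WD LMove Cor fl Simu)
open Pool.Agent.H13.W (up dn up_inj StripMove SG SR KB)
open Pool.Agent.H19.W (cx cy cx_lt cy_lt lt_cc mv mv_in mv_out StripOK Moved Rc stripOK_rect
  cx_up cy_up cx_dn cy_dn odd_up odd_dn)

variable {κ : Type*}

lemma bb_eq_iff {p : ℤ → ℤ → Option κ} {e e' : ℤ × ℤ} : bb p e = bb p e' ↔
    e = e' ∨ (p (cx e) (cy e) ≠ none ∧ p (cx e) (cy e) = p (cx e') (cy e')) := by
  unfold bb
  rcases h1 : p (cx e) (cy e) with _ | k <;> rcases h2 : p (cx e') (cy e') with _ | k'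
  · simp
  · simp only [reduceCtorEq, ne_eq, not_true_eq_false, false_and, or_false, false_iff]
    rintro rfl
    rw [h1] at h2; simp at h2
  · simp only [reduceCtorEq, ne_eq, not_false_eq_true, and_false, or_false, false_iff]
    rintro rfl
    rw [h1] at h2; simp at h2
  · simp only [Sum.inr.injEq, ne_eq, reduceCtorEq, not_false_eq_true, Option.some.injEq, true_and]
    constructor
    · intro h; exact Or.inr h
    · rintro (rfl | h)
      · rw [h1] at h2; simpa using h2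
      · exact h

lemma bb_none {p : ℤ → ℤ → Option κ} {e : ℤ × ℤ} (h : p (cx e) (cy e) = none) : bb p e = Sum.inl e := by
  unfold bb; rw [h]

lemma bb_some {p : ℤ → ℤ → Option κ} {e : ℤ × ℤ} {k : κ} (h : p (cx e) (cy e) = some k) :
    bb p e = Sum.inr k := by
  unfold bb; rw [h]

/-- rectangle of labels -/
def Bk (xa xb ya yb : ℤ) : Set (ℤ × ℤ) := {e | (xa ≤ cx e ∧ cx e < xb) ∧ (ya ≤ cy e ∧ cy e < yb)}

namespace Pic

variable (G : Pic κ)

variable {G} in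
lemma mem_DN {x0 t : ℤ} {e : ℤ × ℤ} (ho : (e.1 + e.2) % 2 = 1) : e ∈ G.DN x0 t ↔
    (cy e = t ∧ x0 ≤ cx e ∧ cx e ≤ G.xe) ∨
    (G.P = true ∧ cy e = G.YF ∧ G.xt - 1 ≤ cx e ∧ cx e ≤ G.xw) :=
  ⟨fun h => h.2, fun h => ⟨ho, h⟩⟩

variable {G} in
lemma mem_DW {x0 r : ℤ} {e : ℤ × ℤ} (ho : (e.1 + e.2) % 2 = 1) : e ∈ G.DW x0 r ↔
    cy e = r ∧ x0 ≤ cx e ∧ cx e ≤ G.xw :=
  ⟨fun h => h.2, fun h => ⟨ho, h⟩⟩

variable {G} in
lemma mem_KN {t : ℤ} {e : ℤ × ℤ} (h1 : e ∈ G.Λ) (h2 : e ∉ G.E) :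
    e ∈ G.KN t ↔ Xor (e ∈ G.W0) (G.tog t (cx e) (cy e)) := by
  classical
  unfold KN
  rw [mem_symmDiff, mem_filter, mem_sdiff]
  simp only [h1, h2, not_false_eq_true, true_and, Xor]

variable {G} in
lemma mem_KW {r : ℤ} {e : ℤ × ℤ} (h1 : e ∈ G.Λ) (h2 : e ∉ G.E) :
    e ∈ G.KW r ↔ Xor (e ∈ G.W0) (cx e = G.xw ∧ r < cy e ∧ cy e < G.Yc) := by
  classical
  unfold KW
  rw [mem_symmDiff, mem_filter, mem_sdiff]
  simp only [h1, h2, not_false_eq_true, true_and, Xor]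

lemma mem_FU {e : ℤ × ℤ} : e ∈ G.FU ↔ e ∈ G.E ∧
    G.xs ≤ cx e ∧ cx e < G.xe ∧ G.Yd < cy e ∧ cy e ≤ G.Yc + G.T (cx e) := by
  unfold FU; rw [mem_filter]

lemma mem_FL {e : ℤ × ℤ} : e ∈ G.FL ↔ e ∈ G.E ∧
    G.xs ≤ cx e ∧ cx e < G.xe ∧ G.Yc - G.T (cx e) - 1 ≤ cy e ∧ cy e < G.Yd := by
  unfold FL; rw [mem_filter]

lemma mem_Rt {e : ℤ × ℤ} : e ∈ G.Rt ↔ e ∈ G.E ∧ cy e = G.Yc - 1 ∧ G.xe ≤ cx e ∧ cx e < G.xt := by
  unfold Rt; rw [mem_filter]

lemma mem_RtW {e : ℤ × ℤ} : e ∈ G.RtW ↔ e ∈ G.Rt ∧ up e ∈ G.KN G.Yd := by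
  classical
  unfold RtW; rw [mem_filter]

namespace Ok

variable {G} {xl H : ℤ} (hG : G.Ok xl H)
include hG

lemma oddE {e : ℤ × ℤ} (h : e ∈ G.E) : (e.1 + e.2) % 2 = 1 := hG.odd e (hG.sub h)

lemma h1 : (0 : ℤ) < G.h := by exact_mod_cast hG.hh

lemma Yd_gt : G.Yc < G.Yd := by unfold Yd; have := hG.h1; omega

/-- random tiles over and below the chord -/
lemma eL {e : ℤ × ℤ} (ho : (e.1 + e.2) % 2 = 1) (h1 : xl ≤ cx e) (h2 : cx e < G.xe)
    (h3 : G.Yc - H ≤ cy e) (h4 : cy e < G.Yc + H) : e ∈ G.E := by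
  rw [← lt_cc ho]; exact hG.gl _ _ h1 h2 h3 h4

/-- below the tooth -/
lemma eB {e : ℤ × ℤ} (ho : (e.1 + e.2) % 2 = 1) (h1 : G.xe ≤ cx e) (h2 : cx e < G.xw)
    (h3 : G.Yc - H ≤ cy e) (h4 : cy e < G.Yc) : e ∈ G.E := by
  rw [← lt_cc ho]; exact hG.gb _ _ h1 h2 h3 h4

/-- behind the tooth -/
lemma eP {e : ℤ × ℤ} (hP : G.P = true) (ho : (e.1 + e.2) % 2 = 1) (h1 : G.xt ≤ cx e)
    (h2 : cx e < G.xw) (h3 : G.Yc ≤ cy e) (h4 : cy e < G.Yc + H) : e ∈ G.E := by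
  rw [← lt_cc ho]; exact hG.gp hP _ _ h1 h2 h3 h4

/-- the tooth -/
lemma eT {e : ℤ × ℤ} (ho : (e.1 + e.2) % 2 = 1) (h1 : G.xe ≤ cx e) (h2 : cx e < G.xt)
    (h3 : G.Yc ≤ cy e) (h4 : cy e < G.Yc + H) : e ∉ G.E ∧
    (e ∈ G.Λ ↔ cx e = G.xe ∨ cy e = G.Yc ∨ (G.P = true ∧ cx e = G.xt - 1)) := by
  have := hG.gt _ _ h1 h2 h3 h4
  rwa [lt_cc ho] at this

/-- the right wall -/
lemma eW {e : ℤ × ℤ} (ho : (e.1 + e.2) % 2 = 1) (h1 : cx e = G.xw)
    (h3 : G.Yc - H ≤ cy e) (h4 : cy e < G.Yc + H) : e ∉ G.E ∧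
    (e ∈ G.Λ ↔ cy e ≤ G.Yc ∨ G.P = true) := by
  have := hG.gw _ h3 h4
  rwa [← h1, lt_cc ho] at this

lemma eO {e : ℤ × ℤ} (ho : (e.1 + e.2) % 2 = 1) (h1 : cx e = G.xw + 1)
    (h3 : G.Yc - H ≤ cy e) (h4 : cy e < G.Yc + H) : e ∉ G.Λ := by
  have := hG.go _ h3 h4
  rwa [← h1, lt_cc ho] at this

/-- colour of the tooth -/
lemma kT {e : ℤ × ℤ} (he : e ∈ G.Λ) (h1 : G.xe ≤ cx e) (h2 : cx e < G.xt)
    (h3 : G.Yc ≤ cy e) (h4 : cy e < G.Yc + H) : e ∈ G.W0 ↔ G.kT = true := by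
  have ho := hG.odd e he
  have := hG.cT _ _ h1 h2 h3 h4 (by rwa [lt_cc ho])
  rwa [lt_cc ho] at this

/-- colours of the right wall -/
lemma kW {e : ℤ × ℤ} (he : e ∈ G.Λ) (h1 : cx e = G.xw)
    (h3 : G.Yc - H ≤ cy e) (h4 : cy e < G.Yc + H) : e ∈ G.W0 ↔ (G.kW = true ↔ cy e < G.Yc) := by
  have ho := hG.odd e he
  have := hG.cW _ h3 h4 (by rwa [← h1, lt_cc ho])
  rwa [← h1, lt_cc ho] at this

lemma E_KN {e : ℤ × ℤ} (he : e ∈ G.E) (t : ℤ) : e ∉ G.KN t := by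
  classical
  unfold KN
  rw [mem_symmDiff, mem_filter, mem_sdiff]
  rintro (⟨h, -⟩ | ⟨⟨⟨-, h⟩, -⟩, -⟩)
  · exact hG.dis e h he
  · exact h he

lemma E_KW {e : ℤ × ℤ} (he : e ∈ G.E) (t : ℤ) : e ∉ G.KW t := by
  classical
  unfold KW
  rw [mem_symmDiff, mem_filter, mem_sdiff]
  rintro (⟨h, -⟩ | ⟨⟨⟨-, h⟩, -⟩, -⟩)
  · exact hG.dis e h he
  · exact h he

/-- the plates of the chord -/
lemma plC {x y : ℤ} (h1 : xl ≤ x) (h2 : x < G.xe) (h3 : G.Yc - H ≤ y) (h4 : y < G.Yc + H) :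
    G.pl x y ≠ none ↔ G.Yc - G.T x ≤ y ∧ y < G.Yc + G.T x := by
  rw [hG.pc x y h1 h2 h3 h4]
  split_ifs with h
  · simp only [ne_eq, reduceCtorEq, not_false_eq_true, true_iff]; exact h
  · simp only [ne_eq, not_true_eq_false, false_iff]; exact h

end Ok

end Pic

/-- **Numerical hypotheses of the up move**: block `[xa, xb) × [ya, yb)`, end `p` in the narrow room. -/
structure VUp (G : Pic κ) (xl H xa xb ya yb : ℤ) (p : ℤ × ℤ) : Prop where
  ok : G.Ok xl H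
  xab : xa < xb
  xlb : xl ≤ xb
  xas : xa ≤ G.xs
  xap : xa ≤ p.1
  xsb : G.xs ≤ xb
  xpb : p.1 ≤ xb
  xbe : xb ≤ G.xe
  r1 : G.Yd < p.2
  r2 : p.2 < G.Yc + H
  yb1 : p.2 < yb
  ya1 : ya ≤ G.Yd
  /-- the plates in the columns of the block are in the block -/
  blk : ∀ x, G.xs ≤ x → x < xb → G.Yc + G.T x < yb
  /-- the plates right of the block are below the row of `p` -/
  plt : ∀ x, xb ≤ x → x < G.xe → G.Yc + G.T x ≤ p.2

namespace VUp

variable [DecidableEq κ] {G : Pic κ} {xl H xa xb ya yb : ℤ} {p : ℤ × ℤ}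

/-- the strip -/
def S (G : Pic κ) (xb : ℤ) (p : ℤ × ℤ) : Set (ℤ × ℤ) := Rc xb G.xe G.Yd p.2

lemma mem_S {e : ℤ × ℤ} : e ∈ S G xb p ↔ (xb ≤ cx e ∧ cx e ≤ G.xe) ∧ (G.Yd ≤ cy e ∧ cy e < p.2) := Iff.rfl

open Classical in
/-- outside labels -/
noncomputable def O1 (G : Pic κ) (xa xb ya yb : ℤ) (p : ℤ × ℤ) : Finset (ℤ × ℤ) :=
  G.E.filter fun e => e ∉ Bk xa xb ya yb ∧ e ∉ G.DN p.1 p.2

/-- their images -/
noncomputable def O2 (G : Pic κ) (xa xb ya yb : ℤ) (p : ℤ × ℤ) : Finset (ℤ × ℤ) :=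
  (O1 G xa xb ya yb p).image (mv (S G xb p))

lemma mem_O1 {e : ℤ × ℤ} : e ∈ O1 G xa xb ya yb p ↔ e ∈ G.E ∧ e ∉ Bk xa xb ya yb ∧ e ∉ G.DN p.1 p.2 := by
  classical
  unfold O1; rw [mem_filter]

variable (U : VUp G xl H xa xb ya yb p)
include U

lemma Tp {x : ℤ} (h1 : xl ≤ x) (h2 : x < G.xe) : G.Yd < G.Yc + G.T x ∧ G.Yc + G.T x + 1 < G.Yc + H ∧
    G.Yc - H ≤ G.Yc - G.T x - 1 := by
  have := U.ok.th x h1 h2
  have h3 := U.ok.h1
  unfold Pic.Yd
  omega

/-- **The strip is closed.** -/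
theorem strip : StripOK (G.WN p).Λ (G.WN p).D (Bk xa xb ya yb) (S G xb p) := by
  have hG := U.ok
  have hYd := hG.Yd_gt
  have hr1 := U.r1
  have hr2 := U.r2
  have hH : 0 < H := by
    have := hG.th G.xs hG.xls hG.xse
    have := hG.h1
    omega
  apply stripOK_rect
  · exact fun e he => hG.odd e he
  · exact fun e _ he => he.1.2
  · intro e he h1 h2 h3
    have := U.xab
    exact ⟨⟨by omega, by omega⟩, by have := U.ya1; omega, by have := U.yb1; omega⟩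
  · intro e he h1 h2 h3
    have := hG.xet
    have h4 := (hG.eT (hG.odd e he) (by omega) (by omega) (by omega) (by omega)).2.1 he
    omega
  · intro e he h1 h2 h3 h4
    show e ∈ G.DN p.1 p.2 ↔ _
    rw [Pic.mem_DN (hG.odd e he)]
    have := hG.xet
    have := U.xpb
    constructor
    · rintro (h | h)
      · exact h.1
      · omega
    · intro h
      exact Or.inl ⟨h, by omega, h2⟩
  · intro e he h1 h2 h3 h4 h5
    show dn e ∈ G.Λ
    have ho := odd_dn.2 (hG.odd e he)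
    have := U.xlb
    rcases lt_or_eq_of_le h3 with h6 | h6
    · exact hG.sub (hG.eL ho (by rw [cx_dn]; omega) (by rw [cx_dn]; exact h6)
        (by rw [cy_dn]; omega) (by rw [cy_dn]; omega))
    · exact (hG.eT ho (by rw [cx_dn]; omega) (by rw [cx_dn]; have := hG.xet; omega)
        (by rw [cy_dn]; omega) (by rw [cy_dn]; omega)).2.2 (Or.inl (by rw [cx_dn]; exact h6))

/-- random labels of the strip -/
lemma S_E {e : ℤ × ℤ} (he : e ∈ G.E) (hS : e ∈ S G xb p) : cx e < G.xe := by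
  have hG := U.ok
  obtain ⟨⟨h1, h2⟩, h3, h4⟩ := mem_S.1 hS
  by_contra hc
  have := hG.Yd_gt
  have := U.r2
  exact (hG.eT (hG.oddE he) (by omega) (by have := hG.xet; omega) (by omega) (by omega)).1 he

/-- the image of a random label is a random label -/
lemma mv_E {e : ℤ × ℤ} (he : e ∈ G.E) : mv (S G xb p) e ∈ G.E := by
  have hG := U.ok
  by_cases hS : e ∈ S G xb p
  · have h5 := U.S_E he hS
    obtain ⟨⟨h1, h2⟩, h3, h4⟩ := mem_S.1 hS
    rw [mv_in hS]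
    have := hG.Yd_gt
    have := U.r2
    have := U.xlb
    have hH := (U.Tp (x := cx e) (by omega) h5).2.1
    have hT := (hG.th (cx e) (by omega) h5).1
    have := hG.h1
    exact hG.eL (odd_up.2 (hG.oddE he)) (by rw [cx_up]; omega) (by rw [cx_up]; exact h5)
      (by rw [cy_up]; omega) (by rw [cy_up]; omega)
  · rw [mv_out hS]; exact he

/-- outside labels at the places of the raised plates -/
lemma raised {e : ℤ × ℤ} (ho : (e.1 + e.2) % 2 = 1) (hB : e ∉ Bk xa xb ya yb) (hD : e ∉ G.DN p.1 p.2)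
    (hS : e ∉ S G xb p) (h1 : G.xs ≤ cx e) (h2 : cx e < G.xe) (h3 : G.Yd ≤ cy e)
    (h4 : cy e ≤ G.Yc + G.T (cx e)) : False := by
  have hG := U.ok
  rcases lt_or_ge (cx e) xb with h5 | h5
  · have := U.blk _ h1 h5
    have := U.xas
    have := U.ya1
    exact hB ⟨⟨by omega, h5⟩, by omega, by omega⟩
  · have h6 := U.plt _ h5 h2
    rcases lt_or_eq_of_le (h4.trans h6) with h7 | h7
    · exact hS (mem_S.2 ⟨⟨h5, h2.le⟩, h3, h7⟩)
    · apply hD
      rw [Pic.mem_DN ho]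
      have := U.xpb
      exact Or.inl ⟨h7, by omega, h2.le⟩

/-- plates of an outside label and of its image -/
lemma pl_mv {e : ℤ × ℤ} (he : e ∈ G.E) (hB : e ∉ Bk xa xb ya yb) (hD : e ∉ G.DN p.1 p.2) :
    G.plU (cx (mv (S G xb p) e)) (cy (mv (S G xb p) e)) = G.pl (cx e) (cy e) := by
  have hG := U.ok
  have hYd := hG.Yd_gt
  by_cases hS : e ∈ S G xb p
  · have h5 := U.S_E he hS
    obtain ⟨⟨h1, h2⟩, h3, h4⟩ := mem_S.1 hS
    rw [mv_in hS, cx_up, cy_up]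
    unfold Pic.plU
    have e1 : cy e + 1 - 1 = cy e := by ring
    have := U.r2
    have := U.xlb
    have hT := (hG.th (cx e) (by omega) h5)
    have := hG.h1
    split_ifs with h
    · rw [e1]
    · have h6 : ¬ (cy e + 1 = G.Yc + G.T (cx e)) := fun h' => h ⟨by have := U.xsb; omega, h5, h'⟩
      rw [hG.pc _ _ (by omega) h5 (by omega) (by omega), hG.pc _ _ (by omega) h5 (by omega) (by omega)]
      have h7 : (G.Yc - G.T (cx e) ≤ cy e + 1 ∧ cy e + 1 < G.Yc + G.T (cx e)) ↔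
        (G.Yc - G.T (cx e) ≤ cy e ∧ cy e < G.Yc + G.T (cx e)) := by omega
      simp only [h7]
  · rw [mv_out hS]
    unfold Pic.plU
    rw [if_neg]
    rintro ⟨h1, h2, h3⟩
    have := U.ok.xls
    have := (U.Tp (x := cx e) (by omega) h2).1
    exact U.raised (hG.oddE he) hB hD hS h1 h2 (by omega) h3.le

/-- the labels of plates are not flipped -/
lemma par_plate {e : ℤ × ℤ} (he : e ∈ G.E) (hB : e ∉ Bk xa xb ya yb) (hD : e ∉ G.DN p.1 p.2)
    (hp : G.pl (cx e) (cy e) ≠ none) : e ∈ S G xb p ↔ mv (S G xb p) e ∈ G.FU := by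
  have hG := U.ok
  have hYd := hG.Yd_gt
  rw [Pic.mem_FU]
  constructor
  · intro hS
    have h5 := U.S_E he hS
    have h6 := U.mv_E he
    obtain ⟨⟨h1, h2⟩, h3, h4⟩ := mem_S.1 hS
    refine ⟨h6, ?_⟩
    rw [mv_in hS, cx_up, cy_up]
    have := U.xlb
    have := U.r2
    have hT := (hG.th (cx e) (by omega) h5)
    have := hG.h1
    rw [hG.plC (by omega) h5 (by omega) (by omega)] at hp
    have := U.xsb
    exact ⟨by omega, h5, by omega, by omega⟩
  · rintro ⟨h0, h1, h2, h3, h4⟩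
    by_contra hS
    rw [mv_out hS] at h1 h2 h3 h4
    exact U.raised (hG.oddE he) hB hD hS h1 h2 h3.le h4

/-- **Bookkeeping of the labels.** -/
theorem lm : LMove (G.WN p) G.WU (mv (S G xb p)) (S G xb p) (O1 G xa xb ya yb p) (O2 G xa xb ya yb p) := by
  classical
  have hG := U.ok
  have inj : Set.InjOn (mv (S G xb p)) (O1 G xa xb ya yb p : Set (ℤ × ℤ)) := by
    intro e he e' he' hh
    obtain ⟨h1, h2, h3⟩ := mem_O1.1 (mem_coe.1 he)
    obtain ⟨k1, k2, k3⟩ := mem_O1.1 (mem_coe.1 he')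
    exact U.strip.mv_inj (hG.sub h1) h2 h3 (hG.sub k1) k2 k3 hh
  have nfl : ∀ e ∈ O1 G xa xb ya yb p, G.pl (cx e) (cy e) ≠ none →
      e ∉ fl (G.WN p) G.WU (mv (S G xb p)) (S G xb p) (O1 G xa xb ya yb p) := by
    intro e he hp hf
    obtain ⟨h1, h2, h3⟩ := mem_O1.1 he
    unfold fl at hf
    have hf2 := (mem_filter.1 hf).2
    have e1 : e ∉ (G.WN p).F := notMem_empty e
    have e2 : (mv (S G xb p) e ∈ G.WU.F) ↔ e ∈ S G xb p := (U.par_plate h1 h2 h3 hp).symm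
    rw [e2] at hf2
    by_cases hS : e ∈ S G xb p <;> simp [hS, e1, Xor] at hf2
  refine ⟨filter_subset _ _, ?_, rfl, inj, ?_, ?_, ?_, ?_⟩
  · intro f hf
    obtain ⟨e, he, rfl⟩ := mem_image.1 hf
    exact U.mv_E (mem_O1.1 he).1
  · intro e he e' he'
    obtain ⟨h1, h2, h3⟩ := mem_O1.1 he
    obtain ⟨k1, k2, k3⟩ := mem_O1.1 he'
    show bb G.pl e = bb G.pl e' ↔ bb G.plU _ = bb G.plU _
    rw [bb_eq_iff, bb_eq_iff, U.pl_mv h1 h2 h3, U.pl_mv k1 k2 k3]
    refine or_congr ⟨fun h => by rw [h], fun h => inj (mem_coe.2 he) (mem_coe.2 he') h⟩ Iff.rfl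
  · intro e he e' he' hb hf
    by_cases hp : G.pl (cx e) (cy e) = none
    · have hb' : bb G.pl e = bb G.pl e' := hb
      rw [bb_eq_iff] at hb'
      rcases hb' with h | h
      · exact h ▸ hf
      · exact absurd hp h.1
    · exact absurd hf (nfl e he hp)
  · intro e he
    exact hG.E_KN (mem_O1.1 he).1 _
  · intro f hf
    obtain ⟨e, he, rfl⟩ := mem_image.1 hf
    exact hG.E_KN (U.mv_E (mem_O1.1 he).1) _

/-- state of an outer label in the narrow world -/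
lemma stN {ω : Finset (ℤ × ℤ)} (hω : ω ⊆ G.E) {e : ℤ × ℤ} (he : e ∉ G.E) :
    e ∈ (G.WN p).st ω ↔ e ∈ G.KN p.2 :=
  WD.mem_st' (fun h => he (hω h)) (notMem_empty e)

/-- state of an outer label in the canonical world -/
lemma stU {ω : Finset (ℤ × ℤ)} (hω : ω ⊆ G.E) {e : ℤ × ℤ} (he : e ∉ G.E) :
    e ∈ G.WU.st ω ↔ e ∈ G.KN G.Yd :=
  WD.mem_st' (fun h => he (hω h)) (fun h => he ((G.mem_FU).1 h).1)

/-- **The canonical world is the moved world outside of the block.** -/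
theorem moved {ω1 ω2 : Finset (ℤ × ℤ)} (hC : Cor (G.WN p) G.WU (mv (S G xb p)) (S G xb p)
    (O1 G xa xb ya yb p) (O2 G xa xb ya yb p) ω1 ω2) :
    Moved (G.WN p).Λ G.WU.Λ (G.WN p).D G.WU.D ((G.WN p).st ω1) (G.WU.st ω2)
      (Bk xa xb ya yb) (S G xb p) := by
  have hG := U.ok
  have hYd := hG.Yd_gt
  have hr1 := U.r1
  have hr2 := U.r2
  have hxet := hG.xet
  have hE : ∀ {e : ℤ × ℤ}, e ∈ G.E → e ∉ Bk xa xb ya yb → e ∉ G.DN p.1 p.2 →
      (mv (S G xb p) e ∈ G.WU.st ω2 ↔ Xor (e ∈ (G.WN p).st ω1) (e ∈ S G xb p)) :=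
    fun h1 h2 h3 => U.lm.state hC (mem_O1.2 ⟨h1, h2, h3⟩)
  refine ⟨?_, ?_, ?_, ?_⟩
  · intro e h1 h2 h3 h4
    have ho := hG.odd e h1
    have h4' : e ∉ G.DN p.1 p.2 := h4
    refine ⟨h1, ?_, ?_⟩
    · show e ∉ G.DN G.xs G.Yd
      rw [Pic.mem_DN ho]
      rintro (⟨g1, g2, g3⟩ | g)
      · rcases lt_or_ge (cx e) xb with g4 | g4
        · have := U.xas
          have := U.ya1
          have := U.yb1
          exact h2 ⟨⟨by omega, g4⟩, by omega, by omega⟩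
        · exact h3 (mem_S.2 ⟨⟨g4, g3⟩, by omega, by omega⟩)
      · exact h4' ((Pic.mem_DN ho).2 (Or.inr g))
    · by_cases he : e ∈ G.E
      · have := hE he h2 h4'
        rw [mv_out h3] at this
        rw [this]
        simp [h3, Xor]
      · rw [U.stN hC.1 he, U.stU hC.2.1 he, Pic.mem_KN h1 he, Pic.mem_KN h1 he]
        have htog : G.tog G.Yd (cx e) (cy e) ↔ G.tog p.2 (cx e) (cy e) := by
          unfold Pic.tog Pic.tp
          by_cases g1 : cx e ≤ G.xe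
          · rw [if_pos g1, if_pos g1]
            constructor
            · rintro ⟨k1, k2, k3, k4⟩
              exact ⟨k1, k2, k3, by omega⟩
            · rintro ⟨k1, k2, k3, k4⟩
              refine ⟨k1, k2, k3, ?_⟩
              by_contra hc
              have hxe : cx e = G.xe := le_antisymm g1 k1
              have := U.xbe
              rcases lt_or_eq_of_le k4 with k5 | k5
              · exact h3 (mem_S.2 ⟨⟨by omega, by omega⟩, by omega, k5⟩)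
              · apply h4'
                rw [Pic.mem_DN ho]
                have := U.xpb
                exact Or.inl ⟨k5, by omega, by omega⟩
          · rw [if_neg g1, if_neg g1]
        rw [htog]
  · intro e h1 h2 h3
    have ho := hG.odd e h1
    have h4 : e ∉ G.DN p.1 p.2 := U.strip.sD e h1 h2 h3
    obtain ⟨⟨a1, a2⟩, a3, a4⟩ := mem_S.1 h3
    have hxl := U.xlb
    have hlo : G.Yc - H ≤ G.Yc := by
      have := hG.th G.xs hG.xls hG.xse
      have := hG.h1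
      omega
    have hup : up e ∈ G.Λ := by
      rcases lt_or_eq_of_le a2 with h6 | h6
      · exact hG.sub (hG.eL (odd_up.2 ho) (by rw [cx_up]; omega) (by rw [cx_up]; exact h6)
          (by rw [cy_up]; omega) (by rw [cy_up]; omega))
      · exact (hG.eT (odd_up.2 ho) (by rw [cx_up]; omega) (by rw [cx_up]; omega)
          (by rw [cy_up]; omega) (by rw [cy_up]; omega)).2.2 (Or.inl (by rw [cx_up]; exact h6))
    refine ⟨hup, ?_, ?_⟩
    · show up e ∉ G.DN G.xs G.Yd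
      rw [Pic.mem_DN (odd_up.2 ho), cy_up, cx_up]
      rintro (g | g) <;> omega
    · by_cases he : e ∈ G.E
      · have := hE he h2 h4
        rw [mv_in h3] at this
        rw [this]
        simp [h3, Xor]
      · have hx : cx e = G.xe := by
          by_contra hc
          exact he (hG.eL ho (by omega) (by omega) (by omega) (by omega))
        have he2 : up e ∉ G.E := (hG.eT (odd_up.2 ho) (by rw [cx_up]; omega) (by rw [cx_up]; omega)
          (by rw [cy_up]; omega) (by rw [cy_up]; omega)).1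
        rw [U.stN hC.1 he, U.stU hC.2.1 he2, Pic.mem_KN h1 he, Pic.mem_KN hup he2,
          hG.kT h1 (by omega) (by omega) (by omega) (by omega),
          hG.kT hup (by rw [cx_up]; omega) (by rw [cx_up]; omega) (by rw [cy_up]; omega)
            (by rw [cy_up]; omega), cx_up, cy_up]
        have t1 : G.tog p.2 (cx e) (cy e) := by
          unfold Pic.tog Pic.tp
          rw [if_pos (by omega)]
          exact ⟨by omega, by have := hG.xtw; omega, by omega, by omega⟩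
        have t2 : ¬ G.tog G.Yd (cx e) (cy e + 1) := by
          unfold Pic.tog Pic.tp
          rw [if_pos (by omega)]
          rintro ⟨-, -, -, g⟩
          omega
        by_cases hk : G.kT = true <;> simp [hk, t1, t2, Xor]
  · intro e h1 h2 h3 h4
    have ho := hG.odd e h1
    refine ⟨h1, ?_⟩
    show e ∈ G.DN G.xs G.Yd
    rw [Pic.mem_DN ho]
    have h3' : e ∈ G.DN p.1 p.2 := h3
    rw [Pic.mem_DN ho] at h3'
    rcases h3' with ⟨g1, g2, g3⟩ | g
    · exfalso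
      rcases lt_or_ge (cx e) xb with g4 | g4
      · have := U.xap
        have := U.ya1
        have := U.yb1
        exact h2 ⟨⟨by omega, g4⟩, by omega, by omega⟩
      · apply h4
        rw [mem_S, cx_dn, cy_dn]
        exact ⟨⟨g4, g3⟩, by omega, by omega⟩
    · exact Or.inr g
  · intro e h1 h2 h3 h4 h5 h6
    have ho := hG.odd e h1
    refine ⟨h1, ?_⟩
    show e ∈ G.DN G.xs G.Yd
    rw [Pic.mem_DN ho]
    obtain ⟨⟨a1, a2⟩, a3, a4⟩ := mem_S.1 h3
    left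
    refine ⟨?_, by have := U.xsb; omega, a2⟩
    by_contra hc
    apply h6
    rw [mem_S, cx_dn, cy_dn]
    exact ⟨⟨a1, a2⟩, by omega, by omega⟩

/-- **The strip move.** -/
theorem move {ω1 ω2 : Finset (ℤ × ℤ)} (hC : Cor (G.WN p) G.WU (mv (S G xb p)) (S G xb p)
    (O1 G xa xb ya yb p) (O2 G xa xb ya yb p) ω1 ω2) :
    StripMove (G.WN p).Λ G.WU.Λ (G.WN p).D G.WU.D ((G.WN p).st ω1) (G.WU.st ω2)
      (Bk xa xb ya yb) (S G xb p) :=
  U.strip.move (U.moved hC)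

/-- **The simulation** (field `simu` of `Half`). -/
theorem simu {ω1 ω2 : Finset (ℤ × ℤ)} (hC : Cor (G.WN p) G.WU (mv (S G xb p)) (S G xb p)
    (O1 G xa xb ya yb p) (O2 G xa xb ya yb p) ω1 ω2) :
    ∃ G1o, Simu ((G.WN p).G ω1) G1o (KB (Bk xa xb ya yb)) (G.WU.G ω2)
      (SR (G.WN p).Λ (G.WN p).D (Bk xa xb ya yb) (S G xb p)) :=
  ⟨_, (U.move hC).simu⟩

end VUp

end Pool.Agent.H78.W
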