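import Mathlib
import Pool.Agent.H78.W.VG
import Pool.Agent.H78.W.FCh
import Pool.Agent.H19.W.VW
import Pool.Agent.H74.W.WorldRf
import Pool.Agent.H45.W.Sym

set_option autoImplicit false
set_option linter.unusedVariables false
open Finset

/-! # StChd, V1: the coarse data of a chord and the geometry of the band in tile coordinates

`sg = true` : the tooth is above the continuing room, `sg = false` : below; picture row `y` = row `ry sg y` of
the polygon. `Cc Q sg a0 be bt bw Y0 P` : coarse data of the chord on the line `Y0`, cells `a0 ≤ a < be`, tooth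
`be ≤ a < bt`, right wall of the wide room at `bw`. -/

namespace Pool.Agent.H78.W

open Pool.Agent.Q1.M4 (Cell)
open Pool.Agent.H33.Q1 (lt tt ct TL lt_odd tt_lt lt_tt lt_inj mem_TL lt_mem_TL)
open Pool.Agent.H13.W (chG)
open Pool.Agent.H58.W (plV)
open Pool.Agent.H19.W (Tq LamC nbQ)

/-- row of the polygon -/
def ry (sg : Bool) (y : ℤ) : ℤ := if sg then y else -1 - y

@[simp] lemma ry_true (y : ℤ) : ry true y = y := rfl
@[simp] lemma ry_false (y : ℤ) : ry false y = -1 - y := rfl

lemma ry_ry (sg : Bool) (y : ℤ) : ry sg (ry sg y) = y := by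
  cases sg
  · simp
  · simp

/-- **Coarse data of a chord.** -/
structure Cc (Q : Finset Cell) (sg : Bool) (a0 be bt bw Y0 : ℤ) (P : Bool) : Prop where
  l1 : a0 < be
  l2 : be < bt
  l3 : bt ≤ bw
  l4 : P = false → bt = bw
  l5 : P = true → bt < bw
  /-- over the chord, both rows -/
  c1 : ∀ a, a0 ≤ a → a < be → (a, Y0) ∈ Q ∧ (a, Y0 - 1) ∈ Q
  /-- the chord -/
  ch : ∀ a, a0 ≤ a → a < be → (a, Y0) ∈ chG Q
  /-- wide room -/
  c2 : ∀ a, be ≤ a → a < bw → (a, if sg then Y0 - 1 else Y0) ∈ Q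
  c2' : (bw, if sg then Y0 - 1 else Y0) ∉ Q
  /-- tooth -/
  c3 : ∀ a, be ≤ a → a < bt → (a, if sg then Y0 else Y0 - 1) ∉ Q
  /-- behind the tooth -/
  c4 : P = true → ∀ a, bt ≤ a → a < bw → (a, if sg then Y0 else Y0 - 1) ∈ Q
  c4' : (bw, if sg then Y0 else Y0 - 1) ∉ Q

/-- first picture row above the chord, for cells of `L` rows -/
def yc (sg : Bool) (L Y0 : ℤ) : ℤ := if sg then L * Y0 else -(L * Y0)

lemma div_in {L x a : ℤ} (hL : 0 < L) (h1 : L * a ≤ x) (h2 : x < L * a + L) : x / L = a := by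
  have h3 : x = (x - L * a) + L * a := by ring
  rw [h3, Int.add_mul_ediv_left _ _ hL.ne', Int.ediv_eq_zero_of_lt (by omega) (by omega), zero_add]

lemma div_col {L x a b : ℤ} (hL : 0 < L) (h1 : L * a ≤ x) (h2 : x < L * b) : a ≤ x / L ∧ x / L < b := by
  constructor
  · rw [Int.le_ediv_iff_mul_le hL, mul_comm]; exact h1
  · rw [Int.ediv_lt_iff_lt_mul hL, mul_comm]; exact h2

lemma row_n {sg : Bool} {L Y0 y : ℤ} (hL : 0 < L) (h1 : yc sg L Y0 ≤ y) (h2 : y < yc sg L Y0 + L) :
    ry sg y / L = if sg then Y0 else Y0 - 1 := by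
  unfold yc at h1 h2
  cases sg
  · simp only [Bool.false_eq_true, if_false, ry_false] at h1 h2 ⊢
    exact div_in hL (by linarith) (by linarith)
  · simp only [if_true, ry_true] at h1 h2 ⊢
    exact div_in hL (by linarith) (by linarith)

lemma row_w {sg : Bool} {L Y0 y : ℤ} (hL : 0 < L) (h1 : yc sg L Y0 - L ≤ y) (h2 : y < yc sg L Y0) :
    ry sg y / L = if sg then Y0 - 1 else Y0 := by
  unfold yc at h1 h2
  cases sg
  · simp only [Bool.false_eq_true, if_false, ry_false] at h1 h2 ⊢
    exact div_in hL (by linarith) (by linarith)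
  · simp only [if_true, ry_true] at h1 h2 ⊢
    exact div_in hL (by linarith) (by linarith)

/-- the tile `(x, y)` of the picture is in the polygon -/
def InV (Q : Finset Cell) (sg : Bool) (L x y : ℤ) : Prop := (x / L, ry sg y / L) ∈ Q

namespace Cc

variable {Q : Finset Cell} {sg P : Bool} {a0 be bt bw Y0 L x y : ℤ} (C : Cc Q sg a0 be bt bw Y0 P)
  (hL : 0 < L)
include C hL

lemma f1 (h1 : L * a0 ≤ x) (h2 : x < L * be) (h3 : yc sg L Y0 - L ≤ y) (h4 : y < yc sg L Y0 + L) :
    InV Q sg L x y := by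
  unfold InV
  have hx := div_col hL h1 h2
  rcases lt_or_ge y (yc sg L Y0) with h5 | h5
  · rw [row_w hL h3 h5]
    have := C.c1 _ hx.1 hx.2
    cases sg
    · exact this.1
    · exact this.2
  · rw [row_n hL h5 h4]
    have := C.c1 _ hx.1 hx.2
    cases sg
    · exact this.2
    · exact this.1

lemma f2 (h1 : L * be ≤ x) (h2 : x < L * bw) (h3 : yc sg L Y0 - L ≤ y) (h4 : y < yc sg L Y0) :
    InV Q sg L x y := by
  unfold InV
  have hx := div_col hL h1 h2
  rw [row_w hL h3 h4]
  exact C.c2 _ hx.1 hx.2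

lemma f3 (h1 : L * be ≤ x) (h2 : x < L * bt) (h3 : yc sg L Y0 ≤ y) (h4 : y < yc sg L Y0 + L) :
    ¬ InV Q sg L x y := by
  unfold InV
  have hx := div_col hL h1 h2
  rw [row_n hL h3 h4]
  exact C.c3 _ hx.1 hx.2

lemma f4 (hP : P = true) (h1 : L * bt ≤ x) (h2 : x < L * bw) (h3 : yc sg L Y0 ≤ y)
    (h4 : y < yc sg L Y0 + L) : InV Q sg L x y := by
  unfold InV
  have hx := div_col hL h1 h2
  rw [row_n hL h3 h4]
  exact C.c4 hP _ hx.1 hx.2

lemma f5 (h1 : L * bw ≤ x) (h2 : x < L * bw + L) (h3 : yc sg L Y0 - L ≤ y)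
    (h4 : y < yc sg L Y0 + L) : ¬ InV Q sg L x y := by
  unfold InV
  rw [div_in hL h1 h2]
  rcases lt_or_ge y (yc sg L Y0) with h5 | h5
  · rw [row_w hL h3 h5]
    exact C.c2'
  · rw [row_n hL h5 h4]
    exact C.c4'

end Cc

/-- the tile touches the polygon -/
def TcV (Q : Finset Cell) (sg : Bool) (L x y : ℤ) : Prop :=
  ∃ x' y', |x' - x| ≤ 1 ∧ |y' - y| ≤ 1 ∧ InV Q sg L x' y'

lemma Tq_iff {Q : Finset Cell} {sg : Bool} {L x y : ℤ} :
    Tq Q L (x, ry sg y) ↔ TcV Q sg L x y := by
  unfold Tq TcV InV ct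
  constructor
  · rintro ⟨q, h1, h2, h3⟩
    refine ⟨q.1, ry sg q.2, h1, ?_, by rw [ry_ry]; exact h3⟩
    cases sg
    · simp only [ry_false] at h2 ⊢
      rw [abs_le] at h2 ⊢
      constructor <;> linarith [h2.1, h2.2]
    · simpa using h2
  · rintro ⟨x', y', h1, h2, h3⟩
    refine ⟨(x', ry sg y'), h1, ?_, h3⟩
    cases sg
    · simp only [ry_false] at h2 ⊢
      rw [abs_le] at h2 ⊢
      constructor <;> linarith [h2.1, h2.2]
    · simpa using h2

lemma mem_nbQ {Q : Finset Cell} {c : Cell} : c ∈ nbQ Q ↔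
    ∃ d ∈ Q, |c.1 - d.1| ≤ 1 ∧ |c.2 - d.2| ≤ 1 := by
  unfold nbQ
  simp only [mem_biUnion, mem_product, mem_Icc, abs_le]
  refine exists_congr fun d => and_congr Iff.rfl ?_
  constructor
  · rintro ⟨⟨h1, h2⟩, h3, h4⟩
    refine ⟨⟨by linarith, by linarith⟩, by linarith, by linarith⟩
  · rintro ⟨⟨h1, h2⟩, h3, h4⟩
    refine ⟨⟨by linarith, by linarith⟩, by linarith, by linarith⟩

/-- labels of the tiles which touch the polygon -/
lemma lt_mem_LamC {Q : Finset Cell} {n : ℤ} (hn : 0 < n) {p : ℤ × ℤ} :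
    lt p ∈ LamC Q n ↔ Tq Q n p := by
  classical
  unfold LamC
  rw [mem_filter, tt_lt, lt_mem_TL hn]
  constructor
  · exact fun h => h.2
  · intro h
    refine ⟨?_, h⟩
    obtain ⟨q, h1, h2, h3⟩ := h
    rw [mem_nbQ]
    refine ⟨_, h3, ?_, ?_⟩
    · unfold ct
      simp only
      have key : ∀ u v : ℤ, |u - v| ≤ 1 → |v / n - u / n| ≤ 1 := by
        intro u v huv
        rw [abs_le] at huv ⊢
        have a1 := Int.ediv_mul_le u hn.ne'
        have a2 := Int.lt_ediv_add_one_mul_self u hn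
        have a3 := Int.ediv_mul_le v hn.ne'
        have a4 := Int.lt_ediv_add_one_mul_self v hn
        constructor
        · by_contra hc
          have : v / n + 2 ≤ u / n := by omega
          nlinarith
        · by_contra hc
          have : u / n + 2 ≤ v / n := by omega
          nlinarith
      exact key _ _ h1
    · unfold ct
      simp only
      have key : ∀ u v : ℤ, |u - v| ≤ 1 → |v / n - u / n| ≤ 1 := by
        intro u v huv
        rw [abs_le] at huv ⊢
        have a1 := Int.ediv_mul_le u hn.ne'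
        have a2 := Int.lt_ediv_add_one_mul_self u hn
        have a3 := Int.ediv_mul_le v hn.ne'
        have a4 := Int.lt_ediv_add_one_mul_self v hn
        constructor
        · by_contra hc
          have : v / n + 2 ≤ u / n := by omega
          nlinarith
        · by_contra hc
          have : u / n + 2 ≤ v / n := by omega
          nlinarith
      exact key _ _ h2

section band

variable {Q : Finset Cell} {sg P : Bool} {a0 be bt bw Y0 L x y : ℤ} (C : Cc Q sg a0 be bt bw Y0 P)
  (hL : 4 ≤ L)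
include C hL

/-- the tooth -/
lemma Cc.tooth (h1 : L * be ≤ x) (h2 : x < L * bt) (h3 : yc sg L Y0 ≤ y) (h4 : y < yc sg L Y0 + L - 1) :
    TcV Q sg L x y ↔ x = L * be ∨ y = yc sg L Y0 ∨ (P = true ∧ x = L * bt - 1) := by
  have hL0 : 0 < L := by omega
  have hb : L * bt ≤ L * bw := by have := C.l3; nlinarith
  have hb0 : L * a0 + L ≤ L * be := by have := C.l1; nlinarith
  constructor
  · rintro ⟨x', y', g1, g2, g3⟩
    rw [abs_le] at g1 g2
    by_contra hc
    push Not at hc
    obtain ⟨k1, k2, k3⟩ := hc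
    have hx : L * be ≤ x' := by omega
    have hy : yc sg L Y0 ≤ y' := by omega
    rcases lt_or_ge x' (L * bt) with h5 | h5
    · exact C.f3 hL0 hx h5 hy (by omega) g3
    · have hx1 : x = L * bt - 1 := by omega
      have hP : P = false := by
        by_contra h
        exact k3 (by simpa using h) hx1
      have := C.l4 hP
      rw [this] at h5 h2
      exact C.f5 hL0 h5 (by omega) (by omega) (by omega) g3
  · rintro (h | h | ⟨hP, h⟩)
    · exact ⟨x - 1, y, by simp, by simp, C.f1 hL0 (by omega) (by omega) (by omega) (by omega)⟩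
    · exact ⟨x, y - 1, by simp, by simp, C.f2 hL0 h1 (by omega) (by omega) (by omega)⟩
    · refine ⟨x + 1, y, by simp, by simp, C.f4 hL0 hP (by omega) ?_ h3 (by omega)⟩
      have := C.l5 hP
      have : L * bt + L ≤ L * bw := by nlinarith
      omega

/-- the right wall -/
lemma Cc.wall (h3 : yc sg L Y0 - L < y) (h4 : y < yc sg L Y0 + L - 1) :
    TcV Q sg L (L * bw) y ↔ y ≤ yc sg L Y0 ∨ P = true := by
  have hL0 : 0 < L := by omega
  have hb : L * be + L ≤ L * bt := by have := C.l2; nlinarith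
  have hb2 : L * bt ≤ L * bw := by have := C.l3; nlinarith
  constructor
  · rintro ⟨x', y', g1, g2, g3⟩
    rw [abs_le] at g1 g2
    by_contra hc
    push Not at hc
    obtain ⟨k1, k2⟩ := hc
    have hP : P = false := by simpa using k2
    have hbt := C.l4 hP
    rcases lt_or_ge x' (L * bw) with h5 | h5
    · exact C.f3 hL0 (by omega) (by rw [hbt]; exact h5) (by omega) (by omega) g3
    · exact C.f5 hL0 h5 (by omega) (by omega) (by omega) g3
  · intro h
    rcases lt_trichotomy y (yc sg L Y0) with h5 | h5 | h5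
    · exact ⟨L * bw - 1, y, by simp, by simp, C.f2 hL0 (by omega) (by omega) (by omega) h5⟩
    · exact ⟨L * bw - 1, y - 1, by simp, by simp, C.f2 hL0 (by omega) (by omega) (by omega) (by omega)⟩
    · have hP : P = true := by
        rcases h with h | h
        · omega
        · exact h
      have := C.l5 hP
      have : L * bt + L ≤ L * bw := by nlinarith
      exact ⟨L * bw - 1, y, by simp, by simp, C.f4 hL0 hP (by omega) (by omega) h5.le (by omega)⟩

/-- nothing behind the right wall -/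
lemma Cc.behind (h3 : yc sg L Y0 - L < y) (h4 : y < yc sg L Y0 + L - 1) :
    ¬ TcV Q sg L (L * bw + 1) y := by
  rintro ⟨x', y', g1, g2, g3⟩
  rw [abs_le] at g1 g2
  exact C.f5 (by omega) (by omega) (by omega) (by omega) (by omega) g3

end band

end Pool.Agent.H78.W
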