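import Mathlib
import Pool.Agent.H78.W.VGc
import Pool.Agent.H68.W.RoomT

set_option autoImplicit false
set_option linter.unusedVariables false
open Finset

/-! # StChd, V1: walk indices and colours on the tooth and on the right wall

`T` = refined shape, `(X, v) ∈ T.P.Q ↔ (X / M, v / M) ∈ Q`. `teC` = side of the right wall next to the chord in the
wide room. `Cc.wf_tooth` : the colour function `wf T teC` is constant on the tooth. `Cc.sx_wall` : indices on the
right wall. -/

namespace Pool.Agent.H78.W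

open Pool.Agent.H75.Perc (dir dir_cases)
open Pool.Agent.Q1.M4 (Cell PType IsSide nextSide)
open Pool.Agent.H21.FM (Shape)
open Pool.Agent.H68.W

/-- fine cells of a refined polygon -/
def Rfn (T : Shape) (Q : Finset Cell) (M : ℤ) : Prop := ∀ X v : ℤ, (X, v) ∈ T.P.Q ↔ (X / M, v / M) ∈ Q

/-- the side of the right wall next to the chord, in the wide room -/
noncomputable def teC (T : Shape) (sg : Bool) (M bw Y0 : ℤ) : ℕ :=
  sx T.P (M * bw - 1, if sg then M * Y0 - 1 else M * Y0) 1

/-- a right wall which does not contain the exit -/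
lemma f_rw {α : Type*} {T : Shape} {t0 : ℕ} {f : ℕ → α} (hf : Stp T t0 f) {X a b y y' : ℤ}
    (h : ∀ y, a ≤ y → y < b → (X, y) ∈ T.P.Q ∧ (X + 1, y) ∉ T.P.Q)
    (ht : ∀ y, a ≤ y → y < b → sx T.P (X, y) 1 ≠ t0) (h1 : a ≤ y)
    (h2 : y < b) (h3 : a ≤ y') (h4 : y' < b) : f (sx T.P (X, y) 1) = f (sx T.P (X, y') 1) :=
  const_of_succ' (g := fun y => f (sx T.P (X, y) 1)) (fun y a1 a2 =>
    f_next hf (isSide1.2 (h y a1 (by omega))) (nx_st1 (h (y + 1) (by omega) a2).1
      (h (y + 1) (by omega) a2).2) (by simp) (ht y a1 (by omega))) h1 h2 h3 h4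

/-- a left wall -/
lemma f_lw {α : Type*} {T : Shape} {t0 : ℕ} {f : ℕ → α} (hf : Stp T t0 f) (ht : T.k t0 % 4 = 1)
    {X a b y y' : ℤ}
    (h : ∀ y, a ≤ y → y < b → (X, y) ∈ T.P.Q ∧ (X - 1, y) ∉ T.P.Q) (h1 : a ≤ y)
    (h2 : y < b) (h3 : a ≤ y') (h4 : y' < b) : f (sx T.P (X, y) 3) = f (sx T.P (X, y') 3) :=
  const_of_succ' (g := fun y => f (sx T.P (X, y) 3)) (fun y a1 a2 => by
    have := f_st3 hf ht (x := X) (y := y + 1) (h (y + 1) (by omega) a2).1 (h (y + 1) (by omega) a2).2
      (by rw [add_sub_cancel_right]; exact (h y a1 (by omega)).1)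
      (by rw [add_sub_cancel_right]; exact (h y a1 (by omega)).2)
    rw [add_sub_cancel_right] at this
    exact this.symm) h1 h2 h3 h4

lemma sx_cell {T : Shape} {c c' : Cell} {k k' : ℤ} (h : IsSide T.P.Q (c, k)) (h' : IsSide T.P.Q (c', k'))
    (he : sx T.P c k = sx T.P c' k') : c = c' ∧ (k - k') % 4 = 0 := by
  obtain ⟨a1, a2, a3⟩ := sx_spec h
  obtain ⟨b1, b2, b3⟩ := sx_spec h'
  rw [he] at a2 a3
  exact ⟨a2.symm.trans b2, by omega⟩

namespace Cc

variable {Q : Finset Cell} {sg P : Bool} {a0 be bt bw Y0 M : ℤ} {T : Shape}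
  (C : Cc Q sg a0 be bt bw Y0 P) (hM : 1 < M) (hT : Rfn T Q M)
include C hM hT

/-- fine cells over the chord -/
lemma q1 {X v : ℤ} (h1 : M * a0 ≤ X) (h2 : X < M * be) (h3 : M * Y0 - M ≤ v) (h4 : v < M * Y0 + M) :
    (X, v) ∈ T.P.Q := by
  rw [hT]
  have hx := div_col (by omega) h1 h2
  rcases lt_or_ge v (M * Y0) with h5 | h5
  · rw [show v / M = Y0 - 1 from div_in (by omega) (by linarith) (by linarith)]
    exact (C.c1 _ hx.1 hx.2).2
  · rw [show v / M = Y0 from div_in (by omega) h5 h4]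
    exact (C.c1 _ hx.1 hx.2).1

/-- rows of the wide room -/
lemma q2 {X v : ℤ} (h1 : M * be ≤ X) (h2 : X < M * bw)
    (h3 : if sg then M * Y0 - M ≤ v ∧ v < M * Y0 else M * Y0 ≤ v ∧ v < M * Y0 + M) :
    (X, v) ∈ T.P.Q := by
  rw [hT]
  have hx := div_col (by omega) h1 h2
  have := C.c2 _ hx.1 hx.2
  cases sg
  · simp only [Bool.false_eq_true, if_false] at h3 this
    rw [show v / M = Y0 from div_in (by omega) h3.1 h3.2]
    exact this
  · simp only [if_true] at h3 this
    rw [show v / M = Y0 - 1 from div_in (by omega) (by linarith) (by linarith)]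
    exact this

/-- rows of the narrow room -/
lemma q3 {X v : ℤ} (h1 : M * be ≤ X) (h2 : X < M * bt)
    (h3 : if sg then M * Y0 ≤ v ∧ v < M * Y0 + M else M * Y0 - M ≤ v ∧ v < M * Y0) :
    (X, v) ∉ T.P.Q := by
  rw [hT]
  have hx := div_col (by omega) h1 h2
  have := C.c3 _ hx.1 hx.2
  cases sg
  · simp only [Bool.false_eq_true, if_false] at h3 this
    rw [show v / M = Y0 - 1 from div_in (by omega) (by linarith) (by linarith)]
    exact this
  · simp only [if_true] at h3 this
    rw [show v / M = Y0 from div_in (by omega) h3.1 h3.2]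
    exact this

/-- behind the tooth -/
lemma q4 (hP : P = true) {X v : ℤ} (h1 : M * bt ≤ X) (h2 : X < M * bw)
    (h3 : if sg then M * Y0 ≤ v ∧ v < M * Y0 + M else M * Y0 - M ≤ v ∧ v < M * Y0) :
    (X, v) ∈ T.P.Q := by
  rw [hT]
  have hx := div_col (by omega) h1 h2
  have := C.c4 hP _ hx.1 hx.2
  cases sg
  · simp only [Bool.false_eq_true, if_false] at h3 this
    rw [show v / M = Y0 - 1 from div_in (by omega) (by linarith) (by linarith)]
    exact this
  · simp only [if_true] at h3 this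
    rw [show v / M = Y0 from div_in (by omega) h3.1 h3.2]
    exact this

/-- the right wall -/
lemma q5 {X v : ℤ} (h1 : M * bw ≤ X) (h2 : X < M * bw + M) (h3 : M * Y0 - M ≤ v) (h4 : v < M * Y0 + M) :
    (X, v) ∉ T.P.Q := by
  rw [hT, div_in (by omega) h1 h2]
  have k1 := C.c2'
  have k2 := C.c4'
  rcases lt_or_ge v (M * Y0) with h5 | h5
  · rw [show v / M = Y0 - 1 from div_in (by omega) (by linarith) (by linarith)]
    cases sg
    · exact k2
    · exact k1
  · rw [show v / M = Y0 from div_in (by omega) h5 h4]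
    cases sg
    · exact k1
    · exact k2

lemma nums : M * a0 + M ≤ M * be ∧ M * be + M ≤ M * bt ∧ M * bt ≤ M * bw ∧
    (P = true → M * bt + M ≤ M * bw) := by
  have h1 := C.l1
  have h2 := C.l2
  have h3 := C.l3
  refine ⟨by nlinarith, by nlinarith, by nlinarith, fun hP => ?_⟩
  have := C.l5 hP
  nlinarith

/-- the exit side is a right side -/
lemma te_side : IsSide T.P.Q ((M * bw - 1, if sg then M * Y0 - 1 else M * Y0), 1) := by
  obtain ⟨n1, n2, n3, -⟩ := C.nums hM hT
  refine isSide1.2 ⟨C.q2 hM hT (by omega) (by omega) ?_, ?_⟩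
  · cases sg
    · simp only [Bool.false_eq_true, if_false]; omega
    · simp only [if_true]; omega
  · rw [sub_add_cancel]
    refine C.q5 hM hT le_rfl (by omega) ?_ ?_
    · cases sg
      · simp only [Bool.false_eq_true, if_false]; omega
      · simp only [if_true]; omega
    · cases sg
      · simp only [Bool.false_eq_true, if_false]; omega
      · simp only [if_true]; omega

lemma te_k : T.k (teC T sg M bw Y0) % 4 = 1 := by
  have := (sx_spec (C.te_side hM hT)).2.2
  unfold teC Shape.k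
  omega

lemma te_lt : teC T sg M bw Y0 < T.N := (sx_spec (C.te_side hM hT)).1

/-- **The bottom of the tooth**: one value of `wf`. -/
lemma wf_bot {X X' : ℤ} (h1 : M * be ≤ X) (h2 : X < M * bt) (h3 : M * be ≤ X') (h4 : X' < M * bt) :
    wf T (teC T sg M bw Y0) (sx T.P (X, if sg then M * Y0 - 1 else M * Y0) (if sg then 2 else 0)) =
    wf T (teC T sg M bw Y0) (sx T.P (X', if sg then M * Y0 - 1 else M * Y0) (if sg then 2 else 0)) := by
  obtain ⟨n1, n2, n3, -⟩ := C.nums hM hT
  have hs := stp_wf T (teC T sg M bw Y0)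
  have hk := C.te_k hM hT
  cases sg
  · simp only [Bool.false_eq_true, if_false] at *
    refine f_floor hs hk (a := M * be) (b := M * bt) (fun x a1 a2 => ⟨?_, ?_⟩) h1 h2 h3 h4
    · exact C.q2 hM hT a1 (by omega) (by simp only [Bool.false_eq_true, if_false]; omega)
    · exact C.q3 hM hT a1 a2 (by simp only [Bool.false_eq_true, if_false]; omega)
  · simp only [if_true] at *
    refine f_ceil hs hk (a := M * be) (b := M * bt) (fun x a1 a2 => ⟨?_, ?_⟩) h1 h2 h3 h4
    · exact C.q2 hM hT a1 (by omega) (by simp only [if_true]; omega)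
    · exact C.q3 hM hT a1 a2 (by simp only [if_true]; omega)

/-- **The left side of the tooth.** -/
lemma wf_left {v : ℤ} (h3 : if sg then M * Y0 ≤ v ∧ v < M * Y0 + M else M * Y0 - M ≤ v ∧ v < M * Y0) :
    wf T (teC T sg M bw Y0) (sx T.P (M * be - 1, v) 1) = wf T (teC T sg M bw Y0)
      (sx T.P (M * be, if sg then M * Y0 - 1 else M * Y0) (if sg then 2 else 0)) := by
  obtain ⟨n1, n2, n3, -⟩ := C.nums hM hT
  have hs := stp_wf T (teC T sg M bw Y0)
  have hk := C.te_k hM hT
  have hte := C.te_side hM hT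
  have hw : ∀ y, (if sg then M * Y0 ≤ y ∧ y < M * Y0 + M else M * Y0 - M ≤ y ∧ y < M * Y0) →
      (M * be - 1, y) ∈ T.P.Q ∧ (M * be - 1 + 1, y) ∉ T.P.Q := by
    intro y hy
    refine ⟨C.q1 hM hT (by omega) (by omega) ?_ ?_, ?_⟩
    · cases sg
      · simp only [Bool.false_eq_true, if_false] at hy; omega
      · simp only [if_true] at hy; omega
    · cases sg
      · simp only [Bool.false_eq_true, if_false] at hy; omega
      · simp only [if_true] at hy; omega
    · rw [sub_add_cancel]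
      exact C.q3 hM hT le_rfl (by omega) hy
  have hne : ∀ y, (if sg then M * Y0 ≤ y ∧ y < M * Y0 + M else M * Y0 - M ≤ y ∧ y < M * Y0) →
      sx T.P (M * be - 1, y) 1 ≠ teC T sg M bw Y0 := by
    intro y hy he
    have := (sx_cell (isSide1.2 (hw y hy)) hte he).1
    rw [Prod.mk.injEq] at this
    omega
  cases sg
  · simp only [Bool.false_eq_true, if_false] at *
    rw [f_rw hs (X := M * be - 1) (a := M * Y0 - M) (b := M * Y0) (y' := M * Y0 - 1)
      (fun y a1 a2 => hw y ⟨a1, a2⟩) (fun y a1 a2 => hne y ⟨a1, a2⟩) h3.1 h3.2 (by omega) (by omega)]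
    have := f_rx1 hs (x := M * be - 1) (y := M * Y0 - 1) (hw _ ⟨by omega, by omega⟩).1
      (hw _ ⟨by omega, by omega⟩).2
      (by rw [sub_add_cancel, sub_add_cancel]
          exact C.q2 hM hT le_rfl (by omega) (by simp only [Bool.false_eq_true, if_false]; omega))
      (hne _ ⟨by omega, by omega⟩)
    rw [sub_add_cancel, sub_add_cancel] at this
    exact this.symm
  · simp only [if_true] at *
    rw [f_rw hs (X := M * be - 1) (a := M * Y0) (b := M * Y0 + M) (y' := M * Y0)
      (fun y a1 a2 => hw y ⟨a1, a2⟩) (fun y a1 a2 => hne y ⟨a1, a2⟩) h3.1 h3.2 le_rfl (by omega)]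
    have := f_rx2 hs hk (x := M * be) (y := M * Y0 - 1)
      (C.q2 hM hT le_rfl (by omega) (by simp only [if_true]; omega))
      (by rw [sub_add_cancel]; exact C.q3 hM hT le_rfl (by omega) (by simp only [if_true]; omega))
      (by rw [sub_add_cancel]; exact (hw _ ⟨le_rfl, by omega⟩).1)
    rw [sub_add_cancel] at this
    exact this

/-- **The right side of the tooth.** -/
lemma wf_rite (hP : P = true) {v : ℤ}
    (h3 : if sg then M * Y0 ≤ v ∧ v < M * Y0 + M else M * Y0 - M ≤ v ∧ v < M * Y0) :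
    wf T (teC T sg M bw Y0) (sx T.P (M * bt, v) 3) = wf T (teC T sg M bw Y0)
      (sx T.P (M * be, if sg then M * Y0 - 1 else M * Y0) (if sg then 2 else 0)) := by
  obtain ⟨n1, n2, n3, n4⟩ := C.nums hM hT
  have n5 := n4 hP
  have hs := stp_wf T (teC T sg M bw Y0)
  have hk := C.te_k hM hT
  have hw : ∀ y, (if sg then M * Y0 ≤ y ∧ y < M * Y0 + M else M * Y0 - M ≤ y ∧ y < M * Y0) →
      (M * bt, y) ∈ T.P.Q ∧ (M * bt - 1, y) ∉ T.P.Q := by
    intro y hy
    exact ⟨C.q4 hM hT hP le_rfl (by omega) hy, C.q3 hM hT (by omega) (by omega) hy⟩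
  rw [C.wf_bot hM hT (X := M * be) (X' := M * bt - 1) le_rfl (by omega) (by omega) (by omega)]
  cases sg
  · simp only [Bool.false_eq_true, if_false] at *
    rw [f_lw hs hk (X := M * bt) (a := M * Y0 - M) (b := M * Y0) (y' := M * Y0 - 1)
      (fun y a1 a2 => hw y ⟨a1, a2⟩) h3.1 h3.2 (by omega) (by omega)]
    have := f_rx0 hs hk (x := M * bt - 1) (y := M * Y0)
      (C.q2 hM hT (by omega) (by omega) (by simp only [Bool.false_eq_true, if_false]; omega))
      (C.q3 hM hT (by omega) (by omega) (by simp only [Bool.false_eq_true, if_false]; omega))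
      (by rw [sub_add_cancel]; exact (hw _ ⟨by omega, by omega⟩).1)
    rw [sub_add_cancel] at this
    exact this
  · simp only [if_true] at *
    rw [f_lw hs hk (X := M * bt) (a := M * Y0) (b := M * Y0 + M) (y' := M * Y0)
      (fun y a1 a2 => hw y ⟨a1, a2⟩) h3.1 h3.2 le_rfl (by omega)]
    exact (f_rx3 hs hk (x := M * bt) (y := M * Y0) (hw _ ⟨le_rfl, by omega⟩).1
      (hw _ ⟨le_rfl, by omega⟩).2
      (C.q2 hM hT (by omega) (by omega) (by simp only [if_true]; omega))).symm

/-- rows of the right wall -/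
def WR (sg P : Bool) (M Y0 v : ℤ) : Prop :=
  (if sg then M * Y0 - M ≤ v ∧ v < M * Y0 else M * Y0 ≤ v ∧ v < M * Y0 + M) ∨
    (P = true ∧ M * Y0 - M ≤ v ∧ v < M * Y0 + M)

omit C hM hT in
lemma WR_cvx {v1 v2 v : ℤ} (h1 : WR sg P M Y0 v1) (h2 : WR sg P M Y0 v2) (h3 : v1 ≤ v)
    (h4 : v ≤ v2) : WR sg P M Y0 v := by
  unfold WR at *
  cases sg <;> cases P <;>
    simp only [Bool.false_eq_true, if_false, if_true, false_and, or_false, true_and] at * <;> omega

omit C hM hT in
lemma WR_band (hM : 0 < M) {v : ℤ} (h1 : WR sg P M Y0 v) : M * Y0 - M ≤ v ∧ v < M * Y0 + M := by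
  unfold WR at *
  cases sg <;> cases P <;>
    simp only [Bool.false_eq_true, if_false, if_true, false_and, or_false, true_and] at * <;> omega

/-- cells next to the right wall -/
lemma qW {v : ℤ} (h : WR sg P M Y0 v) : (M * bw - 1, v) ∈ T.P.Q ∧ (M * bw - 1 + 1, v) ∉ T.P.Q := by
  obtain ⟨n1, n2, n3, n4⟩ := C.nums hM hT
  have hb := WR_band (by omega) h
  refine ⟨?_, ?_⟩
  · rcases h with h | ⟨hP, h⟩
    · exact C.q2 hM hT (by omega) (by omega) h
    · have n5 := n4 hP
      by_cases h2 : (if sg then M * Y0 - M ≤ v ∧ v < M * Y0 else M * Y0 ≤ v ∧ v < M * Y0 + M)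
      · exact C.q2 hM hT (by omega) (by omega) h2
      · refine C.q4 hM hT hP (by omega) (by omega) ?_
        cases sg
        · simp only [Bool.false_eq_true, if_false] at h2 ⊢; omega
        · simp only [if_true] at h2 ⊢; omega
  · rw [sub_add_cancel]
    exact C.q5 hM hT le_rfl (by omega) hb.1 hb.2

/-- **The indices on the right wall.** -/
lemma sx_wall {v1 v2 : ℤ} (h1 : WR sg P M Y0 v1) (h2 : WR sg P M Y0 v2) (h : v1 ≤ v2) :
    (sx T.P (M * bw - 1, v2) 1 : ℤ) = sx T.P (M * bw - 1, v1) 1 + (v2 - v1) ∧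
    ((T.m2 ≤ sx T.P (M * bw - 1, v1) 1 ∧ sx T.P (M * bw - 1, v1) 1 < T.m3) ↔
      (T.m2 ≤ sx T.P (M * bw - 1, v2) 1 ∧ sx T.P (M * bw - 1, v2) 1 < T.m3)) := by
  have key := sx_right (S := T) (X := M * bw - 1) (y0 := v1) (v2 - v1).toNat (fun y a1 a2 =>
    C.qW hM hT (WR_cvx h1 h2 a1 (by omega)))
  rw [show v1 + ((v2 - v1).toNat : ℤ) = v2 by omega] at key
  obtain ⟨k1, k2⟩ := key
  refine ⟨by rw [k1]; push_cast; omega, ?_⟩
  have h3 := T.h23
  have m2 : T.m2 ≤ sx T.P (M * bw - 1, v1) 1 ↔ T.m2 ≤ sx T.P (M * bw - 1, v2) 1 := by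
    constructor
    · intro h; omega
    · intro h
      by_contra hc
      have := (k2 (T.m2 - 1) (by omega) (by omega)).2.1
      omega
  have m3 : sx T.P (M * bw - 1, v1) 1 < T.m3 ↔ sx T.P (M * bw - 1, v2) 1 < T.m3 := by
    constructor
    · intro h
      by_contra hc
      have := (k2 (T.m3 - 1) (by omega) (by omega)).2.2.1
      omega
    · intro h; omega
  rw [m2, m3]

end Cc

end Pool.Agent.H78.W
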