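import Mathlib
import Pool.Agent.H78.W.VGk
import Pool.Agent.H78.W.FCtx

set_option autoImplicit false
set_option linter.unusedVariables false
open Finset

/-! # StChd, V1: the plates in the band of a chord -/

namespace Pool.Agent.H78.W

open Pool.Agent.Q1.M4 (Cell)
open Pool.Agent.H13.W (chG)
open Pool.Agent.H58.W (plV)

/-- **The fine plates near the line `Y0`.** -/
theorem Thin.plV_band {G : Finset Cell} {aL b : ℤ} {N M' : ℕ} (T : Thin G aL b N M') {X v Y0 : ℤ}
    (h1 : N * M' * Y0 - 3 * (N * M') / 4 ≤ v) (h2 : v < N * M' * Y0 + 3 * (N * M') / 4) :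
    plV G b N M' (X, v) = if ((X / (N * M' : ℤ), Y0) : Cell) ∈ G ∧ -(N * b - X / (M' : ℤ)) ≤ v - N * M' * Y0 ∧
      v - N * M' * Y0 < N * b - X / (M' : ℤ) then some (X / (M' : ℤ), Y0) else none := by
  have hM := T.M0
  have hM'M := T.M'_le
  have hw := fun Y h => T.w_bd (x := X) (Y := Y) h
  unfold plV
  simp only [Nat.cast_mul]
  generalize hK : X / (M' : ℤ) = K at *
  generalize hMM : (N * M' : ℤ) = M at *
  generalize hXM : X / M = X' at *
  generalize hww : N * b - K = w at *
  rcases lt_trichotomy ((v + M / 2) / M) Y0 with h | h | h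
  · have h3 : v + M / 2 < M * Y0 := by
      have := (Int.ediv_lt_iff_lt_mul hM).1 h
      linarith
    have h4 : M * (Y0 - 1) ≤ v + M / 2 := by
      have e : M * (Y0 - 1) = M * Y0 - M := by ring
      rw [e]; omega
    have h5 : (v + M / 2) / M = Y0 - 1 := by
      have := (Int.le_ediv_iff_mul_le hM).2 (show (Y0 - 1) * M ≤ v + M / 2 by linarith)
      omega
    rw [h5]
    have e : M * (Y0 - 1) = M * Y0 - M := by ring
    rw [e, if_neg, if_neg]
    · rintro ⟨k1, k2, k3⟩
      have := hw _ k1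
      omega
    · rintro ⟨k1, k2, k3⟩
      have := hw _ k1
      omega
  · rw [h]
  · have h3 : M * (Y0 + 1) ≤ v + M / 2 := by
      have := (Int.le_ediv_iff_mul_le hM).1 (show Y0 + 1 ≤ (v + M / 2) / M by omega)
      linarith
    have e : M * (Y0 + 1) = M * Y0 + M := by ring
    rw [e] at h3
    have h4 : v + M / 2 < M * Y0 + 2 * M := by omega
    have h5 : (v + M / 2) / M = Y0 + 1 := by
      have := (Int.ediv_lt_iff_lt_mul hM).2 (show v + M / 2 < (Y0 + 2) * M by linarith)
      omega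
    rw [h5, e, if_neg, if_neg]
    · rintro ⟨k1, k2, k3⟩
      have := hw _ k1
      omega
    · rintro ⟨k1, k2, k3⟩
      have := hw _ k1
      omega

/-- a plate with a name on the line `Y0` is at this line -/
theorem Thin.plV_name {G : Finset Cell} {aL b : ℤ} {N M' : ℕ} (T : Thin G aL b N M') {X v Y0 K : ℤ}
    (h : plV G b N M' (X, v) = some (K, Y0)) : X / (M' : ℤ) = K ∧ ((X / (N * M' : ℤ), Y0) : Cell) ∈ G ∧
      -(N * b - K) ≤ v - N * M' * Y0 ∧ v - N * M' * Y0 < N * b - K := by
  unfold plV at h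
  simp only [Nat.cast_mul] at h
  split_ifs at h with h1
  simp only [Option.some.injEq, Prod.mk.injEq] at h
  obtain ⟨h2, h3⟩ := h
  rw [h2, h3] at h1
  exact ⟨h2, h1.1, h1.2.1, h1.2.2⟩

lemma ry_div {n : ℤ} (hn : 0 < n) (sg : Bool) (y : ℤ) : ry sg y / n = ry sg (y / n) := by
  cases sg
  · simp only [ry_false]
    have h1 := Int.ediv_mul_le y hn.ne'
    have h2 := Int.lt_ediv_add_one_mul_self y hn
    have e : -1 - y = n * (-1 - y / n) + (n - 1 - (y - n * (y / n))) := by ring
    apply div_in hn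
    · nlinarith
    · nlinarith
  · rfl

/-- offset of the fine row of the tile row `y` -/
lemma off_row {sg : Bool} {n M Y0 y : ℤ} (hn : 0 < n) :
    ry sg (y / n) - M * Y0 = ry sg ((y - yc sg (n * M) Y0) / n) := by
  unfold yc
  cases sg
  · simp only [Bool.false_eq_true, if_false, ry_false]
    have e : y - -(n * M * Y0) = y + n * (M * Y0) := by ring
    rw [e, Int.add_mul_ediv_left _ _ hn.ne']
    ring
  · simp only [if_true, ry_true]
    have e : y - n * M * Y0 = y + n * (-(M * Y0)) := by ring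
    rw [e, Int.add_mul_ediv_left _ _ hn.ne']
    ring

lemma ry_sym {sg : Bool} {u w : ℤ} : (-w ≤ ry sg u ∧ ry sg u < w) ↔ (-w ≤ u ∧ u < w) := by
  cases sg
  · simp only [ry_false]; omega
  · simp

lemma div_sym {n d w : ℤ} (hn : 0 < n) : (-w ≤ d / n ∧ d / n < w) ↔ (-(n * w) ≤ d ∧ d < n * w) := by
  rw [Int.le_ediv_iff_mul_le hn, Int.ediv_lt_iff_lt_mul hn]
  constructor <;> rintro ⟨h1, h2⟩ <;> constructor <;> linarith

/-- **The plates in the band, in tile coordinates.** -/
theorem Thin.pl_tile {G : Finset Cell} {aL b : ℤ} {N M' : ℕ} (T : Thin G aL b N M') {sg : Bool}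
    {n x y Y0 : ℤ} (hn : 0 < n)
    (h1 : yc sg (n * (N * M')) Y0 - n * (3 * (N * M') / 4) ≤ y)
    (h2 : y < yc sg (n * (N * M')) Y0 + n * (3 * (N * M') / 4)) :
    plV G b N M' (x / n, ry sg y / n) = if ((x / (n * (N * M')) : ℤ), Y0) ∈ G ∧
      yc sg (n * (N * M')) Y0 - n * (N * b - x / (n * M')) ≤ y ∧
      y < yc sg (n * (N * M')) Y0 + n * (N * b - x / (n * M')) then some (x / (n * M'), Y0) else none := by
  have e1 : x / n / (N * M' : ℤ) = x / (n * (N * M')) := by
    rw [Int.ediv_ediv_of_nonneg hn.le]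
  have e2 : x / n / (M' : ℤ) = x / (n * M') := by rw [Int.ediv_ediv_of_nonneg hn.le]
  have e3 := off_row (sg := sg) (M := N * M') (Y0 := Y0) (y := y) hn
  have hb := (div_sym (n := n) (d := y - yc sg (n * (N * M')) Y0) (w := 3 * (N * M') / 4) hn).2
    ⟨by linarith, by linarith⟩
  rw [← ry_sym (sg := sg), ← e3] at hb
  rw [ry_div hn, T.plV_band (Y0 := Y0) (by linarith [hb.1]) (by linarith [hb.2]), e1, e2, e3]
  have key : (-(N * b - x / (n * M')) ≤ ry sg ((y - yc sg (n * (N * M')) Y0) / n) ∧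
      ry sg ((y - yc sg (n * (N * M')) Y0) / n) < N * b - x / (n * M')) ↔
      (yc sg (n * (N * M')) Y0 - n * (N * b - x / (n * M')) ≤ y ∧
        y < yc sg (n * (N * M')) Y0 + n * (N * b - x / (n * M'))) := by
    rw [ry_sym, div_sym hn]
    constructor <;> rintro ⟨h1, h2⟩ <;> constructor <;> linarith
  simp only [key]

end Pool.Agent.H78.W
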