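import Mathlib
import Pool.Agent.H78.W.VGp
import Pool.Agent.H78.W.VGm

set_option autoImplicit false
set_option linter.unusedVariables false
open Finset

/-! # StChd, V1: the picture of a chord of a plated shape

`pic S b N M' h hM sg P be bt bw Y0 k0` : the picture, for the coherent worlds (19's `VC`) of the refined shape
`rf S (N * M') hM` with the plates `plV (chG S.P.Q) b N M'`; `xs = 2 h M' k0`. `pic_ok` : `Ok` in the band
`xl = L a0`, `H = 2 h (3 N M' / 4)`, `L = 2 h N M'`. -/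

namespace Pool.Agent.H78.W

open Pool.Agent.Q1.M4 (Cell PType IsSide)
open Pool.Agent.H21.FM (Shape)
open Pool.Agent.H33.Q1 (lt tt ct TL lt_odd tt_lt lt_tt lt_inj mem_TL lt_mem_TL)
open Pool.Agent.H13.W (chG)
open Pool.Agent.H58.W (plV)
open Pool.Agent.H50.W (rf)
open Pool.Agent.H19.W (cx cy cx_lt cy_lt lt_cc Tq LamC WC sd si)
open Pool.Agent.H45.W (sw swF mem_swF sw_sw)
open Pool.Agent.H68.W (sx wf Cf sx_ne sx_spec isSide0 isSide1 isSide2 isSide3)

/-- label of the polygon -/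
def rl (sg : Bool) (e : ℤ × ℤ) : ℤ × ℤ := if sg then e else sw e

/-- sets of labels in the picture -/
def rlF (sg : Bool) (A : Finset (ℤ × ℤ)) : Finset (ℤ × ℤ) := if sg then A else swF A

lemma mem_rlF {sg : Bool} {A : Finset (ℤ × ℤ)} {e : ℤ × ℤ} : e ∈ rlF sg A ↔ rl sg e ∈ A := by
  unfold rlF rl
  cases sg <;> simp

lemma rl_lt (sg : Bool) (x y : ℤ) : rl sg (lt (x, y)) = lt (x, ry sg y) := by
  unfold rl
  cases sg
  · simp only [Bool.false_eq_true, if_false, ry_false]
    unfold sw lt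
    simp only [Prod.mk.injEq]
    constructor <;> ring
  · simp

lemma lt_mem_rlF {sg : Bool} {A : Finset (ℤ × ℤ)} {x y : ℤ} : lt (x, y) ∈ rlF sg A ↔ lt (x, ry sg y) ∈ A := by
  rw [mem_rlF, rl_lt]

lemma rl_odd {sg : Bool} {e : ℤ × ℤ} : ((rl sg e).1 + (rl sg e).2) % 2 = 1 ↔ (e.1 + e.2) % 2 = 1 := by
  unfold rl
  cases sg
  · simp only [Bool.false_eq_true, if_false]
    unfold sw
    simp only
    rw [add_comm]
  · simp

/-- first tile row of the polygon above the line `Y0`, minus one -/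
def v0C (L Y0 : ℤ) : ℤ := L * Y0 - 1

/-- **The picture of a chord.** -/
noncomputable def pic (S : Shape) (b : ℤ) (N M' h : ℕ) (hM : 0 < N * M') (sg P : Bool)
    (be bt bw Y0 k0 : ℤ) : Pic (ℤ × ℤ) where
  h := h
  m := 2 * h * M'
  B := N * b
  Yc := yc sg (2 * h * (N * M')) Y0
  xs := 2 * h * M' * k0
  xe := 2 * h * (N * M') * be
  xt := 2 * h * (N * M') * bt
  xw := 2 * h * (N * M') * bw
  YF := yc sg (2 * h * (N * M')) Y0 + 2 * h * ((N * M') / 2) + h - (if sg then 0 else 1)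
  P := P
  Λ := rlF sg (LamC (rf S (N * M') hM).P.Q (2 * h))
  E := rlF sg (TL (rf S (N * M') hM).P.Q (2 * h))
  pl x y := plV (chG S.P.Q) b N M' (x / (2 * h), ry sg y / (2 * h))
  kn K := (K, Y0)
  W0 := rlF sg (WC (rf S (N * M') hM).P (2 * h) (fun i v =>
    Cf (rf S (N * M') hM) (teC (rf S (N * M') hM) sg (N * M') bw Y0) (v0C (2 * h * (N * M')) Y0) i v))
  kT := wf (rf S (N * M') hM) (teC (rf S (N * M') hM) sg (N * M') bw Y0)
    (sx (rf S (N * M') hM).P ((N * M') * be, if sg then (N * M') * Y0 - 1 else (N * M') * Y0)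
      (if sg then 2 else 0))
  kW := xor (!sg) (decide ((rf S (N * M') hM).m2 ≤ teC (rf S (N * M') hM) sg (N * M') bw Y0 ∧
    teC (rf S (N * M') hM) sg (N * M') bw Y0 < (rf S (N * M') hM).m3))

section tiles

variable {S : Shape} {N M' h : ℕ} {hM : 0 < N * M'} {sg : Bool}

lemma rfn (S : Shape) (hM : 0 < N * M') : Rfn (rf S (N * M') hM) S.P.Q (N * M') := by
  intro X v
  rw [mem_rf S hM]
  push_cast
  rfl

/-- cell of a tile of the picture -/
lemma ct_InV (hh : 0 < h) {x y : ℤ} : ct (2 * (h : ℤ)) (x, ry sg y) ∈ (rf S (N * M') hM).P.Q ↔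
    InV S.P.Q sg (2 * h * (N * M')) x y := by
  unfold ct InV
  simp only
  rw [rfn S hM, Int.ediv_ediv_of_nonneg (by positivity), Int.ediv_ediv_of_nonneg (by positivity)]

lemma lt_mem_E (hh : 0 < h) {x y : ℤ} : lt (x, y) ∈ rlF sg (TL (rf S (N * M') hM).P.Q (2 * h)) ↔
    InV S.P.Q sg (2 * h * (N * M')) x y := by
  rw [lt_mem_rlF, lt_mem_TL (by positivity), ct_InV hh]

lemma lt_mem_Lam (hh : 0 < h) {x y : ℤ} : lt (x, y) ∈ rlF sg (LamC (rf S (N * M') hM).P.Q (2 * h)) ↔
    TcV S.P.Q sg (2 * h * (N * M')) x y := by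
  rw [lt_mem_rlF, lt_mem_LamC (by positivity), ← Tq_iff]
  unfold Tq
  refine exists_congr fun q => and_congr Iff.rfl (and_congr Iff.rfl ?_)
  have := ct_InV (S := S) (hM := hM) (sg := true) hh (x := q.1) (y := q.2)
  exact this

end tiles

/-! ### The side of an outer tile -/

section side

variable {S : Shape} {N M' h : ℕ} {hM : 0 < N * M'} {sg : Bool} {x y : ℤ}

lemma sd_A (hh : 0 < h) (h1 : InV S.P.Q sg (2 * h * (N * M')) (x - 1) y) :
    sd (rf S (N * M') hM).P.Q (2 * h) (x, ry sg y) = (ct (2 * h) (x - 1, ry sg y), 1) := by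
  unfold sd
  rw [if_pos ((ct_InV hh).2 h1)]

lemma sd_C (hh : 0 < h) (h1 : ¬ InV S.P.Q sg (2 * h * (N * M')) (x - 1) y)
    (h2 : InV S.P.Q sg (2 * h * (N * M')) (x + 1) y) :
    sd (rf S (N * M') hM).P.Q (2 * h) (x, ry sg y) = (ct (2 * h) (x + 1, ry sg y), 3) := by
  unfold sd
  rw [if_neg (fun h => h1 ((ct_InV hh).1 h)), if_pos ((ct_InV hh).2 h2)]

lemma sd_B (hh : 0 < h) (h1 : ¬ InV S.P.Q sg (2 * h * (N * M')) (x - 1) y)
    (h2 : ¬ InV S.P.Q sg (2 * h * (N * M')) (x + 1) y) (h3 : InV S.P.Q sg (2 * h * (N * M')) x (y - 1))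
    (h4 : ¬ InV S.P.Q sg (2 * h * (N * M')) x (y + 1)) :
    sd (rf S (N * M') hM).P.Q (2 * h) (x, ry sg y) =
      (ct (2 * h) (x, ry sg (y - 1)), if sg then 2 else 0) := by
  unfold sd
  rw [if_neg (fun h => h1 ((ct_InV hh).1 h)), if_neg (fun h => h2 ((ct_InV hh).1 h))]
  have k3 := (ct_InV (S := S) (hM := hM) hh).2 h3
  have k4 := fun h => h4 ((ct_InV (S := S) (hM := hM) hh).1 h)
  cases sg
  · simp only [ry_false, Bool.false_eq_true, if_false] at k3 k4 ⊢
    rw [show -1 - (y + 1) = -1 - y - 1 by ring] at k4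
    rw [show -1 - (y - 1) = -1 - y + 1 by ring] at k3 ⊢
    rw [if_neg k4, if_pos k3]
  · simp only [ry_true, if_true] at k3 k4 ⊢
    rw [if_pos k3]

lemma sd_E (hh : 0 < h) (h1 : ¬ InV S.P.Q sg (2 * h * (N * M')) (x - 1) y)
    (h2 : ¬ InV S.P.Q sg (2 * h * (N * M')) (x + 1) y) (h3 : ¬ InV S.P.Q sg (2 * h * (N * M')) x (y - 1))
    (h4 : ¬ InV S.P.Q sg (2 * h * (N * M')) x (y + 1))
    (h5 : InV S.P.Q sg (2 * h * (N * M')) (x - 1) (y - 1))
    (h6 : ¬ InV S.P.Q sg (2 * h * (N * M')) (x - 1) (y + 1)) :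
    sd (rf S (N * M') hM).P.Q (2 * h) (x, ry sg y) = (ct (2 * h) (x - 1, ry sg (y - 1)), 1) := by
  unfold sd
  rw [if_neg (fun h => h1 ((ct_InV hh).1 h)), if_neg (fun h => h2 ((ct_InV hh).1 h))]
  have k3 := fun h => h3 ((ct_InV (S := S) (hM := hM) hh).1 h)
  have k4 := fun h => h4 ((ct_InV (S := S) (hM := hM) hh).1 h)
  have k5 := (ct_InV (S := S) (hM := hM) hh).2 h5
  have k6 := fun h => h6 ((ct_InV (S := S) (hM := hM) hh).1 h)
  cases sg
  · simp only [ry_false] at k3 k4 k5 k6 ⊢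
    rw [show -1 - (y + 1) = -1 - y - 1 by ring] at k4 k6
    rw [show -1 - (y - 1) = -1 - y + 1 by ring] at k3 k5 ⊢
    rw [if_neg k4, if_neg k3, if_neg k6, if_pos k5]
  · simp only [ry_true] at k3 k4 k5 k6 ⊢
    rw [if_neg k3, if_neg k4, if_pos k5]

end side

/-- no chord sides behind the tooth -/
lemma Cc.no_ch {Q : Finset Cell} {sg P : Bool} {a0 be bt bw Y0 : ℤ} (C : Cc Q sg a0 be bt bw Y0 P) {a : ℤ}
    (h1 : be ≤ a) (h2 : a ≤ bw) : (a, Y0) ∉ chG Q := by
  intro hc
  have hs := chG_sub hc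
  simp only at hs
  rcases lt_or_ge a bt with h3 | h3
  · have := C.c3 a h1 h3
    cases sg
    · exact this hs.2
    · exact this hs.1
  rcases eq_or_lt_of_le h2 with h4 | h4
  · rw [h4] at hs
    have := C.c2'
    cases sg
    · exact this hs.1
    · exact this hs.2
  · have hP : P = true := by
      by_contra h
      have := C.l4 (by simpa using h)
      omega
    have both : ∀ x, bt ≤ x → x < bw → (x, Y0) ∈ Q ∧ (x, Y0 - 1) ∈ Q := by
      intro x g1 g2
      have k1 := C.c2 x (by have := C.l2; omega) g2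
      have k2 := C.c4 hP x g1 g2
      cases sg
      · exact ⟨k1, k2⟩
      · exact ⟨k2, k1⟩
    have none : (bw, Y0) ∉ Q ∧ (bw, Y0 - 1) ∉ Q := by
      have k1 := C.c2'
      have k2 := C.c4'
      cases sg
      · exact ⟨k1, k2⟩
      · exact ⟨k2, k1⟩
    classical
    unfold chG at hc
    rw [mem_filter] at hc
    obtain ⟨-, -, b', g1, g2, g3⟩ := hc
    simp only at g1 g2
    rcases lt_trichotomy b' bw with g4 | g4 | g4
    · exact g3 ⟨fun _ => (both b' (by omega) g4).2, fun _ => (both b' (by omega) g4).1⟩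
    · subst g4
      exact g3 ⟨fun h => absurd h none.1, fun h => absurd h none.2⟩
    · exact none.1 (g2 bw h2 g4).1

/-- left side of the tooth -/
lemma Cc.left_side {Q : Finset Cell} {sg P : Bool} {a0 be bt bw Y0 M v : ℤ} {T : Shape}
    (C : Cc Q sg a0 be bt bw Y0 P) (hM : 1 < M) (hT : Rfn T Q M)
    (h3 : if sg then M * Y0 ≤ v ∧ v < M * Y0 + M else M * Y0 - M ≤ v ∧ v < M * Y0) :
    IsSide T.P.Q ((M * be - 1, v), 1) := by
  obtain ⟨n1, n2, n3, -⟩ := C.nums hM hT
  refine isSide1.2 ⟨C.q1 hM hT (by omega) (by omega) ?_ ?_, ?_⟩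
  · cases sg
    · simp only [Bool.false_eq_true, if_false] at h3; omega
    · simp only [if_true] at h3; omega
  · cases sg
    · simp only [Bool.false_eq_true, if_false] at h3; omega
    · simp only [if_true] at h3; omega
  · rw [sub_add_cancel]
    exact C.q3 hM hT le_rfl (by omega) h3

/-- **Data of a picture.** -/
structure PicD (S : Shape) (aL b : ℤ) (N M' h : ℕ) (hM : 0 < N * M') (sg P : Bool)
    (a0 be bt bw Y0 k0 : ℤ) : Prop where
  C : Cc S.P.Q sg a0 be bt bw Y0 P
  T : Thin (chG S.P.Q) aL b N M'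
  hh : 2 ≤ h
  xls : (N : ℤ) * a0 ≤ k0
  xse : k0 < N * be

namespace PicD

variable {S : Shape} {aL b : ℤ} {N M' h : ℕ} {hM : 0 < N * M'} {sg P : Bool} {a0 be bt bw Y0 k0 : ℤ}
  (D : PicD S aL b N M' h hM sg P a0 be bt bw Y0 k0)
include D

lemma h0 : 0 < h := by have := D.hh; omega

lemma n4 : (4 : ℤ) ≤ 2 * h := by have := D.hh; omega

lemma mm : (64 : ℤ) ≤ N * M' := by
  have hT := D.T
  have hM0 := hT.M0
  have h1 := D.C.ch a0 le_rfl D.C.l1
  have h2 := hT.w_bd (x := N * M' * a0) (Y := Y0)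
    (by rw [Int.mul_ediv_cancel_left _ hM0.ne']; exact h1)
  have := hT.M'_le
  omega

lemma L4 : (4 : ℤ) ≤ 2 * h * (N * M') := by
  have := D.n4
  have := D.mm
  nlinarith

lemma Lbig : (2 * h : ℤ) * (3 * (N * M') / 4) + 2 * h ≤ 2 * h * (N * M') := by
  have := D.n4
  have h1 := D.mm
  have h2 : 3 * ((N : ℤ) * M') / 4 + 1 ≤ N * M' := by omega
  nlinarith

/-- columns of the band in coarse cells -/
lemma colL {x : ℤ} (h1 : 2 * h * (N * M') * a0 ≤ x) (h2 : x < 2 * h * (N * M') * be) :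
    ((x / (2 * h * (N * M')) : ℤ), Y0) ∈ chG S.P.Q := by
  have := div_col (by have := D.L4; omega) h1 h2
  exact D.C.ch _ this.1 this.2

lemma thick {x : ℤ} (h1 : 2 * h * (N * M') * a0 ≤ x) (h2 : x < 2 * h * (N * M') * be) :
    1 ≤ N * b - x / (2 * h * M') ∧ 64 * (N * b - x / (2 * h * M')) ≤ M' := by
  have h3 := D.colL h1 h2
  have hn : (0 : ℤ) ≤ 2 * h := by positivity
  have := D.T.w_bd (x := x / (2 * h)) (Y := Y0) (by rw [Int.ediv_ediv_of_nonneg hn]; exact h3)
  rwa [Int.ediv_ediv_of_nonneg hn] at this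

/-- fine row of a tile of the narrow side -/
lemma rowN {y : ℤ} (h1 : yc sg (2 * h * (N * M')) Y0 ≤ y)
    (h2 : y < yc sg (2 * h * (N * M')) Y0 + 2 * h * (N * M')) :
    if sg then N * M' * Y0 ≤ ry sg y / (2 * h) ∧ ry sg y / (2 * h) < N * M' * Y0 + N * M'
    else N * M' * Y0 - N * M' ≤ ry sg y / (2 * h) ∧ ry sg y / (2 * h) < N * M' * Y0 := by
  have hn : (0 : ℤ) < 2 * h := by have := D.n4; omega
  have h3 := off_row (sg := sg) (n := 2 * h) (M := N * M') (Y0 := Y0) (y := y) hn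
  rw [← ry_div hn] at h3
  have h4 : 0 ≤ (y - yc sg (2 * h * (N * M')) Y0) / (2 * h) := Int.ediv_nonneg (by omega) hn.le
  have h5 : (y - yc sg (2 * h * (N * M')) Y0) / (2 * h) < N * M' := by
    rw [Int.ediv_lt_iff_lt_mul hn]; linarith
  generalize (y - yc sg (2 * h * (N * M')) Y0) / (2 * (h : ℤ)) = u at *
  generalize ry sg y / (2 * (h : ℤ)) = v at *
  cases sg
  · simp only [ry_false, Bool.false_eq_true, if_false] at h3 ⊢; omega
  · simp only [ry_true, if_true] at h3 ⊢; omega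

/-- fine row of a tile of the wide side -/
lemma rowW {y : ℤ} (h1 : yc sg (2 * h * (N * M')) Y0 - 2 * h * (N * M') ≤ y)
    (h2 : y < yc sg (2 * h * (N * M')) Y0) :
    if sg then N * M' * Y0 - N * M' ≤ ry sg y / (2 * h) ∧ ry sg y / (2 * h) < N * M' * Y0
    else N * M' * Y0 ≤ ry sg y / (2 * h) ∧ ry sg y / (2 * h) < N * M' * Y0 + N * M' := by
  have hn : (0 : ℤ) < 2 * h := by have := D.n4; omega
  have h3 := off_row (sg := sg) (n := 2 * h) (M := N * M') (Y0 := Y0) (y := y) hn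
  rw [← ry_div hn] at h3
  have h4 : -(N * M' : ℤ) ≤ (y - yc sg (2 * h * (N * M')) Y0) / (2 * h) := by
    rw [Int.le_ediv_iff_mul_le hn]; linarith
  have h5 : (y - yc sg (2 * h * (N * M')) Y0) / (2 * h) < 0 := by
    rw [Int.ediv_lt_iff_lt_mul hn]; linarith
  generalize (y - yc sg (2 * h * (N * M')) Y0) / (2 * (h : ℤ)) = u at *
  generalize ry sg y / (2 * (h : ℤ)) = v at *
  cases sg
  · simp only [ry_false, Bool.false_eq_true, if_false] at h3 ⊢; omega
  · simp only [ry_true, if_true] at h3 ⊢; omega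

/-- the row next to the chord on the wide side -/
lemma row1 : ry sg (yc sg (2 * h * (N * M')) Y0 - 1) / (2 * (h : ℤ)) =
    if sg then N * M' * Y0 - 1 else N * M' * Y0 := by
  have hn : (0 : ℤ) < 2 * h := by have := D.n4; omega
  unfold yc
  cases sg
  · simp only [ry_false, Bool.false_eq_true, if_false]
    exact div_in hn (by linarith) (by linarith)
  · simp only [ry_true, if_true]
    exact div_in hn (by linarith) (by linarith)

lemma col1 (a : ℤ) : (2 * h * (N * M') * a - 1) / (2 * (h : ℤ)) = N * M' * a - 1 := by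
  have hn : (0 : ℤ) < 2 * h := by have := D.n4; omega
  exact div_in hn (by linarith) (by linarith)

lemma col0 (a : ℤ) : (2 * h * (N * M') * a) / (2 * (h : ℤ)) = N * M' * a := by
  have hn : (0 : ℤ) < 2 * h := by have := D.n4; omega
  exact div_in hn (by linarith) (by linarith)

lemma m1 : (1 : ℤ) < N * M' := by have := D.mm; omega

/-- numbers of columns -/
lemma nums : 2 * h * (N * M') * a0 + 2 * h * (N * M') ≤ 2 * h * (N * M') * be ∧
    2 * h * (N * M') * be + 2 * h * (N * M') ≤ 2 * h * (N * M') * bt ∧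
    2 * h * (N * M') * bt ≤ 2 * h * (N * M') * bw ∧
    (P = true → 2 * h * (N * M') * bt + 2 * h * (N * M') ≤ 2 * h * (N * M') * bw) := by
  have hL := D.L4
  have h1 := D.C.l1
  have h2 := D.C.l2
  have h3 := D.C.l3
  refine ⟨by nlinarith, by nlinarith, by nlinarith, fun hP => ?_⟩
  have := D.C.l5 hP
  nlinarith

/-- **The colour function on the tooth.** -/
theorem wf_T {x y : ℤ} (h1 : 2 * h * (N * M') * be ≤ x) (h2 : x < 2 * h * (N * M') * bt)
    (h3 : yc sg (2 * h * (N * M')) Y0 ≤ y) (h4 : y < yc sg (2 * h * (N * M')) Y0 + 2 * h * (N * M') - 1)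
    (h5 : TcV S.P.Q sg (2 * h * (N * M')) x y) :
    wf (rf S (N * M') hM) (teC (rf S (N * M') hM) sg (N * M') bw Y0)
      (si (rf S (N * M') hM).P (2 * h) (x, ry sg y)) =
    wf (rf S (N * M') hM) (teC (rf S (N * M') hM) sg (N * M') bw Y0)
      (sx (rf S (N * M') hM).P ((N * M') * be, if sg then (N * M') * Y0 - 1 else (N * M') * Y0)
      (if sg then 2 else 0)) ∧
    si (rf S (N * M') hM).P (2 * h) (x, ry sg y) ≠ teC (rf S (N * M') hM) sg (N * M') bw Y0 := by
  have hh := D.h0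
  have hL := D.L4
  have hL0 : (0 : ℤ) < 2 * h * (N * M') := by omega
  have hC := D.C
  have hT := rfn S hM
  have hm := D.m1
  obtain ⟨n1, n2, n3, n4⟩ := D.nums
  obtain ⟨f1, f2, f3, f4⟩ := hC.nums hm hT
  have hk := hC.te_k hm hT
  have hn : (0 : ℤ) < 2 * h := by have := D.n4; omega
  rw [hC.tooth hL h1 h2 h3 h4] at h5
  unfold si
  by_cases hx : x = 2 * h * (N * M') * be
  · subst hx
    rw [sd_A hh (hC.f1 hL0 (by omega) (by omega) (by omega) (by omega))]
    unfold ct
    simp only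
    rw [D.col1 be]
    have hr := D.rowN h3 (by omega)
    refine ⟨hC.wf_left hm hT hr, fun he => ?_⟩
    have h6 := hC.left_side hm hT hr
    have := (sx_cell h6 (hC.te_side hm hT) he).1
    rw [Prod.mk.injEq] at this
    omega
  · have hnl : ¬ InV S.P.Q sg (2 * h * (N * M')) (x - 1) y :=
      hC.f3 hL0 (by omega) (by omega) (by omega) (by omega)
    by_cases hP : P = true ∧ x = 2 * h * (N * M') * bt - 1
    · obtain ⟨hP, hx2⟩ := hP
      have n5 := n4 hP
      have f5 := f4 hP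
      rw [sd_C hh hnl (hC.f4 hL0 hP (by omega) (by omega) (by omega) (by omega))]
      unfold ct
      simp only
      rw [show x + 1 = 2 * h * (N * M') * bt by omega, D.col0 bt]
      have hr := D.rowN h3 (by omega)
      refine ⟨hC.wf_rite hm hT hP hr, sx_ne hk ?_ (by norm_num)⟩
      exact isSide3.2 ⟨hC.q4 hm hT hP le_rfl (by omega) hr, hC.q3 hm hT (by omega) (by omega) hr⟩
    · have hy : y = yc sg (2 * h * (N * M')) Y0 := by
        rcases h5 with h | h | h
        · exact absurd h hx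
        · exact h
        · exact absurd h hP
      have hnr : ¬ InV S.P.Q sg (2 * h * (N * M')) (x + 1) y := by
        rcases lt_or_ge (x + 1) (2 * h * (N * M') * bt) with h6 | h6
        · exact hC.f3 hL0 (by omega) h6 (by omega) (by omega)
        · have hP' : P = false := by
            by_contra h
            exact hP ⟨by simpa using h, by omega⟩
          have := hC.l4 hP'
          rw [this] at h6 h2
          exact hC.f5 hL0 (by omega) (by omega) (by omega) (by omega)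
      rw [sd_B hh hnl hnr (hC.f2 hL0 (by omega) (by omega) (by omega) (by omega))
        (hC.f3 hL0 h1 h2 (by omega) (by omega))]
      unfold ct
      simp only
      rw [hy, D.row1]
      have hc : N * M' * be ≤ x / (2 * (h : ℤ)) ∧ x / (2 * (h : ℤ)) < N * M' * bt :=
        div_col hn (by linarith) (by linarith)
      refine ⟨hC.wf_bot hm hT hc.1 hc.2 le_rfl (by omega), sx_ne hk ?_ ?_⟩
      · cases sg
        · simp only [Bool.false_eq_true, if_false]
          exact isSide0.2 ⟨hC.q2 hm hT hc.1 (by omega) (by simp only [Bool.false_eq_true, if_false]; omega),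
            hC.q3 hm hT hc.1 hc.2 (by simp only [Bool.false_eq_true, if_false]; omega)⟩
        · simp only [if_true]
          refine isSide2.2 ⟨hC.q2 hm hT hc.1 (by omega) (by simp only [if_true]; omega), ?_⟩
          rw [sub_add_cancel]
          exact hC.q3 hm hT hc.1 hc.2 (by simp only [if_true]; omega)
      · cases sg <;> norm_num
end PicD

end Pool.Agent.H78.W
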