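import Mathlib
import Pool.Agent.H78.W.VGi

set_option autoImplicit false
set_option linter.unusedVariables false
open Finset

/-! # StChd, V1: the picture of a chord of a plated shape satisfies `Pic.Ok` -/

namespace Pool.Agent.H78.W

open Pool.Agent.Q1.M4 (Cell PType IsSide)
open Pool.Agent.H21.FM (Shape)
open Pool.Agent.H33.Q1 (lt tt ct TL lt_odd tt_lt lt_tt lt_inj mem_TL lt_mem_TL)
open Pool.Agent.H13.W (chG)
open Pool.Agent.H58.W (plV)
open Pool.Agent.H50.W (rf)
open Pool.Agent.H19.W (cx cy cx_lt cy_lt lt_cc Tq LamC WC sd si)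
open Pool.Agent.H45.W (sw swF mem_swF sw_sw)
open Pool.Agent.H68.W (sx wf Cf sx_ne sx_spec isSide0 isSide1 isSide2 isSide3)

lemma lt_mem_WC {P : PType} {n x y : ℤ} {κ : ℕ → ℤ → Prop} : lt (x, y) ∈ WC P n κ ↔
    lt (x, y) ∈ LamC P.Q n ∧ ct n (x, y) ∉ P.Q ∧ κ (si P n (x, y)) y := by
  classical
  unfold WC
  rw [mem_filter, tt_lt]

lemma cf_wf {T : Shape} {te i : ℕ} {v0 v : ℤ} (h : i ≠ te) : Cf T te v0 i v ↔ wf T te i = true := by
  unfold Cf wf
  have e : (te < i ∨ (te = i ∧ v0 < v)) ↔ te < i := by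
    constructor
    · rintro (h1 | ⟨h1, -⟩)
      · exact h1
      · exact absurd h1.symm h
    · exact Or.inl
  rw [e]
  by_cases h1 : T.m2 ≤ i ∧ i < T.m3
  · by_cases h2 : te < i
    · simp [h1, h2]
    · simp [h1, h2]
  · by_cases h2 : te < i
    · simp [h1, h2]
    · simp [h1, h2]

namespace PicD

variable {S : Shape} {aL b : ℤ} {N M' h : ℕ} {hM : 0 < N * M'} {sg P : Bool} {a0 be bt bw Y0 k0 : ℤ}
  (D : PicD S aL b N M' h hM sg P a0 be bt bw Y0 k0)
include D

/-- fine row of a tile next to the right wall -/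
lemma WRr {y : ℤ} (h1 : yc sg (2 * h * (N * M')) Y0 - 2 * h * (N * M') ≤ y)
    (h2 : y < yc sg (2 * h * (N * M')) Y0 + 2 * h * (N * M'))
    (h3 : y < yc sg (2 * h * (N * M')) Y0 ∨ P = true) :
    Cc.WR sg P (N * M') Y0 (ry sg y / (2 * (h : ℤ))) := by
  unfold Cc.WR
  rcases lt_or_ge y (yc sg (2 * h * (N * M')) Y0) with h4 | h4
  · exact Or.inl (D.rowW h1 h4)
  · have hP : P = true := by
      rcases h3 with h3 | h3
      · omega
      · exact h3
    have := D.rowN h4 h2
    refine Or.inr ⟨hP, ?_⟩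
    have hm := D.m1
    cases sg
    · simp only [Bool.false_eq_true, if_false] at this
      exact ⟨this.1, by omega⟩
    · simp only [if_true] at this
      exact ⟨by omega, this.2⟩

/-- **The side of a tile of the right wall.** -/
lemma si_wall {y : ℤ} (h1 : yc sg (2 * h * (N * M')) Y0 - 2 * h * (N * M') ≤ y)
    (h2 : y < yc sg (2 * h * (N * M')) Y0 + 2 * h * (N * M'))
    (h3 : y < yc sg (2 * h * (N * M')) Y0 ∨ P = true) :
    si (rf S (N * M') hM).P (2 * h) (2 * h * (N * M') * bw, ry sg y) =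
      sx (rf S (N * M') hM).P (N * M' * bw - 1, ry sg y / (2 * (h : ℤ))) 1 := by
  have hh := D.h0
  have hL0 : (0 : ℤ) < 2 * h * (N * M') := by have := D.L4; omega
  have hC := D.C
  obtain ⟨n1, n2, n3, n4⟩ := D.nums
  have hin : InV S.P.Q sg (2 * h * (N * M')) (2 * h * (N * M') * bw - 1) y := by
    rcases lt_or_ge y (yc sg (2 * h * (N * M')) Y0) with h4 | h4
    · exact hC.f2 hL0 (by omega) (by omega) h1 h4
    · have hP : P = true := by
        rcases h3 with h3 | h3
        · omega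
        · exact h3
      have n5 := n4 hP
      exact hC.f4 hL0 hP (by omega) (by omega) h4 h2
  unfold si
  rw [sd_A hh hin]
  unfold ct
  simp only
  rw [D.col1 bw]

/-- the corner of the tooth and the right wall -/
lemma si_corner (hP : P = false) :
    si (rf S (N * M') hM).P (2 * h) (2 * h * (N * M') * bw, ry sg (yc sg (2 * h * (N * M')) Y0)) =
      teC (rf S (N * M') hM) sg (N * M') bw Y0 := by
  have hh := D.h0
  have hL := D.L4
  have hL0 : (0 : ℤ) < 2 * h * (N * M') := by omega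
  have hC := D.C
  obtain ⟨n1, n2, n3, n4⟩ := D.nums
  have hbt : 2 * h * (N * M') * bt = 2 * h * (N * M') * bw := by rw [hC.l4 hP]
  unfold si
  rw [sd_E hh (hC.f3 hL0 (by omega) (by omega) (by omega) (by omega))
    (hC.f5 hL0 (by omega) (by omega) (by omega) (by omega))
    (hC.f5 hL0 (by omega) (by omega) (by omega) (by omega))
    (hC.f5 hL0 (by omega) (by omega) (by omega) (by omega))
    (hC.f2 hL0 (by omega) (by omega) (by omega) (by omega))
    (hC.f3 hL0 (by omega) (by omega) (by omega) (by omega))]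
  unfold ct teC
  simp only
  rw [D.col1 bw, D.row1]

/-- index on the right wall, compared with the exit of the canonical colour -/
lemma te_cmp {y : ℤ} (h1 : yc sg (2 * h * (N * M')) Y0 - 2 * h * (N * M') ≤ y)
    (h2 : y < yc sg (2 * h * (N * M')) Y0 + 2 * h * (N * M'))
    (h3 : y < yc sg (2 * h * (N * M')) Y0 ∨ P = true) :
    ((teC (rf S (N * M') hM) sg (N * M') bw Y0 <
        si (rf S (N * M') hM).P (2 * h) (2 * h * (N * M') * bw, ry sg y) ∨
      (teC (rf S (N * M') hM) sg (N * M') bw Y0 =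
        si (rf S (N * M') hM).P (2 * h) (2 * h * (N * M') * bw, ry sg y) ∧
        v0C (2 * h * (N * M')) Y0 < ry sg y)) ↔
      if sg then yc sg (2 * h * (N * M')) Y0 ≤ y else y < yc sg (2 * h * (N * M')) Y0) ∧
    (((rf S (N * M') hM).m2 ≤ si (rf S (N * M') hM).P (2 * h) (2 * h * (N * M') * bw, ry sg y) ∧
      si (rf S (N * M') hM).P (2 * h) (2 * h * (N * M') * bw, ry sg y) < (rf S (N * M') hM).m3) ↔
    ((rf S (N * M') hM).m2 ≤ teC (rf S (N * M') hM) sg (N * M') bw Y0 ∧
      teC (rf S (N * M') hM) sg (N * M') bw Y0 < (rf S (N * M') hM).m3)) := by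
  have hm := D.m1
  have hn : (0 : ℤ) < 2 * h := by have := D.n4; omega
  have hL0 : (0 : ℤ) < 2 * h * (N * M') := by have := D.L4; omega
  have hT := rfn S hM
  rw [D.si_wall h1 h2 h3]
  have hw1 := D.WRr h1 h2 h3
  have hw2 := D.WRr (y := yc sg (2 * h * (N * M')) Y0 - 1) (by omega) (by omega) (Or.inl (by omega))
  rw [D.row1] at hw2
  have hrow : (ry sg y / (2 * (h : ℤ)) < N * M' * Y0 ↔ ry sg y < 2 * h * (N * M') * Y0) := by
    rw [Int.ediv_lt_iff_lt_mul hn]
    constructor <;> intro h <;> linarith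
  have hle : ∀ v1 v2 : ℤ, Cc.WR sg P (N * M') Y0 v1 → Cc.WR sg P (N * M') Y0 v2 →
      ((sx (rf S (N * M') hM).P (N * M' * bw - 1, v2) 1 : ℤ) =
        sx (rf S (N * M') hM).P (N * M' * bw - 1, v1) 1 + (v2 - v1)) ∧
      (((rf S (N * M') hM).m2 ≤ sx (rf S (N * M') hM).P (N * M' * bw - 1, v1) 1 ∧
        sx (rf S (N * M') hM).P (N * M' * bw - 1, v1) 1 < (rf S (N * M') hM).m3) ↔
      ((rf S (N * M') hM).m2 ≤ sx (rf S (N * M') hM).P (N * M' * bw - 1, v2) 1 ∧
        sx (rf S (N * M') hM).P (N * M' * bw - 1, v2) 1 < (rf S (N * M') hM).m3)) := by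
    intro v1 v2 g1 g2
    rcases le_total v1 v2 with g3 | g3
    · exact D.C.sx_wall hm hT g1 g2 g3
    · have := D.C.sx_wall hm hT g2 g1 g3
      exact ⟨by linarith [this.1], this.2.symm⟩
  obtain ⟨g1, g2⟩ := hle _ _ hw2 hw1
  unfold teC
  refine ⟨?_, g2.symm⟩
  generalize sx (rf S (N * M') hM).P (N * M' * bw - 1, ry sg y / (2 * (h : ℤ))) 1 = i at *
  generalize hte : sx (rf S (N * M') hM).P (N * M' * bw - 1,
    if sg then N * M' * Y0 - 1 else N * M' * Y0) 1 = te at *
  generalize hv : ry sg y / (2 * (h : ℤ)) = v at *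
  unfold v0C yc
  cases sg
  · simp only [Bool.false_eq_true, if_false, ry_false] at g1 hrow ⊢
    constructor
    · rintro (h | ⟨h, h'⟩)
      · by_contra hc
        have := hrow.2 (by omega)
        omega
      · omega
    · intro h
      have : ¬ v < N * M' * Y0 := fun h' => by have := hrow.1 h'; omega
      rcases lt_trichotomy te i with h4 | h4 | h4
      · exact Or.inl h4
      · exact Or.inr ⟨h4, by omega⟩
      · omega
  · simp only [if_true, ry_true] at g1 hrow ⊢
    constructor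
    · rintro (h | ⟨h, h'⟩)
      · by_contra hc
        have := hrow.2 (by omega)
        omega
      · by_contra hc
        omega
    · intro h
      have : ¬ v < N * M' * Y0 := fun h' => by have := hrow.1 h'; omega
      exact Or.inl (by omega)

/-- **The colours of the right wall.** -/
theorem cf_wall {y : ℤ} (h1 : yc sg (2 * h * (N * M')) Y0 - 2 * h * (N * M') ≤ y)
    (h2 : y < yc sg (2 * h * (N * M')) Y0 + 2 * h * (N * M'))
    (h3 : y ≤ yc sg (2 * h * (N * M')) Y0 ∨ P = true) :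
    Cf (rf S (N * M') hM) (teC (rf S (N * M') hM) sg (N * M') bw Y0) (v0C (2 * h * (N * M')) Y0)
      (si (rf S (N * M') hM).P (2 * h) (2 * h * (N * M') * bw, ry sg y)) (ry sg y) ↔
    ((pic S b N M' h hM sg P be bt bw Y0 k0).kW = true ↔ y < yc sg (2 * h * (N * M')) Y0) := by
  unfold pic Cf
  simp only
  by_cases h4 : y < yc sg (2 * h * (N * M')) Y0 ∨ P = true
  · obtain ⟨k1, k2⟩ := D.te_cmp h1 h2 h4
    rw [k1, k2]
    clear k1 k2
    by_cases hA : (rf S (N * M') hM).m2 ≤ teC (rf S (N * M') hM) sg (N * M') bw Y0 ∧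
      teC (rf S (N * M') hM) sg (N * M') bw Y0 < (rf S (N * M') hM).m3
    · by_cases hB : y < yc sg (2 * h * (N * M')) Y0
      · have hB' := not_le.2 hB
        cases sg <;> simp [hA, hB, hB']
      · have hB' := not_lt.1 hB
        cases sg <;> simp [hA, hB, hB']
    · rw [decide_eq_false hA]
      by_cases hB : y < yc sg (2 * h * (N * M')) Y0
      · have hB' := not_le.2 hB
        cases sg <;> simp only [hA, hB, hB'] <;> simp
      · have hB' := not_lt.1 hB
        cases sg <;> simp only [hA, hB, hB'] <;> simp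
  · have hP : P = false := by
      by_contra h
      exact h4 (Or.inr (by simpa using h))
    have hy : y = yc sg (2 * h * (N * M')) Y0 := by
      rcases h3 with h3 | h3
      · have : ¬ y < yc sg (2 * h * (N * M')) Y0 := fun h => h4 (Or.inl h)
        omega
      · exact absurd h3 (by simp [hP])
    subst hy
    rw [D.si_corner hP]
    simp only [lt_self_iff_false, true_and, false_or, iff_false]
    unfold v0C yc
    cases sg
    · simp only [Bool.false_eq_true, if_false, ry_false, Bool.not_false, Bool.true_xor,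
        Bool.not_eq_true', decide_eq_false_iff_not]
      have : ¬ (2 * h * (N * M') * Y0 - 1 < -1 - -(2 * h * (N * M') * Y0) : Prop) := by
        push_cast; omega
      simp only [this, iff_false]
    · simp only [if_true, ry_true, Bool.not_true, Bool.false_xor, decide_eq_true_eq]
      have : (2 * h * (N * M') * Y0 - 1 < 2 * h * (N * M') * Y0 : Prop) := by omega
      simp only [this, iff_true]

omit D in
lemma lamC_odd {Q : Finset Cell} {n : ℤ} (hn : 0 < n) {e : ℤ × ℤ} (he : e ∈ LamC Q n) :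
    (e.1 + e.2) % 2 = 1 := by
  classical
  unfold LamC at he
  exact ((mem_TL hn).1 (mem_filter.1 he).1).1

omit D in
lemma tl_lamC {Q : Finset Cell} {n : ℤ} (hn : 0 < n) {e : ℤ × ℤ} (he : e ∈ TL Q n) :
    e ∈ LamC Q n := by
  obtain ⟨h1, h2⟩ := (mem_TL hn).1 he
  rw [← lt_tt h1, lt_mem_LamC hn]
  exact ⟨tt e, by simp, by simp, h2⟩

/-- plates: row of the band -/
lemma pl_band {x y : ℤ} (h1 : yc sg (2 * h * (N * M')) Y0 - 2 * h * (3 * (N * M') / 4) ≤ y)
    (h2 : y < yc sg (2 * h * (N * M')) Y0 + 2 * h * (3 * (N * M') / 4)) :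
    plV (chG S.P.Q) b N M' (x / (2 * h), ry sg y / (2 * h)) =
      if ((x / (2 * h * (N * M')) : ℤ), Y0) ∈ chG S.P.Q ∧
        yc sg (2 * h * (N * M')) Y0 - 2 * h * (N * b - x / (2 * h * M')) ≤ y ∧
        y < yc sg (2 * h * (N * M')) Y0 + 2 * h * (N * b - x / (2 * h * M')) then
        some (x / (2 * h * M'), Y0) else none := by
  have hn : (0 : ℤ) < 2 * h := by have := D.n4; omega
  exact D.T.pl_tile hn h1 h2

/-- **The picture of a chord of a plated shape.** -/
theorem ok : (pic S b N M' h hM sg P be bt bw Y0 k0).Ok (2 * h * (N * M') * a0)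
    (2 * h * (3 * (N * M') / 4)) := by
  have hh := D.h0
  have hh2 : (2 : ℤ) ≤ h := by have := D.hh; omega
  have hn : (0 : ℤ) < 2 * h := by have := D.n4; omega
  have hL := D.L4
  have hL0 : (0 : ℤ) < 2 * h * (N * M') := by omega
  have hB := D.Lbig
  have hC := D.C
  have hm := D.m1
  have hM64 := D.mm
  have hM0 := D.T.M0
  have hM'M := D.T.M'_le
  obtain ⟨n1, n2, n3, n4⟩ := D.nums
  have hM'0 : (0 : ℤ) < M' := by
    have : 0 < M' := Nat.pos_of_mul_pos_left hM |> fun h => by
      rcases Nat.eq_zero_or_pos M' with h' | h'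
      · subst h'; simp at hM
      · exact h'
    exact_mod_cast this
  have hY1 : 2 * (h : ℤ) * ((N * M') / 2) + 2 * h * 15 ≤ 2 * h * (3 * (N * M') / 4) := by
    have : ((N : ℤ) * M') / 2 + 15 ≤ 3 * (N * M') / 4 := by omega
    nlinarith
  have hY2 : 2 * (h : ℤ) * 32 ≤ 2 * (h : ℤ) * ((N * M') / 2) := by
    have : (32 : ℤ) ≤ (N * M') / 2 := by omega
    nlinarith
  have hs : (if sg then (0 : ℤ) else 1) = 0 ∨ (if sg then (0 : ℤ) else 1) = 1 := by
    cases sg <;> simp
  constructor
  case hh => exact hh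
  case hm =>
    show (0 : ℤ) < 2 * h * M'
    positivity
  case odd =>
    intro e he
    have := lamC_odd hn (mem_rlF.1 he)
    exact rl_odd.1 this
  case sub =>
    intro e he
    exact mem_rlF.2 (tl_lamC hn (mem_rlF.1 he))
  case dis =>
    classical
    intro e he he'
    have h1 := mem_rlF.1 he
    have h2 := mem_rlF.1 he'
    unfold WC at h1
    exact (mem_filter.1 h1).2.1 ((mem_TL hn).1 h2).2
  case sW =>
    classical
    intro e he
    have h1 := mem_rlF.1 he
    unfold WC at h1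
    exact mem_rlF.2 (mem_filter.1 h1).1
  case xls =>
    show 2 * (h : ℤ) * (N * M') * a0 ≤ 2 * h * M' * k0
    have := D.xls
    have h3 : (0 : ℤ) < 2 * h * M' := by positivity
    nlinarith
  case xse =>
    show 2 * (h : ℤ) * M' * k0 < 2 * h * (N * M') * be
    have := D.xse
    have h3 : (0 : ℤ) < 2 * h * M' := by positivity
    nlinarith
  case xet =>
    show 2 * (h : ℤ) * (N * M') * be + 4 ≤ 2 * h * (N * M') * bt
    omega
  case xtw => exact n3
  case xtw' =>
    intro hP
    show 2 * (h : ℤ) * (N * M') * bt = 2 * h * (N * M') * bw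
    rw [hC.l4 hP]
  case xtw2 =>
    intro hP
    have := n4 hP
    show 2 * (h : ℤ) * (N * M') * bt + 4 ≤ 2 * h * (N * M') * bw
    omega
  case YF1 =>
    show yc sg (2 * h * (N * M')) Y0 + h + 1 < yc sg (2 * h * (N * M')) Y0 + 2 * h * ((N * M') / 2) + h -
      (if sg then 0 else 1)
    omega
  case YF2 =>
    show yc sg (2 * h * (N * M')) Y0 + 2 * h * ((N * M') / 2) + h - (if sg then 0 else 1) + 1 <
      yc sg (2 * h * (N * M')) Y0 + 2 * h * (3 * (N * M') / 4)
    omega
  case th =>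
    intro x h1 h2
    obtain ⟨t1, t2⟩ := D.thick h1 h2
    show 2 * (h : ℤ) ≤ 2 * h * (N * b - x / (2 * h * M')) ∧
      2 * h * (N * b - x / (2 * h * M')) + 1 < 2 * h * (3 * (N * M') / 4)
    generalize (N : ℤ) * b - x / (2 * h * M') = w at *
    have : w + 1 ≤ 3 * (N * M') / 4 := by omega
    constructor
    · nlinarith
    · nlinarith
  case gl =>
    intro x y h1 h2 h3 h4
    change _ - 2 * (h : ℤ) * (3 * (N * M') / 4) ≤ y at h3
    change y < yc sg (2 * h * (N * M')) Y0 + 2 * h * (3 * (N * M') / 4) at h4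
    change yc sg (2 * h * (N * M')) Y0 - 2 * h * (3 * (N * M') / 4) ≤ y at h3
    exact (lt_mem_E hh).2 (hC.f1 hL0 h1 h2 (by omega) (by omega))
  case gb =>
    intro x y h1 h2 h3 h4
    change yc sg (2 * h * (N * M')) Y0 - 2 * h * (3 * (N * M') / 4) ≤ y at h3
    change y < yc sg (2 * h * (N * M')) Y0 at h4
    exact (lt_mem_E hh).2 (hC.f2 hL0 h1 h2 (by omega) (by omega))
  case gp =>
    intro hP x y h1 h2 h3 h4
    change yc sg (2 * h * (N * M')) Y0 ≤ y at h3
    change y < yc sg (2 * h * (N * M')) Y0 + 2 * h * (3 * (N * M') / 4) at h4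
    exact (lt_mem_E hh).2 (hC.f4 hL0 hP h1 h2 (by omega) (by omega))
  case gt =>
    intro x y h1 h2 h3 h4
    change yc sg (2 * h * (N * M')) Y0 ≤ y at h3
    change y < yc sg (2 * h * (N * M')) Y0 + 2 * h * (3 * (N * M') / 4) at h4
    refine ⟨fun he => hC.f3 hL0 h1 h2 h3 (by omega) ((lt_mem_E hh).1 he), ?_⟩
    refine (lt_mem_Lam hh).trans ?_
    exact hC.tooth hL h1 h2 h3 (by omega)
  case gw =>
    intro y h3 h4
    change yc sg (2 * h * (N * M')) Y0 - 2 * h * (3 * (N * M') / 4) ≤ y at h3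
    change y < yc sg (2 * h * (N * M')) Y0 + 2 * h * (3 * (N * M') / 4) at h4
    refine ⟨fun he => hC.f5 hL0 le_rfl (by omega) (by omega) (by omega) ((lt_mem_E hh).1 he), ?_⟩
    refine (lt_mem_Lam hh).trans ?_
    exact hC.wall hL (by omega) (by omega)
  case go =>
    intro y h3 h4
    change yc sg (2 * h * (N * M')) Y0 - 2 * h * (3 * (N * M') / 4) ≤ y at h3
    change y < yc sg (2 * h * (N * M')) Y0 + 2 * h * (3 * (N * M') / 4) at h4
    intro he
    exact hC.behind hL (by omega) (by omega) ((lt_mem_Lam hh).1 he)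
  case cT =>
    intro x y h1 h2 h3 h4 h5
    change yc sg (2 * h * (N * M')) Y0 ≤ y at h3
    change y < yc sg (2 * h * (N * M')) Y0 + 2 * h * (3 * (N * M') / 4) at h4
    have hE : ¬ InV S.P.Q sg (2 * h * (N * M')) x y := hC.f3 hL0 h1 h2 h3 (by omega)
    have h6 := (lt_mem_Lam hh).1 h5
    obtain ⟨w1, w2⟩ := D.wf_T h1 h2 h3 (by omega) h6
    refine lt_mem_rlF.trans (lt_mem_WC.trans ?_)
    rw [cf_wf w2]
    rw [w1]
    constructor
    · exact fun h => h.2.2
    · intro h
      exact ⟨lt_mem_rlF.1 h5, fun hc => hE ((ct_InV hh).1 hc), h⟩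
  case cW =>
    intro y h3 h4 h5
    change yc sg (2 * h * (N * M')) Y0 - 2 * h * (3 * (N * M') / 4) ≤ y at h3
    change y < yc sg (2 * h * (N * M')) Y0 + 2 * h * (3 * (N * M') / 4) at h4
    have hE : ¬ InV S.P.Q sg (2 * h * (N * M')) (2 * h * (N * M') * bw) y :=
      hC.f5 hL0 le_rfl (by omega) (by omega) (by omega)
    have h6 := (hC.wall hL (by omega) (by omega)).1 ((lt_mem_Lam hh).1 h5)
    refine lt_mem_rlF.trans (lt_mem_WC.trans ?_)
    have key := D.cf_wall (y := y) (by omega) (by omega) h6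
    constructor
    · exact fun h => key.1 h.2.2
    · intro h
      exact ⟨lt_mem_rlF.1 h5, fun hc => hE ((ct_InV hh).1 hc), key.2 h⟩
  case pc =>
    intro x y h1 h2 h3 h4
    change yc sg (2 * h * (N * M')) Y0 - 2 * h * (3 * (N * M') / 4) ≤ y at h3
    change y < yc sg (2 * h * (N * M')) Y0 + 2 * h * (3 * (N * M') / 4) at h4
    refine (D.pl_band h3 h4).trans ?_
    have := D.colL h1 h2
    simp only [this, true_and]
    rfl
  case pn =>
    intro x y h1 h2 h3 h4
    change yc sg (2 * h * (N * M')) Y0 - 2 * h * (3 * (N * M') / 4) ≤ y at h3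
    change y < yc sg (2 * h * (N * M')) Y0 + 2 * h * (3 * (N * M') / 4) at h4
    change 2 * (h : ℤ) * (N * M') * be ≤ x at h1
    change x ≤ 2 * (h : ℤ) * (N * M') * bw at h2
    refine (D.pl_band h3 h4).trans (if_neg ?_)
    rintro ⟨h5, -⟩
    have h6 := div_col (L := 2 * h * (N * M')) hL0 h1 (show x < 2 * h * (N * M') * (bw + 1) by linarith)
    exact hC.no_ch h6.1 (by omega) h5
  case po =>
    intro x y x' h1 h2 h3
    obtain ⟨k1, k2, k3, k4⟩ := D.T.plV_name h3
    have e2 : x / (2 * (h : ℤ)) / (M' : ℤ) = x / (2 * h * M') := by rw [Int.ediv_ediv_of_nonneg hn.le]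
    rw [e2] at k1
    refine ⟨k1, ?_⟩
    rw [ry_div hn, off_row (sg := sg) (n := 2 * h) (M := N * M') (Y0 := Y0) hn] at k3 k4
    have k5 := (div_sym hn).1 (ry_sym.1 ⟨k3, k4⟩)
    change x / (2 * (h : ℤ) * M') = x' / (2 * h * M') at k1
    change -(2 * (h : ℤ) * (N * b - x' / (2 * h * M'))) ≤ y - yc sg (2 * h * (N * M')) Y0 ∧
      y - yc sg (2 * h * (N * M')) Y0 < 2 * (h : ℤ) * (N * b - x' / (2 * h * M')) at k5
    rw [← k1] at k5
    constructor
    · show yc sg (2 * h * (N * M')) Y0 - 2 * h * (N * b - x / (2 * h * M')) ≤ y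
      linarith [k5.1]
    · show y < yc sg (2 * h * (N * M')) Y0 + 2 * h * (N * b - x / (2 * h * M'))
      linarith [k5.2]
  case dxl => exact ⟨N * a0, by show 2 * (h : ℤ) * (N * M') * a0 = 2 * h * M' * (N * a0); ring⟩
  case dxs => exact ⟨k0, rfl⟩
  case dxe => exact ⟨N * be, by show 2 * (h : ℤ) * (N * M') * be = 2 * h * M' * (N * be); ring⟩
  case dm => exact ⟨M', rfl⟩
  case dYc =>
    show 2 * (h : ℤ) ∣ yc sg (2 * h * (N * M')) Y0
    unfold yc
    cases sg
    · exact ⟨-(N * M' * Y0), by simp only [Bool.false_eq_true, if_false]; ring⟩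
    · exact ⟨N * M' * Y0, by simp only [if_true]; ring⟩
  case dxt =>
    exact ⟨N * M' * bt, by show 2 * (h : ℤ) * (N * M') * bt = 2 * (h : ℤ) * (N * M' * bt); ring⟩
  case dxw =>
    exact ⟨N * M' * bw, by show 2 * (h : ℤ) * (N * M') * bw = 2 * (h : ℤ) * (N * M' * bw); ring⟩

end PicD

end Pool.Agent.H78.W
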