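import Mathlib
import Pool.Agent.H19.W.Cut

set_option autoImplicit false
set_option linter.unusedVariables false
open Finset

/-! # StChd, V1: order of the indices between the two exits -/

namespace Pool.Agent.H78.W

open Pool.Agent.H19.W (Bh)

section

variable {te a b tl i : ℕ} {y t Yc YF : ℤ} {tog R Pp : Prop}

lemma xr {L tog K R nw l' t' k' r' n' : Prop} (h1 : L ↔ l') (h2 : tog ↔ t') (h3 : K ↔ k') (h4 : R ↔ r')
    (h5 : nw ↔ n') (h : Xor l' t' ↔ (Xor k' r' ↔ n')) : Xor L tog ↔ (Xor K R ↔ nw) := by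
  rw [h1, h2, h3, h4, h5]
  exact h

/-- **Order of the indices**, tooth above. -/
theorem order_up (c : (te ≤ a ∧ a < b ∧ b < tl) ∨ (b < tl ∧ tl < te ∧ te ≤ a)) (ha : Pp → te ≠ a)
    (hna : ¬ Pp → a = te) (hR1 : Bh a b i → R) (hR2 : i = a ∨ i = b → (R ↔ Pp ∧ YF < y))
    (hR3 : R → Bh a b i ∨ i = a ∨ i = b)
    (t1 : b ≤ i → i ≤ tl → (tog ↔ ((i = tl → y ≤ t) ∧ (Pp → i = b → y ≤ YF))))
    (t2 : te ≤ i → i ≤ a → (tog ↔ ((i = te → Yc ≤ y) ∧ (Pp → i = a → y ≤ YF))))
    (t3 : tog → (b ≤ i ∧ i ≤ tl) ∨ (te ≤ i ∧ i ≤ a)) :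
    Xor (te < i ∨ (te = i ∧ Yc ≤ y)) tog ↔ (Xor (tl < i ∨ (tl = i ∧ t < y)) R ↔ te < tl) := by
  have kF : ∀ q : Prop, i < tl → ((tl < i ∨ (tl = i ∧ q)) ↔ False) := fun q h => by
    constructor
    · rintro (h' | ⟨h', -⟩) <;> omega
    · exact False.elim
  have kT : ∀ q : Prop, tl < i → ((tl < i ∨ (tl = i ∧ q)) ↔ True) := fun q h => by simp [h]
  have kE : ∀ q : Prop, tl = i → ((tl < i ∨ (tl = i ∧ q)) ↔ q) := fun q h => by simp [h]
  have lF : ∀ q : Prop, i < te → ((te < i ∨ (te = i ∧ q)) ↔ False) := fun q h => by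
    constructor
    · rintro (h' | ⟨h', -⟩) <;> omega
    · exact False.elim
  have lT : ∀ q : Prop, te < i → ((te < i ∨ (te = i ∧ q)) ↔ True) := fun q h => by simp [h]
  have lE : ∀ q : Prop, te = i → ((te < i ∨ (te = i ∧ q)) ↔ q) := fun q h => by simp [h]
  have tF : i < b ∨ tl < i → i < te ∨ a < i → (tog ↔ False) := by
    intro g1 g2
    refine iff_false_intro fun h => ?_
    rcases t3 h with h | h
    · omega
    · omega
  have tT : b < i → i < tl → (tog ↔ True) := fun g1 g2 => by
    rw [t1 (by omega) (by omega)]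
    exact iff_true_intro ⟨fun h => by omega, fun _ h => by omega⟩
  have tT' : te < i → i < a → (tog ↔ True) := fun g1 g2 => by
    rw [t2 (by omega) (by omega)]
    exact iff_true_intro ⟨fun h => by omega, fun _ h => by omega⟩
  have tE : i = tl → b < tl → (tog ↔ y ≤ t) := fun g1 g2 => by
    rw [t1 (by omega) (by omega)]
    exact ⟨fun h => h.1 g1, fun h => ⟨fun _ => h, fun _ h' => by omega⟩⟩
  have tB : i = b → b < tl → (tog ↔ (Pp → y ≤ YF)) := fun g1 g2 => by
    rw [t1 (by omega) (by omega)]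
    exact ⟨fun h hp => h.2 hp g1, fun h => ⟨fun h' => by omega, fun hp _ => h hp⟩⟩
  have tA : i = a → te < a → (tog ↔ (Pp → y ≤ YF)) := fun g1 g2 => by
    rw [t2 (by omega) (by omega)]
    exact ⟨fun h hp => h.2 hp g1, fun h => ⟨fun h' => by omega, fun hp _ => h hp⟩⟩
  have tS : i = te → te ≤ a → (tog ↔ Yc ≤ y) := fun g1 g2 => by
    rw [t2 (by omega) (by omega)]
    exact ⟨fun h => h.1 g1, fun h => ⟨fun _ => h, fun hp h' => absurd (g1.symm.trans h') (ha hp)⟩⟩
  have rS : te < a ∨ a = te → i = te → te = a → (R ↔ False) := fun _ g1 g2 => by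
    have hp : ¬ Pp := fun hp => ha hp g2
    rw [hR2 (Or.inl (by omega))]
    exact iff_false_intro fun h => hp h.1
  unfold Bh at hR1 hR3
  have rF : ∀ _ : (¬ (a < b ∧ a < i ∧ i < b) ∧ ¬ (b < a ∧ (i < b ∨ a < i))), i ≠ a → i ≠ b → (R ↔ False) := by
    intro g1 g2 g3
    refine iff_false_intro fun h => ?_
    rcases hR3 h with (h | h) | h | h
    · exact g1.1 h
    · exact g1.2 h
    · exact g2 h
    · exact g3 h
  rcases c with ⟨c1, c2, c3⟩ | ⟨c1, c2, c3⟩
  · have hnw : (te < tl) ↔ True := iff_true_intro (by omega)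
    rcases lt_trichotomy i te with r | r | r
    · exact xr (lF _ r) (tF (by omega) (by omega)) (kF _ (by omega)) (rF (by omega) (by omega) (by omega))
        hnw (by unfold Xor; simp)
    · rcases eq_or_lt_of_le c1 with q | q
      · exact xr (lE _ r.symm) (tS r c1) (kF _ (by omega)) (rS (by omega) r q) hnw (by unfold Xor; simp)
      · exact xr (lE _ r.symm) (tS r c1) (kF _ (by omega)) (rF (by omega) (by omega) (by omega)) hnw
          (by unfold Xor; simp)
    rcases lt_trichotomy i a with r2 | r2 | r2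
    · exact xr (lT _ r) (tT' r r2) (kF _ (by omega)) (rF (by omega) (by omega) (by omega)) hnw
        (by unfold Xor; simp)
    · exact xr (lT _ r) (tA r2 (by omega)) (kF _ (by omega)) (hR2 (Or.inl r2)) hnw
        (by unfold Xor; simp)
    rcases lt_trichotomy i b with r3 | r3 | r3
    · exact xr (lT _ r) (tF (by omega) (by omega)) (kF _ (by omega))
        (iff_true_intro (hR1 (Or.inl ⟨c2, r2, r3⟩))) hnw (by unfold Xor; simp)
    · exact xr (lT _ r) (tB r3 c3) (kF _ (by omega)) (hR2 (Or.inr r3)) hnw (by unfold Xor; simp)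
    rcases lt_trichotomy i tl with r4 | r4 | r4
    · exact xr (lT _ r) (tT r3 r4) (kF _ r4) (rF (by omega) (by omega) (by omega)) hnw (by unfold Xor; simp)
    · exact xr (lT _ r) (tE r4 c3) (kE _ r4.symm) (rF (by omega) (by omega) (by omega)) hnw
        (by unfold Xor; simp)
    · exact xr (lT _ r) (tF (by omega) (by omega)) (kT _ r4) (rF (by omega) (by omega) (by omega)) hnw
        (by unfold Xor; simp)
  · have hnw : (te < tl) ↔ False := iff_false_intro (by omega)
    rcases lt_trichotomy i b with r3 | r3 | r3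
    · exact xr (lF _ (by omega)) (tF (by omega) (by omega)) (kF _ (by omega))
        (iff_true_intro (hR1 (Or.inr ⟨by omega, Or.inl r3⟩))) hnw (by unfold Xor; simp)
    · exact xr (lF _ (by omega)) (tB r3 c1) (kF _ (by omega)) (hR2 (Or.inr r3)) hnw
        (by unfold Xor; simp)
    rcases lt_trichotomy i tl with r4 | r4 | r4
    · exact xr (lF _ (by omega)) (tT r3 r4) (kF _ r4) (rF (by omega) (by omega) (by omega)) hnw
        (by unfold Xor; simp)
    · exact xr (lF _ (by omega)) (tE r4 c1) (kE _ r4.symm) (rF (by omega) (by omega) (by omega)) hnw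
        (by unfold Xor; simp)
    rcases lt_trichotomy i te with r | r | r
    · exact xr (lF _ r) (tF (by omega) (by omega)) (kT _ r4) (rF (by omega) (by omega) (by omega)) hnw
        (by unfold Xor; simp)
    · rcases eq_or_lt_of_le c3 with q | q
      · exact xr (lE _ r.symm) (tS r c3) (kT _ (by omega)) (rS (by omega) r q) hnw (by unfold Xor; simp)
      · exact xr (lE _ r.symm) (tS r c3) (kT _ (by omega)) (rF (by omega) (by omega) (by omega)) hnw
          (by unfold Xor; simp)
    rcases lt_trichotomy i a with r2 | r2 | r2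
    · exact xr (lT _ r) (tT' r r2) (kT _ r4) (rF (by omega) (by omega) (by omega)) hnw
        (by unfold Xor; simp)
    · exact xr (lT _ r) (tA r2 (by omega)) (kT _ r4) (hR2 (Or.inl r2)) hnw
        (by unfold Xor; simp)
    · exact xr (lT _ r) (tF (by omega) (by omega)) (kT _ r4)
        (iff_true_intro (hR1 (Or.inr ⟨by omega, Or.inr r2⟩))) hnw (by unfold Xor; simp)

/-- **Order of the indices**, tooth below. -/
theorem order_dn (c : (tl < b ∧ b < a ∧ a ≤ te) ∨ (a ≤ te ∧ te < tl ∧ tl < b)) (ha : Pp → te ≠ a)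
    (hna : ¬ Pp → a = te) (hR1 : Bh b a i → R) (hR2 : i = a ∨ i = b → (R ↔ Pp ∧ YF < y))
    (hR3 : R → Bh b a i ∨ i = a ∨ i = b)
    (t1 : tl ≤ i → i ≤ b → (tog ↔ ((i = tl → y ≤ t) ∧ (Pp → i = b → y ≤ YF))))
    (t2 : a ≤ i → i ≤ te → (tog ↔ ((i = te → Yc ≤ y) ∧ (Pp → i = a → y ≤ YF))))
    (t3 : tog → (tl ≤ i ∧ i ≤ b) ∨ (a ≤ i ∧ i ≤ te)) (n1 : i = tl → y ≠ t) :
    Xor (te < i ∨ (te = i ∧ y < Yc)) tog ↔ (Xor (tl < i ∨ (tl = i ∧ y < t)) R ↔ tl < te) := by
  have kF : ∀ q : Prop, i < tl → ((tl < i ∨ (tl = i ∧ q)) ↔ False) := fun q h => by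
    constructor
    · rintro (h' | ⟨h', -⟩) <;> omega
    · exact False.elim
  have kT : ∀ q : Prop, tl < i → ((tl < i ∨ (tl = i ∧ q)) ↔ True) := fun q h => by simp [h]
  have kE : ∀ q : Prop, tl = i → ((tl < i ∨ (tl = i ∧ q)) ↔ q) := fun q h => by simp [h]
  have lF : ∀ q : Prop, i < te → ((te < i ∨ (te = i ∧ q)) ↔ False) := fun q h => by
    constructor
    · rintro (h' | ⟨h', -⟩) <;> omega
    · exact False.elim
  have lT : ∀ q : Prop, te < i → ((te < i ∨ (te = i ∧ q)) ↔ True) := fun q h => by simp [h]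
  have lE : ∀ q : Prop, te = i → ((te < i ∨ (te = i ∧ q)) ↔ q) := fun q h => by simp [h]
  have tF : i < tl ∨ b < i → i < a ∨ te < i → (tog ↔ False) := by
    intro g1 g2
    refine iff_false_intro fun h => ?_
    rcases t3 h with h | h
    · omega
    · omega
  have tT : tl < i → i < b → (tog ↔ True) := fun g1 g2 => by
    rw [t1 (by omega) (by omega)]
    exact iff_true_intro ⟨fun h => by omega, fun _ h => by omega⟩
  have tT' : a < i → i < te → (tog ↔ True) := fun g1 g2 => by
    rw [t2 (by omega) (by omega)]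
    exact iff_true_intro ⟨fun h => by omega, fun _ h => by omega⟩
  have tE : i = tl → tl < b → (tog ↔ y ≤ t) := fun g1 g2 => by
    rw [t1 (by omega) (by omega)]
    exact ⟨fun h => h.1 g1, fun h => ⟨fun _ => h, fun _ h' => by omega⟩⟩
  have tB : i = b → tl < b → (tog ↔ (Pp → y ≤ YF)) := fun g1 g2 => by
    rw [t1 (by omega) (by omega)]
    exact ⟨fun h hp => h.2 hp g1, fun h => ⟨fun h' => by omega, fun hp _ => h hp⟩⟩
  have tA : i = a → a < te → (tog ↔ (Pp → y ≤ YF)) := fun g1 g2 => by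
    rw [t2 (by omega) (by omega)]
    exact ⟨fun h hp => h.2 hp g1, fun h => ⟨fun h' => by omega, fun hp _ => h hp⟩⟩
  have tS : i = te → a ≤ te → (tog ↔ Yc ≤ y) := fun g1 g2 => by
    rw [t2 (by omega) (by omega)]
    exact ⟨fun h => h.1 g1, fun h => ⟨fun _ => h, fun hp h' => absurd (g1.symm.trans h') (ha hp)⟩⟩
  have rS : i = te → a = te → (R ↔ False) := fun g1 g2 => by
    have hp : ¬ Pp := fun hp => ha hp g2.symm
    rw [hR2 (Or.inl (by omega))]
    exact iff_false_intro fun h => hp h.1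
  unfold Bh at hR1 hR3
  have rF : ∀ _ : (¬ (b < a ∧ b < i ∧ i < a) ∧ ¬ (a < b ∧ (i < a ∨ b < i))), i ≠ a → i ≠ b → (R ↔ False) := by
    intro g1 g2 g3
    refine iff_false_intro fun h => ?_
    rcases hR3 h with (h | h) | h | h
    · exact g1.1 h
    · exact g1.2 h
    · exact g2 h
    · exact g3 h
  rcases c with ⟨c1, c2, c3⟩ | ⟨c1, c2, c3⟩
  · have hnw : (tl < te) ↔ True := iff_true_intro (by omega)
    rcases lt_trichotomy i tl with r4 | r4 | r4
    · exact xr (lF _ (by omega)) (tF (by omega) (by omega)) (kF _ r4) (rF (by omega) (by omega) (by omega))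
        hnw (by unfold Xor; simp)
    · exact xr (lF _ (by omega)) (tE r4 c1) (kE _ r4.symm) (rF (by omega) (by omega) (by omega)) hnw
        (by have := n1 r4; unfold Xor; simp; omega)
    rcases lt_trichotomy i b with r3 | r3 | r3
    · exact xr (lF _ (by omega)) (tT r4 r3) (kT _ r4) (rF (by omega) (by omega) (by omega)) hnw
        (by unfold Xor; simp)
    · exact xr (lF _ (by omega)) (tB r3 c1) (kT _ r4) (hR2 (Or.inr r3)) hnw (by unfold Xor; simp)
    rcases lt_trichotomy i a with r2 | r2 | r2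
    · exact xr (lF _ (by omega)) (tF (by omega) (by omega)) (kT _ r4)
        (iff_true_intro (hR1 (Or.inl ⟨c2, r3, r2⟩))) hnw (by unfold Xor; simp)
    · rcases eq_or_lt_of_le c3 with q | q
      · exact xr (lE _ (by omega)) (tS (by omega) c3) (kT _ r4) (rS (by omega) q) hnw
          (by unfold Xor; simp; omega)
      · exact xr (lF _ (by omega)) (tA r2 q) (kT _ r4) (hR2 (Or.inl r2)) hnw (by unfold Xor; simp)
    rcases lt_trichotomy i te with r | r | r
    · exact xr (lF _ r) (tT' r2 r) (kT _ r4) (rF (by omega) (by omega) (by omega)) hnw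
        (by unfold Xor; simp)
    · exact xr (lE _ r.symm) (tS r c3) (kT _ r4) (rF (by omega) (by omega) (by omega)) hnw
        (by unfold Xor; simp; omega)
    · exact xr (lT _ r) (tF (by omega) (by omega)) (kT _ r4) (rF (by omega) (by omega) (by omega)) hnw
        (by unfold Xor; simp)
  · have hnw : (tl < te) ↔ False := iff_false_intro (by omega)
    rcases lt_trichotomy i a with r2 | r2 | r2
    · exact xr (lF _ (by omega)) (tF (by omega) (by omega)) (kF _ (by omega))
        (iff_true_intro (hR1 (Or.inr ⟨by omega, Or.inl r2⟩))) hnw (by unfold Xor; simp)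
    · rcases eq_or_lt_of_le c1 with q | q
      · exact xr (lE _ (by omega)) (tS (by omega) c1) (kF _ (by omega)) (rS (by omega) q) hnw
          (by unfold Xor; simp; omega)
      · exact xr (lF _ (by omega)) (tA r2 q) (kF _ (by omega)) (hR2 (Or.inl r2)) hnw (by unfold Xor; simp)
    rcases lt_trichotomy i te with r | r | r
    · exact xr (lF _ r) (tT' r2 r) (kF _ (by omega)) (rF (by omega) (by omega) (by omega)) hnw
        (by unfold Xor; simp)
    · exact xr (lE _ r.symm) (tS r c1) (kF _ (by omega)) (rF (by omega) (by omega) (by omega)) hnw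
        (by unfold Xor; simp; omega)
    rcases lt_trichotomy i tl with r4 | r4 | r4
    · exact xr (lT _ r) (tF (by omega) (by omega)) (kF _ r4) (rF (by omega) (by omega) (by omega)) hnw
        (by unfold Xor; simp)
    · exact xr (lT _ r) (tE r4 c3) (kE _ r4.symm) (rF (by omega) (by omega) (by omega)) hnw
        (by have := n1 r4; unfold Xor; simp; omega)
    rcases lt_trichotomy i b with r3 | r3 | r3
    · exact xr (lT _ r) (tT r4 r3) (kT _ r4) (rF (by omega) (by omega) (by omega)) hnw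
        (by unfold Xor; simp)
    · exact xr (lT _ r) (tB r3 c3) (kT _ r4) (hR2 (Or.inr r3)) hnw (by unfold Xor; simp)
    · exact xr (lT _ r) (tF (by omega) (by omega)) (kT _ r4)
        (iff_true_intro (hR1 (Or.inr ⟨by omega, Or.inr r3⟩))) hnw (by unfold Xor; simp)

end

end Pool.Agent.H78.W
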