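import Mathlib
import Pool.Agent.H78.W.VGk

set_option autoImplicit false
set_option linter.unusedVariables false
open Finset

/-! # StChd, V1: intervals of the boundary walk

`Sg T j1 j2 Φ` : the sides with index in `[j1, j2]` are those which satisfy `Φ`. -/

namespace Pool.Agent.H78.W

open Pool.Agent.H75.Perc (dir dir_cases)
open Pool.Agent.Q1.M4 (Cell PType IsSide nextSide)
open Pool.Agent.H21.FM (Shape)
open Pool.Agent.H68.W

/-- the sides with index in `[j1, j2]` -/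
def Sg (T : Shape) (j1 j2 : ℕ) (Φ : Cell → ℤ → Prop) : Prop :=
  j1 ≤ j2 ∧ j2 < T.N ∧ ∀ c k, 0 ≤ k → k < 4 → IsSide T.P.Q (c, k) →
    (Φ c k ↔ (j1 ≤ sx T.P c k ∧ sx T.P c k ≤ j2))

section

variable {T : Shape} {j1 j2 j3 j4 : ℕ} {Φ Ψ : Cell → ℤ → Prop}

lemma Sg.app (h1 : Sg T j1 j2 Φ) (h2 : Sg T j3 j4 Ψ) (h : j3 = j2 + 1) :
    Sg T j1 j4 (fun c k => Φ c k ∨ Ψ c k) := by
  obtain ⟨a1, a2, a3⟩ := h1
  obtain ⟨b1, b2, b3⟩ := h2
  refine ⟨by omega, b2, fun c k h3 h4 h5 => ?_⟩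
  simp only [a3 c k h3 h4 h5, b3 c k h3 h4 h5]
  omega

lemma Sg.iff (h1 : Sg T j1 j2 Φ) (h : ∀ c k, Φ c k ↔ Ψ c k) : Sg T j1 j2 Ψ :=
  ⟨h1.1, h1.2.1, fun c k h3 h4 h5 => (h c k).symm.trans (h1.2.2 c k h3 h4 h5)⟩

/-- **A piece of the walk.** -/
theorem Sg.chain {s : ℤ → Cell × ℤ} {u1 : ℤ} (m : ℕ)
    (hs : ∀ u, u1 ≤ u → u ≤ u1 + m → IsSide T.P.Q (s u)) (hk : ∀ u, 0 ≤ (s u).2 ∧ (s u).2 < 4)
    (hn : ∀ u, u1 ≤ u → u < u1 + m → nextSide T.P.Q (s u) = s (u + 1)) (hc : ∀ u, (s (u + 1)).1 ≠ (s u).1) :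
    Sg T (sx T.P (s u1).1 (s u1).2) (sx T.P (s (u1 + m)).1 (s (u1 + m)).2)
      (fun c k => ∃ u, u1 ≤ u ∧ u ≤ u1 + m ∧ s u = (c, k)) ∧
    ∀ u, u1 ≤ u → u ≤ u1 + m → (sx T.P (s u).1 (s u).2 : ℤ) = sx T.P (s u1).1 (s u1).2 + (u - u1) := by
  have hs' : ∀ u, u1 ≤ u → u ≤ u1 + m → IsSide T.P.Q ((s u).1, (s u).2) := hs
  have idx : ∀ j : ℕ, j ≤ m → (sx T.P (s (u1 + j)).1 (s (u1 + j)).2 : ℤ) = sx T.P (s u1).1 (s u1).2 + j := by
    intro j
    induction j with
    | zero => intro _; simp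
    | succ j ih =>
      intro hj
      have h1 := ih (by omega)
      have h2 := sx_step (S := T) (hs' (u1 + j) (by omega) (by omega)) (c2 := (s (u1 + j + 1)).1)
        (k2 := (s (u1 + j + 1)).2) (hn (u1 + j) (by omega) (by omega)) (hc _)
      push_cast
      rw [← add_assoc, h2.2.1]
      push_cast
      omega
  have idx' : ∀ u, u1 ≤ u → u ≤ u1 + m →
      (sx T.P (s u).1 (s u).2 : ℤ) = sx T.P (s u1).1 (s u1).2 + (u - u1) := by
    intro u h1 h2
    have := idx (u - u1).toNat (by omega)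
    rw [show u1 + ((u - u1).toNat : ℤ) = u by omega] at this
    rw [this]
    omega
  refine ⟨⟨?_, (sx_spec (hs' _ (by omega) le_rfl)).1, fun c k h3 h4 h5 => ?_⟩, idx'⟩
  · have := idx m le_rfl
    omega
  · constructor
    · rintro ⟨u, h6, h7, h8⟩
      have e1 : c = (s u).1 := by rw [h8]
      have e2 : k = (s u).2 := by rw [h8]
      rw [e1, e2]
      have := idx' u h6 h7
      have := idx m le_rfl
      omega
    · rintro ⟨h6, h7⟩
      have hm := idx m le_rfl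
      set u : ℤ := u1 + (sx T.P c k - sx T.P (s u1).1 (s u1).2 : ℤ) with hu
      have g1 : u1 ≤ u := by omega
      have g2 : u ≤ u1 + m := by omega
      have g3 := idx' u g1 g2
      have g4 : sx T.P (s u).1 (s u).2 = sx T.P c k := by omega
      obtain ⟨e1, e2⟩ := sx_cell (hs' u g1 g2) h5 g4
      have e3 := hk u
      refine ⟨u, g1, g2, Prod.ext e1 (by simp only; omega)⟩

end

section seg

variable {T : Shape} {X Y a b : ℤ}

/-- a right wall -/
lemma Sg.seg1 (hab : a ≤ b) (h : ∀ v, a ≤ v → v ≤ b → (X, v) ∈ T.P.Q ∧ (X + 1, v) ∉ T.P.Q) :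
    Sg T (sx T.P (X, a) 1) (sx T.P (X, b) 1) (fun c k => k = 1 ∧ c.1 = X ∧ a ≤ c.2 ∧ c.2 ≤ b) ∧
    ∀ u, a ≤ u → u ≤ b → (sx T.P (X, u) 1 : ℤ) = sx T.P (X, a) 1 + (u - a) := by
  have e : a + ((b - a).toNat : ℤ) = b := by omega
  have key := Sg.chain (T := T) (s := fun u => ((X, u), 1)) (u1 := a) (b - a).toNat
    (fun u h1 h2 => isSide1.2 (h u h1 (by omega))) (fun u => ⟨by norm_num, by norm_num⟩)
    (fun u h1 h2 => nx_st1 (h (u + 1) (by omega) (by omega)).1 (h (u + 1) (by omega) (by omega)).2)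
    (fun u => by simp)
  rw [e] at key
  refine ⟨key.1.iff fun c k => ?_, key.2⟩
  constructor
  · rintro ⟨u, h1, h2, h3⟩
    rw [Prod.mk.injEq] at h3
    rw [← h3.1]
    exact ⟨h3.2.symm, rfl, h1, h2⟩
  · rintro ⟨h1, h2, h3, h4⟩
    exact ⟨c.2, h3, h4, by rw [← h2, h1]⟩

/-- a floor -/
lemma Sg.seg0 (hab : a ≤ b) (h : ∀ v, a ≤ v → v ≤ b → (v, Y) ∈ T.P.Q ∧ (v, Y - 1) ∉ T.P.Q) :
    Sg T (sx T.P (a, Y) 0) (sx T.P (b, Y) 0) (fun c k => k = 0 ∧ c.2 = Y ∧ a ≤ c.1 ∧ c.1 ≤ b) ∧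
    ∀ u, a ≤ u → u ≤ b → (sx T.P (u, Y) 0 : ℤ) = sx T.P (a, Y) 0 + (u - a) := by
  have e : a + ((b - a).toNat : ℤ) = b := by omega
  have key := Sg.chain (T := T) (s := fun u => ((u, Y), 0)) (u1 := a) (b - a).toNat
    (fun u h1 h2 => isSide0.2 (h u h1 (by omega))) (fun u => ⟨by norm_num, by norm_num⟩)
    (fun u h1 h2 => nx_st0 (h (u + 1) (by omega) (by omega)).1 (h (u + 1) (by omega) (by omega)).2)
    (fun u => by simp)
  rw [e] at key
  refine ⟨key.1.iff fun c k => ?_, key.2⟩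
  constructor
  · rintro ⟨u, h1, h2, h3⟩
    rw [Prod.mk.injEq] at h3
    rw [← h3.1]
    exact ⟨h3.2.symm, rfl, h1, h2⟩
  · rintro ⟨h1, h2, h3, h4⟩
    exact ⟨c.1, h3, h4, by rw [← h2, h1]⟩

/-- a ceiling, from right to left -/
lemma Sg.seg2 (hab : a ≤ b) (h : ∀ v, a ≤ v → v ≤ b → (v, Y) ∈ T.P.Q ∧ (v, Y + 1) ∉ T.P.Q) :
    Sg T (sx T.P (b, Y) 2) (sx T.P (a, Y) 2) (fun c k => k = 2 ∧ c.2 = Y ∧ a ≤ c.1 ∧ c.1 ≤ b) ∧
    ∀ u, a ≤ u → u ≤ b → (sx T.P (u, Y) 2 : ℤ) = sx T.P (b, Y) 2 + (b - u) := by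
  have e : -b + ((b - a).toNat : ℤ) = -a := by omega
  have key := Sg.chain (T := T) (s := fun u => ((-u, Y), 2)) (u1 := -b) (b - a).toNat
    (fun u h1 h2 => isSide2.2 (h (-u) (by omega) (by omega))) (fun u => ⟨by norm_num, by norm_num⟩)
    (fun u h1 h2 => by
      have := h (-(u + 1)) (by omega) (by omega)
      have e : -(u + 1) = -u - 1 := by ring
      rw [e] at this ⊢
      exact nx_st2 this.1 this.2)
    (fun u => by simp)
  rw [e, neg_neg, neg_neg] at key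
  refine ⟨key.1.iff fun c k => ?_, fun u h1 h2 => ?_⟩
  · constructor
    · rintro ⟨u, h1, h2, h3⟩
      rw [Prod.mk.injEq] at h3
      rw [← h3.1]
      exact ⟨h3.2.symm, rfl, by simp only; omega, by simp only; omega⟩
    · rintro ⟨h1, h2, h3, h4⟩
      exact ⟨-c.1, by omega, by omega, by rw [neg_neg, ← h2, h1]⟩
  · have := key.2 (-u) (by omega) (by omega)
    rw [neg_neg] at this
    rw [this]
    ring

/-- a left wall, downwards -/
lemma Sg.seg3 (hab : a ≤ b) (h : ∀ v, a ≤ v → v ≤ b → (X, v) ∈ T.P.Q ∧ (X - 1, v) ∉ T.P.Q) :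
    Sg T (sx T.P (X, b) 3) (sx T.P (X, a) 3) (fun c k => k = 3 ∧ c.1 = X ∧ a ≤ c.2 ∧ c.2 ≤ b) ∧
    ∀ u, a ≤ u → u ≤ b → (sx T.P (X, u) 3 : ℤ) = sx T.P (X, b) 3 + (b - u) := by
  have e : -b + ((b - a).toNat : ℤ) = -a := by omega
  have key := Sg.chain (T := T) (s := fun u => ((X, -u), 3)) (u1 := -b) (b - a).toNat
    (fun u h1 h2 => isSide3.2 (h (-u) (by omega) (by omega))) (fun u => ⟨by norm_num, by norm_num⟩)
    (fun u h1 h2 => by
      have := h (-(u + 1)) (by omega) (by omega)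
      have e : -(u + 1) = -u - 1 := by ring
      rw [e] at this ⊢
      exact nx_st3 this.1 this.2)
    (fun u => by simp)
  rw [e, neg_neg, neg_neg] at key
  refine ⟨key.1.iff fun c k => ?_, fun u h1 h2 => ?_⟩
  · constructor
    · rintro ⟨u, h1, h2, h3⟩
      rw [Prod.mk.injEq] at h3
      rw [← h3.1]
      exact ⟨h3.2.symm, rfl, by simp only; omega, by simp only; omega⟩
    · rintro ⟨h1, h2, h3, h4⟩
      exact ⟨-c.2, by omega, by omega, by rw [neg_neg, ← h2, h1]⟩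
  · have := key.2 (-u) (by omega) (by omega)
    rw [neg_neg] at this
    rw [this]
    ring

end seg

/-- depth of a fine row in the narrow side -/
def dep (sg : Bool) (M Y0 v : ℤ) : ℤ := if sg then v - M * Y0 else M * Y0 - 1 - v

/-- fine row of depth `d` -/
def rw' (sg : Bool) (M Y0 d : ℤ) : ℤ := if sg then M * Y0 + d else M * Y0 - 1 - d

lemma dep_rw (sg : Bool) (M Y0 d : ℤ) : dep sg M Y0 (rw' sg M Y0 d) = d := by
  unfold dep rw'
  cases sg
  · simp
  · simp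

namespace Cc

variable {Q : Finset Cell} {sg P : Bool} {a0 be bt bw Y0 M : ℤ} {T : Shape}
  (C : Cc Q sg a0 be bt bw Y0 P) (hM : 1 < M) (hT : Rfn T Q M)

/-- **sides of the tooth**, up to the depth `dt` on the left, `dF` on the right -/
def ΦT (sg P : Bool) (be bt M Y0 dt dF : ℤ) (c : Cell) (k : ℤ) : Prop :=
  (k = 1 ∧ c.1 = M * be - 1 ∧ 0 ≤ dep sg M Y0 c.2 ∧ dep sg M Y0 c.2 ≤ dt) ∨
  ((k = if sg then 2 else 0) ∧ dep sg M Y0 c.2 = -1 ∧ M * be ≤ c.1 ∧ c.1 < M * bt) ∨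
  (P = true ∧ k = 3 ∧ c.1 = M * bt ∧ 0 ≤ dep sg M Y0 c.2 ∧ dep sg M Y0 c.2 ≤ dF)

/-- **sides of the right wall** from the depth `-1` to `dF` -/
def ΦW (sg : Bool) (bw M Y0 dF : ℤ) (c : Cell) (k : ℤ) : Prop :=
  k = 1 ∧ c.1 = M * bw - 1 ∧ -1 ≤ dep sg M Y0 c.2 ∧ dep sg M Y0 c.2 ≤ dF

/-- left side of the tooth -/
noncomputable def tlC (T : Shape) (sg : Bool) (M be Y0 d : ℤ) : ℕ := sx T.P (M * be - 1, rw' sg M Y0 d) 1

/-- right side of the tooth -/
noncomputable def tbC (T : Shape) (sg : Bool) (M bt Y0 d : ℤ) : ℕ := sx T.P (M * bt, rw' sg M Y0 d) 3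

/-- right wall -/
noncomputable def taC (T : Shape) (sg : Bool) (M bw Y0 d : ℤ) : ℕ := sx T.P (M * bw - 1, rw' sg M Y0 d) 1

/-- right end of the bottom of the tooth -/
noncomputable def t0C (T : Shape) (sg : Bool) (M bt Y0 : ℤ) : ℕ :=
  sx T.P (M * bt - 1, rw' sg M Y0 (-1)) (if sg then 2 else 0)

lemma te_eq : teC T sg M bw Y0 = taC T sg M bw Y0 (-1) := by
  unfold teC taC rw'
  cases sg
  · simp
  · simp only [if_true]
    rfl

/-- `j1`, `j2` in the order of the walk for `sg = true` -/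
def Sd (T : Shape) (sg : Bool) (j1 j2 : ℕ) (Φ : Cell → ℤ → Prop) : Prop :=
  if sg then Sg T j1 j2 Φ else Sg T j2 j1 Φ

include C hM hT

/-- **The tooth is one interval of the walk**, `P = false`. -/
theorem sgT0 {dt : ℤ} (h0 : 0 ≤ dt) (h1 : dt < M) :
    Sd T sg (t0C T sg M bt Y0) (tlC T sg M be Y0 dt) (ΦT sg false be bt M Y0 dt 0) := by
  obtain ⟨n1, n2, n3, n4⟩ := C.nums hM hT
  unfold Sd t0C tlC rw'
  cases sg
  · simp only [Bool.false_eq_true, if_false]
    have s1 := (Sg.seg1 (T := T) (X := M * be - 1) (a := M * Y0 - 1 - dt) (b := M * Y0 - 1) (by omega)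
      fun v g1 g2 => ⟨C.q1 hM hT (by omega) (by omega) (by omega) (by omega), by
        rw [sub_add_cancel]
        exact C.q3 hM hT le_rfl (by omega) (by simp only [Bool.false_eq_true, if_false]; omega)⟩).1
    have hb : ∀ v, M * be ≤ v → v ≤ M * bt - 1 → (v, M * Y0) ∈ T.P.Q ∧ (v, M * Y0 - 1) ∉ T.P.Q :=
      fun v g1 g2 => ⟨C.q2 hM hT (by omega) (by omega) (by simp only [Bool.false_eq_true, if_false]; omega),
        C.q3 hM hT (by omega) (by omega) (by simp only [Bool.false_eq_true, if_false]; omega)⟩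
    have s2 := (Sg.seg0 (T := T) (Y := M * Y0) (a := M * be) (b := M * bt - 1) (by omega) hb).1
    have j := sx_step (S := T) (c := (M * be - 1, M * Y0 - 1)) (k := 1) (isSide1.2
      ⟨C.q1 hM hT (by omega) (by omega) (by omega) (by omega), by
        rw [sub_add_cancel]
        exact C.q3 hM hT le_rfl (by omega) (by simp only [Bool.false_eq_true, if_false]; omega)⟩)
      (nx_rx1 (by rw [sub_add_cancel, sub_add_cancel]; exact (hb _ le_rfl (by omega)).1))
      (by intro h; rw [Prod.mk.injEq] at h; omega)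
    rw [sub_add_cancel, sub_add_cancel] at j
    rw [show M * Y0 - 1 - -1 = M * Y0 by ring]
    refine (s1.app s2 j.2.1).iff fun c k => ?_
    unfold ΦT dep
    simp only [Bool.false_eq_true, if_false, false_and, or_false]
    omega
  · simp only [if_true]
    have s1 := (Sg.seg1 (T := T) (X := M * be - 1) (a := M * Y0) (b := M * Y0 + dt) (by omega)
      fun v g1 g2 => ⟨C.q1 hM hT (by omega) (by omega) (by omega) (by omega), by
        rw [sub_add_cancel]
        exact C.q3 hM hT le_rfl (by omega) (by simp only [if_true]; omega)⟩).1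
    have hb : ∀ v, M * be ≤ v → v ≤ M * bt - 1 → (v, M * Y0 - 1) ∈ T.P.Q ∧ (v, M * Y0 - 1 + 1) ∉ T.P.Q :=
      fun v g1 g2 => ⟨C.q2 hM hT (by omega) (by omega) (by simp only [if_true]; omega),
        C.q3 hM hT (by omega) (by omega) (by simp only [if_true]; omega)⟩
    have s2 := (Sg.seg2 (T := T) (Y := M * Y0 - 1) (a := M * be) (b := M * bt - 1) (by omega) hb).1
    have j := sx_step (S := T) (c := (M * be, M * Y0 - 1)) (k := 2) (isSide2.2 (hb _ le_rfl (by omega)))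
      (nx_rx2 (by
        rw [sub_add_cancel]
        exact C.q1 hM hT (by omega) (by omega) (by omega) (by omega))) (by simp)
    rw [sub_add_cancel] at j
    rw [show M * Y0 + -1 = M * Y0 - 1 by ring]
    refine (s2.app s1 j.2.1).iff fun c k => ?_
    unfold ΦT dep
    simp only [if_true, Bool.false_eq_true, false_and, or_false]
    omega

/-- **The tooth is one interval of the walk**, `P = true`. -/
theorem sgT1 (hP : P = true) {dt dF : ℤ} (h0 : 0 ≤ dt) (h1 : dt < M) (h2 : 0 ≤ dF) (h3 : dF < M) :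
    Sd T sg (tbC T sg M bt Y0 dF) (tlC T sg M be Y0 dt) (ΦT sg true be bt M Y0 dt dF) := by
  obtain ⟨n1, n2, n3, n4⟩ := C.nums hM hT
  have n5 := n4 hP
  have s0 := C.sgT0 hM hT h0 h1
  unfold Sd t0C tlC rw' at s0
  unfold Sd tbC tlC rw'
  cases sg
  · simp only [Bool.false_eq_true, if_false] at s0 ⊢
    have hl : ∀ v, M * Y0 - 1 - dF ≤ v → v ≤ M * Y0 - 1 → (M * bt, v) ∈ T.P.Q ∧ (M * bt - 1, v) ∉ T.P.Q :=
      fun v g1 g2 => ⟨C.q4 hM hT hP le_rfl (by omega) (by simp only [Bool.false_eq_true, if_false]; omega),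
        C.q3 hM hT (by omega) (by omega) (by simp only [Bool.false_eq_true, if_false]; omega)⟩
    have s3 := (Sg.seg3 (T := T) (X := M * bt) (a := M * Y0 - 1 - dF) (b := M * Y0 - 1) (by omega) hl).1
    have j := sx_step (S := T) (c := (M * bt - 1, M * Y0)) (k := 0) (isSide0.2
      ⟨C.q2 hM hT (by omega) (by omega) (by simp only [Bool.false_eq_true, if_false]; omega),
        C.q3 hM hT (by omega) (by omega) (by simp only [Bool.false_eq_true, if_false]; omega)⟩)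
      (nx_rx0 (by rw [sub_add_cancel]; exact (hl _ (by omega) (by omega)).1)) (by simp)
    rw [sub_add_cancel, sx_mod (k := -1) (k2 := 3) (by norm_num)] at j
    rw [show M * Y0 - 1 - -1 = M * Y0 by ring] at s0
    refine (s0.app s3 j.2.1).iff fun c k => ?_
    unfold ΦT dep
    simp only [Bool.false_eq_true, if_false, false_and, or_false, true_and]
    omega
  · simp only [if_true] at s0 ⊢
    have hl : ∀ v, M * Y0 ≤ v → v ≤ M * Y0 + dF → (M * bt, v) ∈ T.P.Q ∧ (M * bt - 1, v) ∉ T.P.Q :=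
      fun v g1 g2 => ⟨C.q4 hM hT hP le_rfl (by omega) (by simp only [if_true]; omega),
        C.q3 hM hT (by omega) (by omega) (by simp only [if_true]; omega)⟩
    have s3 := (Sg.seg3 (T := T) (X := M * bt) (a := M * Y0) (b := M * Y0 + dF) (by omega) hl).1
    have j := sx_step (S := T) (c := (M * bt, M * Y0)) (k := 3) (isSide3.2 (hl _ le_rfl (by omega)))
      (nx_rx3 (C.q2 hM hT (by omega) (by omega) (by simp only [if_true]; omega))) (by simp)
    rw [show M * Y0 + -1 = M * Y0 - 1 by ring] at s0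
    refine (s3.app s0 j.2.1).iff fun c k => ?_
    unfold ΦT dep
    simp only [if_true, Bool.false_eq_true, false_and, or_false, true_and]
    omega

/-- **The right wall**, `P = true`. -/
theorem sgW1 (hP : P = true) {dF : ℤ} (h2 : 0 ≤ dF) (h3 : dF < M) :
    Sd T sg (teC T sg M bw Y0) (taC T sg M bw Y0 dF) (ΦW sg bw M Y0 dF) := by
  obtain ⟨n1, n2, n3, n4⟩ := C.nums hM hT
  rw [te_eq]
  unfold Sd taC rw'
  have hw : ∀ v, WR sg P M Y0 v → (M * bw - 1, v) ∈ T.P.Q ∧ (M * bw - 1 + 1, v) ∉ T.P.Q :=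
    fun v h => C.qW hM hT h
  unfold WR at hw
  cases sg
  · simp only [Bool.false_eq_true, if_false] at hw ⊢
    have s1 := (Sg.seg1 (T := T) (X := M * bw - 1) (a := M * Y0 - 1 - dF) (b := M * Y0) (by omega)
      fun v g1 g2 => hw v (Or.inr ⟨hP, by omega, by omega⟩)).1
    rw [show M * Y0 - 1 - -1 = M * Y0 by ring]
    refine s1.iff fun c k => ?_
    unfold ΦW dep
    simp only [Bool.false_eq_true, if_false]
    omega
  · simp only [if_true] at hw ⊢
    have s1 := (Sg.seg1 (T := T) (X := M * bw - 1) (a := M * Y0 - 1) (b := M * Y0 + dF) (by omega)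
      fun v g1 g2 => hw v (Or.inr ⟨hP, by omega, by omega⟩)).1
    rw [show M * Y0 + -1 = M * Y0 - 1 by ring]
    refine s1.iff fun c k => ?_
    unfold ΦW dep
    simp only [if_true]
    omega

/-- the corner of the tooth and the right wall, `P = false` : consecutive sides or the first mark -/
theorem corner0 (hP : P = false) :
    if sg then (t0C T sg M bt Y0 = teC T sg M bw Y0 + 1 ∨
        (teC T sg M bw Y0 = T.N - 1 ∧ t0C T sg M bt Y0 = 0))
    else (teC T sg M bw Y0 = t0C T sg M bt Y0 + 1 ∨ (t0C T sg M bt Y0 = T.N - 1 ∧ teC T sg M bw Y0 = 0)) := by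
  obtain ⟨n1, n2, n3, n4⟩ := C.nums hM hT
  have hbt := C.l4 hP
  have hbt' : M * bt = M * bw := by rw [hbt]
  unfold t0C teC rw'
  cases sg
  · simp only [Bool.false_eq_true, if_false]
    have hs : IsSide T.P.Q ((M * bt - 1, M * Y0), 0) := isSide0.2
      ⟨C.q2 hM hT (by omega) (by omega) (by simp only [Bool.false_eq_true, if_false]; omega),
        C.q3 hM hT (by omega) (by omega) (by simp only [Bool.false_eq_true, if_false]; omega)⟩
    have hnx : nextSide T.P.Q ((M * bt - 1, M * Y0), 0) = ((M * bt - 1, M * Y0), 1) := by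
      unfold nextSide
      have a1 : (M * bw, M * Y0) ∉ T.P.Q := C.q5 hM hT le_rfl (by omega) (by omega) (by omega)
      have a2 : (M * bw, M * Y0 - 1) ∉ T.P.Q := C.q5 hM hT le_rfl (by omega) (by omega) (by omega)
      rw [← hbt'] at a1 a2
      simp [dir, ← sub_eq_add_neg, a1, a2]
    obtain ⟨e, h1⟩ := sx_next hs hnx
    rw [show M * Y0 - 1 - -1 = M * Y0 by ring, ← hbt']
    rcases h1 with ⟨h5, h6⟩ | ⟨h5, h6⟩
    · exact Or.inl h6
    · have hN : T.N = T.P.N := rfl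
      exact Or.inr ⟨by omega, h6⟩
  · simp only [if_true]
    have hs : IsSide T.P.Q ((M * bw - 1, M * Y0 - 1), 1) := isSide1.2
      ⟨C.q2 hM hT (by omega) (by omega) (by simp only [if_true]; omega), by
        rw [sub_add_cancel]; exact C.q5 hM hT le_rfl (by omega) (by omega) (by omega)⟩
    have hnx : nextSide T.P.Q ((M * bw - 1, M * Y0 - 1), 1) = ((M * bw - 1, M * Y0 - 1), 2) := by
      unfold nextSide
      have a1 : (M * bw, M * Y0) ∉ T.P.Q := C.q5 hM hT le_rfl (by omega) (by omega) (by omega)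
      have a2 : (M * bw - 1, M * Y0) ∉ T.P.Q :=
        C.q3 hM hT (by omega) (by omega) (by simp only [if_true]; omega)
      simp [dir, a1, a2]
    obtain ⟨e, h1⟩ := sx_next hs hnx
    rw [show M * Y0 + -1 = M * Y0 - 1 by ring, hbt']
    rcases h1 with ⟨h5, h6⟩ | ⟨h5, h6⟩
    · exact Or.inl h6
    · have hN : T.N = T.P.N := rfl
      exact Or.inr ⟨by omega, h6⟩

end Cc

end Pool.Agent.H78.W
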