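import Mathlib
import Pool.Agent.H78.W.VGs
import Pool.Agent.H78.W.VGo
import Pool.Agent.H19.W.RSide

set_option autoImplicit false
set_option linter.unusedVariables false
open Finset

/-! # StChd, V1: the outer tiles of the tooth and of the right wall -/

namespace Pool.Agent.H78.W

open Pool.Agent.Q1.M4 (Cell PType IsSide)
open Pool.Agent.H21.FM (Shape)
open Pool.Agent.H33.Q1 (lt tt ct TL lt_odd tt_lt lt_tt lt_inj mem_TL lt_mem_TL)
open Pool.Agent.H13.W (chG)
open Pool.Agent.H58.W (plV)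
open Pool.Agent.H50.W (rf)
open Pool.Agent.H19.W (cx cy cx_lt cy_lt lt_cc Tq LamC WC sd si div3 sd_eq sd_side)
open Pool.Agent.H68.W (sx wf Cf sx_ne sx_spec isSide0 isSide1 isSide2 isSide3)

lemma div3' {n : ℤ} (hn : 2 ≤ n) (x : ℤ) :
    ((x - 1) / n = x / n ∧ (x + 1) / n = x / n) ∨
      ((x - 1) / n = x / n - 1 ∧ (x + 1) / n = x / n ∧ x = n * (x / n)) ∨
      ((x - 1) / n = x / n ∧ (x + 1) / n = x / n + 1 ∧ x = n * (x / n) + n - 1) := by
  have hn0 : 0 < n := by omega
  have a1 := Int.ediv_mul_le x hn0.ne'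
  have a2 := Int.lt_ediv_add_one_mul_self x hn0
  have b1 := Int.lt_ediv_add_one_mul_self (x - 1) hn0
  have b2 := Int.ediv_mul_le (x + 1) hn0.ne'
  rcases div3 hn x with ⟨h1, h2⟩ | ⟨h1, h2⟩ | ⟨h1, h2⟩
  · exact Or.inl ⟨h1, h2⟩
  · rw [h1] at b1
    refine Or.inr (Or.inl ⟨h1, h2, ?_⟩)
    have e1 : (x / n - 1 + 1) * n = x / n * n := by ring
    have e2 : n * (x / n) = x / n * n := by ring
    omega
  · rw [h2] at b2
    refine Or.inr (Or.inr ⟨h1, h2, ?_⟩)
    have e1 : (x / n + 1) * n = x / n * n + n := by ring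
    have e2 : n * (x / n) = x / n * n := by ring
    omega

/-- rows of the tiles of a vertical side -/
def Rws (Q : Finset Cell) (n v : ℤ) (c : Cell) : Prop :=
  v / n = c.2 ∨ (v = n * (c.2 + 1) ∧ (c.1, c.2 + 1) ∉ Q) ∨ (v = n * c.2 - 1 ∧ (c.1, c.2 - 1) ∉ Q)

/-- **Position of an outer tile, from its side.** -/
lemma sd_inv {Q : Finset Cell} {n x v : ℤ} (hn : 2 ≤ n) (hT : Tq Q n (x, v)) (h0 : ct n (x, v) ∉ Q) :
    ((sd Q n (x, v)).2 = 1 ∧ x = n * ((sd Q n (x, v)).1.1 + 1) ∧ Rws Q n v (sd Q n (x, v)).1) ∨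
    ((sd Q n (x, v)).2 = 3 ∧ x = n * (sd Q n (x, v)).1.1 - 1 ∧ Rws Q n v (sd Q n (x, v)).1) ∨
    ((sd Q n (x, v)).2 = 2 ∧ v = n * ((sd Q n (x, v)).1.2 + 1) ∧ x / n = (sd Q n (x, v)).1.1) ∨
    ((sd Q n (x, v)).2 = 0 ∧ v = n * (sd Q n (x, v)).1.2 - 1 ∧ x / n = (sd Q n (x, v)).1.1) := by
  rw [Pool.Agent.H19.W.Tq_iff] at hT
  have h0' : (x / n, v / n) ∉ Q := h0
  have ne : ∀ {a b c d : ℤ}, (a, b) ∈ Q → (c, d) ∉ Q → ¬ (a = c ∧ b = d) := by
    rintro a b c d h1 h2 ⟨rfl, rfl⟩
    exact h2 h1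
  have hx := div3' hn x
  have hv := div3' hn v
  unfold Rws
  rw [sd_eq]
  have er1 : ∀ X : ℤ, n * (X - 1 + 1) = n * X := fun X => by ring
  have er2 : ∀ X : ℤ, n * (X + 1) = n * X + n := fun X => by ring
  split_ifs with c1 c2 c3 c4 c5 c6 c7
  · have e := ne c1 h0'
    left
    simp only
    rcases hx with ⟨g1, g2⟩ | ⟨g1, g2, g3⟩ | ⟨g1, g2, g3⟩
    · exact absurd ⟨g1, rfl⟩ e
    · rw [g1, er1]
      exact ⟨trivial, g3, Or.inl trivial⟩
    · exact absurd ⟨g1, rfl⟩ e
  · have e := ne c2 h0'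
    right; left
    simp only
    rcases hx with ⟨g1, g2⟩ | ⟨g1, g2, g3⟩ | ⟨g1, g2, g3⟩
    · exact absurd ⟨g2, rfl⟩ e
    · exact absurd ⟨g2, rfl⟩ e
    · rw [g2, er2]
      exact ⟨trivial, g3, Or.inl trivial⟩
  · have e := ne c3 h0'
    right; right; left
    simp only
    rcases hv with ⟨g1, g2⟩ | ⟨g1, g2, g3⟩ | ⟨g1, g2, g3⟩
    · exact absurd ⟨rfl, g1⟩ e
    · rw [g1, er1]
      exact ⟨trivial, g3, trivial⟩
    · exact absurd ⟨rfl, g1⟩ e
  · have e := ne c4 h0'
    right; right; right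
    simp only
    rcases hv with ⟨g1, g2⟩ | ⟨g1, g2, g3⟩ | ⟨g1, g2, g3⟩
    · exact absurd ⟨rfl, g2⟩ e
    · exact absurd ⟨rfl, g2⟩ e
    · rw [g2, er2]
      exact ⟨trivial, g3, trivial⟩
  · have e := ne c5 c3
    have e' := ne c5 c1
    left
    simp only
    rcases hx with ⟨g1, g2⟩ | ⟨g1, g2, g3⟩ | ⟨g1, g2, g3⟩
    · exact absurd ⟨g1, rfl⟩ e
    · rcases hv with ⟨k1, k2⟩ | ⟨k1, k2, k3⟩ | ⟨k1, k2, k3⟩
      · exact absurd ⟨rfl, k1⟩ e'
      · rw [g1, k1, er1, er1, sub_add_cancel]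
        rw [g1] at c1
        exact ⟨trivial, g3, Or.inr (Or.inl ⟨k3, c1⟩)⟩
      · exact absurd ⟨rfl, k1⟩ e'
    · exact absurd ⟨g1, rfl⟩ e
  · have e := ne c6 c4
    have e' := ne c6 c1
    left
    simp only
    rcases hx with ⟨g1, g2⟩ | ⟨g1, g2, g3⟩ | ⟨g1, g2, g3⟩
    · exact absurd ⟨g1, rfl⟩ e
    · rcases hv with ⟨k1, k2⟩ | ⟨k1, k2, k3⟩ | ⟨k1, k2, k3⟩
      · exact absurd ⟨rfl, k2⟩ e'
      · exact absurd ⟨rfl, k2⟩ e'
      · rw [g1, k2, er1, add_sub_cancel_right]
        rw [g1] at c1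
        exact ⟨trivial, g3, Or.inr (Or.inr ⟨by rw [er2]; exact k3, c1⟩)⟩
    · exact absurd ⟨g1, rfl⟩ e
  · have e := ne c7 c3
    have e' := ne c7 c2
    right; left
    simp only
    rcases hx with ⟨g1, g2⟩ | ⟨g1, g2, g3⟩ | ⟨g1, g2, g3⟩
    · exact absurd ⟨g2, rfl⟩ e
    · exact absurd ⟨g2, rfl⟩ e
    · rcases hv with ⟨k1, k2⟩ | ⟨k1, k2, k3⟩ | ⟨k1, k2, k3⟩
      · exact absurd ⟨rfl, k1⟩ e'
      · rw [g2, k1, er2, er1, sub_add_cancel]
        rw [g2] at c2
        exact ⟨trivial, g3, Or.inr (Or.inl ⟨k3, c2⟩)⟩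
      · exact absurd ⟨rfl, k1⟩ e'
  · have c8 : ((x + 1) / n, (v + 1) / n) ∈ Q := by tauto
    have e := ne c8 c4
    have e' := ne c8 c2
    right; left
    simp only
    rcases hx with ⟨g1, g2⟩ | ⟨g1, g2, g3⟩ | ⟨g1, g2, g3⟩
    · exact absurd ⟨g2, rfl⟩ e
    · exact absurd ⟨g2, rfl⟩ e
    · rcases hv with ⟨k1, k2⟩ | ⟨k1, k2, k3⟩ | ⟨k1, k2, k3⟩
      · exact absurd ⟨rfl, k2⟩ e'
      · exact absurd ⟨rfl, k2⟩ e'
      · rw [g2, k2, er2, add_sub_cancel_right]
        rw [g2] at c2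
        exact ⟨trivial, g3, Or.inr (Or.inr ⟨by rw [er2]; exact k3, c2⟩)⟩

lemma sd_k {Q : Finset Cell} {n x v : ℤ} (hn : 2 ≤ n) (hT : Tq Q n (x, v)) (h0 : ct n (x, v) ∉ Q) :
    0 ≤ (sd Q n (x, v)).2 ∧ (sd Q n (x, v)).2 < 4 := by
  rcases sd_inv hn hT h0 with ⟨h, -⟩ | ⟨h, -⟩ | ⟨h, -⟩ | ⟨h, -⟩ <;> rw [h] <;> norm_num

/-- fine row of a tile row, by its depth -/
lemma row_dep {sg : Bool} {n M Y0 y : ℤ} (hn : 0 < n) :
    ry sg y / n = rw' sg M Y0 ((y - yc sg (n * M) Y0) / n) := by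
  have := off_row (sg := sg) (M := M) (Y0 := Y0) (y := y) hn
  rw [← ry_div hn] at this
  unfold rw'
  cases sg
  · simp only [ry_false, Bool.false_eq_true, if_false] at this ⊢
    omega
  · simp only [ry_true, if_true] at this ⊢
    omega

lemma dep_row {sg : Bool} {n M Y0 y : ℤ} (hn : 0 < n) :
    dep sg M Y0 (ry sg y / n) = (y - yc sg (n * M) Y0) / n := by
  rw [row_dep (M := M) (Y0 := Y0) hn, dep_rw]

/-- depth of the fine row of the tile row `v` of the polygon -/
lemma dep_row' {sg : Bool} {n M Y0 v : ℤ} (hn : 0 < n) :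
    dep sg M Y0 (v / n) = (ry sg v - yc sg (n * M) Y0) / n := by
  have := dep_row (sg := sg) (M := M) (Y0 := Y0) (y := ry sg v) hn
  rwa [ry_ry] at this

namespace PicD

variable {S : Shape} {aL b : ℤ} {N M' h : ℕ} {hM : 0 < N * M'} {sg P : Bool} {a0 be bt bw Y0 k0 : ℤ}
  (D : PicD S aL b N M' h hM sg P a0 be bt bw Y0 k0)
include D

/-- **Tiles of the sides of the tooth.** -/
theorem pos_T {x y dt dF : ℤ} (hT : Tq (rf S (N * M') hM).P.Q (2 * h) (x, ry sg y))
    (h0 : ct (2 * (h : ℤ)) (x, ry sg y) ∉ (rf S (N * M') hM).P.Q) (t0 : 0 ≤ dt) (t1 : dt + 1 < N * M')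
    (f0 : 0 ≤ dF) (f1 : dF + 1 < N * M')
    (hΦ : Cc.ΦT sg P be bt (N * M') Y0 dt dF (sd (rf S (N * M') hM).P.Q (2 * h) (x, ry sg y)).1
      (sd (rf S (N * M') hM).P.Q (2 * h) (x, ry sg y)).2) :
    (x = 2 * h * (N * M') * be ∧ 0 ≤ (y - yc sg (2 * h * (N * M')) Y0) / (2 * (h : ℤ)) ∧
      (y - yc sg (2 * h * (N * M')) Y0) / (2 * (h : ℤ)) ≤ dt ∧
      sd (rf S (N * M') hM).P.Q (2 * h) (x, ry sg y) = ((N * M' * be - 1, ry sg y / (2 * (h : ℤ))), 1)) ∨
    (y = yc sg (2 * h * (N * M')) Y0 ∧ 2 * h * (N * M') * be ≤ x ∧ x < 2 * h * (N * M') * bt ∧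
      (sd (rf S (N * M') hM).P.Q (2 * h) (x, ry sg y)).2 = (if sg then 2 else 0)) ∨
    (P = true ∧ x = 2 * h * (N * M') * bt - 1 ∧ 0 ≤ (y - yc sg (2 * h * (N * M')) Y0) / (2 * (h : ℤ)) ∧
      (y - yc sg (2 * h * (N * M')) Y0) / (2 * (h : ℤ)) ≤ dF ∧
      sd (rf S (N * M') hM).P.Q (2 * h) (x, ry sg y) = ((N * M' * bt, ry sg y / (2 * (h : ℤ))), 3)) := by
  have hn : (2 : ℤ) ≤ 2 * h := by have := D.n4; omega
  have hn0 : (0 : ℤ) < 2 * h := by omega
  have hm := D.m1
  have hTT := rfn S hM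
  have hC := D.C
  obtain ⟨f1', f2, f3, f4⟩ := hC.nums hm hTT
  have key := sd_inv hn hT h0
  have hdr : ∀ c2 : ℤ, ry sg y / (2 * (h : ℤ)) = c2 →
      dep sg (N * M') Y0 c2 = (y - yc sg (2 * h * (N * M')) Y0) / (2 * (h : ℤ)) := by
    intro c2 hc
    rw [← hc, dep_row hn0]
  generalize sd (rf S (N * M') hM).P.Q (2 * h) (x, ry sg y) = s at *
  obtain ⟨⟨c1, c2⟩, k⟩ := s
  simp only at key hΦ ⊢
  unfold Cc.ΦT at hΦ
  rcases hΦ with ⟨g1, g2, g3, g4⟩ | ⟨g1, g2, g3, g4⟩ | ⟨gP, g1, g2, g3, g4⟩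
  · left
    simp only at g1 g2 g3 g4
    subst g1 g2
    rcases key with ⟨-, k2, k3⟩ | ⟨k1, -⟩ | ⟨k1, -⟩ | ⟨k1, -⟩
    · have hx : x = 2 * h * (N * M') * be := by rw [k2]; ring
      have hr : ry sg y / (2 * (h : ℤ)) = c2 := by
        rcases k3 with k3 | ⟨-, k3⟩ | ⟨-, k3⟩
        · exact k3
        · exfalso
          refine k3 (hC.q1 hm hTT (by omega) (by omega) ?_ ?_)
          · unfold dep at g3 g4
            cases sg
            · simp only [Bool.false_eq_true, if_false] at g3 g4; omega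
            · simp only [if_true] at g3 g4; omega
          · unfold dep at g3 g4
            cases sg
            · simp only [Bool.false_eq_true, if_false] at g3 g4; omega
            · simp only [if_true] at g3 g4; omega
        · exfalso
          refine k3 (hC.q1 hm hTT (by omega) (by omega) ?_ ?_)
          · unfold dep at g3 g4
            cases sg
            · simp only [Bool.false_eq_true, if_false] at g3 g4; omega
            · simp only [if_true] at g3 g4; omega
          · unfold dep at g3 g4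
            cases sg
            · simp only [Bool.false_eq_true, if_false] at g3 g4; omega
            · simp only [if_true] at g3 g4; omega
      have := hdr c2 hr
      exact ⟨hx, by omega, by omega, by rw [hr]⟩
    · norm_num at k1
    · norm_num at k1
    · norm_num at k1
  · right; left
    simp only at g1 g2 g3 g4
    subst g1
    unfold dep at g2
    have hxx : x / (2 * (h : ℤ)) = c1 → 2 * h * (N * M') * be ≤ x ∧ x < 2 * h * (N * M') * bt := by
      intro hx
      have a1 := Int.ediv_mul_le x hn0.ne'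
      have a2 := Int.lt_ediv_add_one_mul_self x hn0
      rw [hx] at a1 a2
      constructor
      · nlinarith
      · nlinarith
    cases sg
    · simp only [Bool.false_eq_true, if_false] at g2 key ⊢
      rcases key with ⟨k1, -⟩ | ⟨k1, -⟩ | ⟨k1, -⟩ | ⟨-, k2, k3⟩
      · norm_num at k1
      · norm_num at k1
      · norm_num at k1
      · refine ⟨?_, (hxx k3).1, (hxx k3).2, trivial⟩
        unfold yc
        have : c2 = N * M' * Y0 := by omega
        rw [this] at k2
        simp only [ry_false, Bool.false_eq_true, if_false] at k2 ⊢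
        linarith
    · simp only [if_true] at g2 key ⊢
      rcases key with ⟨k1, -⟩ | ⟨k1, -⟩ | ⟨-, k2, k3⟩ | ⟨k1, -⟩
      · norm_num at k1
      · norm_num at k1
      · refine ⟨?_, (hxx k3).1, (hxx k3).2, trivial⟩
        unfold yc
        have : c2 = N * M' * Y0 - 1 := by omega
        rw [this] at k2
        simp only [ry_true, if_true] at k2 ⊢
        linarith
      · norm_num at k1
  · right; right
    simp only at g1 g2 g3 g4
    subst g1 g2
    have f5 := f4 gP
    rcases key with ⟨k1, -⟩ | ⟨-, k2, k3⟩ | ⟨k1, -⟩ | ⟨k1, -⟩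
    · norm_num at k1
    · have hx : x = 2 * h * (N * M') * bt - 1 := by rw [k2]; ring
      have hin : ∀ v, -1 ≤ dep sg (N * M') Y0 v → dep sg (N * M') Y0 v < N * M' →
          ((N * M' * bt : ℤ), v) ∈ (rf S (N * M') hM).P.Q := by
        intro v w1 w2
        rcases lt_or_ge (dep sg (N * M') Y0 v) 0 with w3 | w3
        · refine hC.q2 hm hTT (by omega) (by omega) ?_
          unfold dep at w1 w2 w3
          cases sg
          · simp only [Bool.false_eq_true, if_false] at w1 w2 w3 ⊢; omega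
          · simp only [if_true] at w1 w2 w3 ⊢; omega
        · refine hC.q4 hm hTT gP le_rfl (by omega) ?_
          unfold dep at w1 w2 w3
          cases sg
          · simp only [Bool.false_eq_true, if_false] at w1 w2 w3 ⊢; omega
          · simp only [if_true] at w1 w2 w3 ⊢; omega
      have hr : ry sg y / (2 * (h : ℤ)) = c2 := by
        rcases k3 with k3 | ⟨-, k3⟩ | ⟨-, k3⟩
        · exact k3
        · exfalso
          refine k3 (hin _ ?_ ?_)
          · unfold dep at g3 g4 ⊢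
            cases sg
            · simp only [Bool.false_eq_true, if_false] at g3 g4 ⊢; omega
            · simp only [if_true] at g3 g4 ⊢; omega
          · unfold dep at g3 g4 ⊢
            cases sg
            · simp only [Bool.false_eq_true, if_false] at g3 g4 ⊢; omega
            · simp only [if_true] at g3 g4 ⊢; omega
        · exfalso
          refine k3 (hin _ ?_ ?_)
          · unfold dep at g3 g4 ⊢
            cases sg
            · simp only [Bool.false_eq_true, if_false] at g3 g4 ⊢; omega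
            · simp only [if_true] at g3 g4 ⊢; omega
          · unfold dep at g3 g4 ⊢
            cases sg
            · simp only [Bool.false_eq_true, if_false] at g3 g4 ⊢; omega
            · simp only [if_true] at g3 g4 ⊢; omega
      have := hdr c2 hr
      exact ⟨gP, hx, by omega, by omega, by rw [hr]⟩
    · norm_num at k1
    · norm_num at k1

/-- **Tiles of the right wall.** -/
theorem pos_W {x y dF : ℤ} (hT : Tq (rf S (N * M') hM).P.Q (2 * h) (x, ry sg y))
    (h0 : ct (2 * (h : ℤ)) (x, ry sg y) ∉ (rf S (N * M') hM).P.Q)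
    (hd : (P = true ∧ 0 ≤ dF ∧ dF + 1 < N * M') ∨ (P = false ∧ dF = -1))
    (hΦ : Cc.ΦW sg bw (N * M') Y0 dF (sd (rf S (N * M') hM).P.Q (2 * h) (x, ry sg y)).1
      (sd (rf S (N * M') hM).P.Q (2 * h) (x, ry sg y)).2) :
    x = 2 * h * (N * M') * bw ∧ ((-1 ≤ (y - yc sg (2 * h * (N * M')) Y0) / (2 * (h : ℤ)) ∧
      (y - yc sg (2 * h * (N * M')) Y0) / (2 * (h : ℤ)) ≤ dF ∧
      sd (rf S (N * M') hM).P.Q (2 * h) (x, ry sg y) = ((N * M' * bw - 1, ry sg y / (2 * (h : ℤ))), 1)) ∨
      (P = false ∧ y = yc sg (2 * h * (N * M')) Y0)) := by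
  have hn : (2 : ℤ) ≤ 2 * h := by have := D.n4; omega
  have hn0 : (0 : ℤ) < 2 * h := by omega
  have hm := D.m1
  have hm64 := D.mm
  have hTT := rfn S hM
  have hC := D.C
  obtain ⟨f1', f2, f3, f4⟩ := hC.nums hm hTT
  have key := sd_inv hn hT h0
  have hdr : ∀ c2 : ℤ, ry sg y / (2 * (h : ℤ)) = c2 →
      dep sg (N * M') Y0 c2 = (y - yc sg (2 * h * (N * M')) Y0) / (2 * (h : ℤ)) := by
    intro c2 hc
    rw [← hc, dep_row hn0]
  generalize sd (rf S (N * M') hM).P.Q (2 * h) (x, ry sg y) = s at *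
  obtain ⟨⟨c1, c2⟩, k⟩ := s
  simp only at key hΦ ⊢
  unfold Cc.ΦW at hΦ
  obtain ⟨g1, g2, g3, g4⟩ := hΦ
  simp only at g1 g2 g3 g4
  subst g1 g2
  rcases key with ⟨-, k2, k3⟩ | ⟨k1, -⟩ | ⟨k1, -⟩ | ⟨k1, -⟩
  · have hx : x = 2 * h * (N * M') * bw := by rw [k2]; ring
    refine ⟨hx, ?_⟩
    have hin : ∀ v, -2 ≤ dep sg (N * M') Y0 v → dep sg (N * M') Y0 v < N * M' →
        (dep sg (N * M') Y0 v < 0 ∨ P = true) →
        ((N * M' * bw - 1 : ℤ), v) ∈ (rf S (N * M') hM).P.Q := by
      intro v w1 w2 w3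
      rcases lt_or_ge (dep sg (N * M') Y0 v) 0 with w4 | w4
      · refine hC.q2 hm hTT (by omega) (by omega) ?_
        unfold dep at w1 w2 w4
        cases sg
        · simp only [Bool.false_eq_true, if_false] at w1 w2 w4 ⊢; omega
        · simp only [if_true] at w1 w2 w4 ⊢; omega
      · have hP : P = true := by
          rcases w3 with w3 | w3
          · omega
          · exact w3
        have f5 := f4 hP
        refine hC.q4 hm hTT hP (by omega) (by omega) ?_
        unfold dep at w1 w2 w4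
        cases sg
        · simp only [Bool.false_eq_true, if_false] at w1 w2 w4 ⊢; omega
        · simp only [if_true] at w1 w2 w4 ⊢; omega
    rcases k3 with k3 | ⟨k3', k3⟩ | ⟨k3', k3⟩
    · have := hdr c2 k3
      exact Or.inl ⟨by omega, by omega, by rw [k3]⟩
    · cases sg
      · exfalso
        refine k3 (hin _ ?_ ?_ ?_)
        · unfold dep at g3 g4 ⊢; simp only [Bool.false_eq_true, if_false] at g3 g4 ⊢; omega
        · unfold dep at g3 g4 ⊢; simp only [Bool.false_eq_true, if_false] at g3 g4 ⊢; omega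
        · unfold dep at g3 g4 ⊢; simp only [Bool.false_eq_true, if_false] at g3 g4 ⊢
          rcases hd with ⟨hP, -⟩ | ⟨-, h⟩
          · exact Or.inr hP
          · left; omega
      · by_cases hP : P = true
        · exfalso
          refine k3 (hin _ ?_ ?_ (Or.inr hP))
          · unfold dep at g3 g4 ⊢; simp only [if_true] at g3 g4 ⊢; omega
          · unfold dep at g3 g4 ⊢; simp only [if_true] at g3 g4 ⊢; omega
        · right
          have hP' : P = false := by simpa using hP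
          have hdF : dF = -1 := by
            rcases hd with ⟨h, -⟩ | ⟨-, h⟩
            · exact absurd h hP
            · exact h
          unfold dep at g3 g4
          simp only [if_true] at g3 g4
          have : c2 + 1 = N * M' * Y0 := by omega
          rw [this] at k3'
          unfold yc
          simp only [ry_true, if_true] at k3' ⊢
          exact ⟨hP', by rw [k3']; ring⟩
    · cases sg
      · by_cases hP : P = true
        · exfalso
          refine k3 (hin _ ?_ ?_ (Or.inr hP))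
          · unfold dep at g3 g4 ⊢; simp only [Bool.false_eq_true, if_false] at g3 g4 ⊢; omega
          · unfold dep at g3 g4 ⊢; simp only [Bool.false_eq_true, if_false] at g3 g4 ⊢; omega
        · right
          have hP' : P = false := by simpa using hP
          have hdF : dF = -1 := by
            rcases hd with ⟨h, -⟩ | ⟨-, h⟩
            · exact absurd h hP
            · exact h
          unfold dep at g3 g4
          simp only [Bool.false_eq_true, if_false] at g3 g4
          have : c2 = N * M' * Y0 := by omega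
          rw [this] at k3'
          unfold yc
          simp only [ry_false, Bool.false_eq_true, if_false] at k3' ⊢
          refine ⟨hP', ?_⟩
          linarith
      · exfalso
        refine k3 (hin _ ?_ ?_ ?_)
        · unfold dep at g3 g4 ⊢; simp only [if_true] at g3 g4 ⊢; omega
        · unfold dep at g3 g4 ⊢; simp only [if_true] at g3 g4 ⊢; omega
        · unfold dep at g3 g4 ⊢; simp only [if_true] at g3 g4 ⊢
          rcases hd with ⟨hP, -⟩ | ⟨-, h⟩
          · exact Or.inr hP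
          · left; omega
  · norm_num at k1
  · norm_num at k1
  · norm_num at k1

/-! ### The side of the tiles of the tooth and of the wall -/

lemma sd_TA {y : ℤ} (h3 : yc sg (2 * h * (N * M')) Y0 ≤ y)
    (h4 : y < yc sg (2 * h * (N * M')) Y0 + 2 * h * (N * M')) :
    sd (rf S (N * M') hM).P.Q (2 * h) (2 * h * (N * M') * be, ry sg y) =
      ((N * M' * be - 1, ry sg y / (2 * (h : ℤ))), 1) := by
  have hL := D.L4
  obtain ⟨n1, n2, n3, n4⟩ := D.nums
  rw [sd_A D.h0 (D.C.f1 (by omega) (by omega) (by omega) (by omega) (by omega))]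
  unfold ct
  simp only
  rw [D.col1 be]

lemma sd_TC (hP : P = true) {y : ℤ} (h3 : yc sg (2 * h * (N * M')) Y0 ≤ y)
    (h4 : y < yc sg (2 * h * (N * M')) Y0 + 2 * h * (N * M')) :
    sd (rf S (N * M') hM).P.Q (2 * h) (2 * h * (N * M') * bt - 1, ry sg y) =
      ((N * M' * bt, ry sg y / (2 * (h : ℤ))), 3) := by
  have hL := D.L4
  obtain ⟨n1, n2, n3, n4⟩ := D.nums
  have n5 := n4 hP
  rw [sd_C D.h0 (D.C.f3 (by omega) (by omega) (by omega) (by omega) (by omega))
    (D.C.f4 (by omega) hP (by omega) (by omega) (by omega) (by omega))]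
  unfold ct
  simp only
  rw [sub_add_cancel, D.col0 bt]

lemma sd_TB {x : ℤ} (h1 : 2 * h * (N * M') * be < x) (h2 : x < 2 * h * (N * M') * bt)
    (hx : ¬ (P = true ∧ x = 2 * h * (N * M') * bt - 1)) :
    sd (rf S (N * M') hM).P.Q (2 * h) (x, ry sg (yc sg (2 * h * (N * M')) Y0)) =
      ((x / (2 * (h : ℤ)), rw' sg (N * M') Y0 (-1)), if sg then 2 else 0) := by
  have hL := D.L4
  have hL0 : (0 : ℤ) < 2 * h * (N * M') := by omega
  have hC := D.C
  obtain ⟨n1, n2, n3, n4⟩ := D.nums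
  have hnl : ¬ InV S.P.Q sg (2 * h * (N * M')) (x - 1) (yc sg (2 * h * (N * M')) Y0) :=
    hC.f3 hL0 (by omega) (by omega) (by omega) (by omega)
  have hnr : ¬ InV S.P.Q sg (2 * h * (N * M')) (x + 1) (yc sg (2 * h * (N * M')) Y0) := by
    rcases lt_or_ge (x + 1) (2 * h * (N * M') * bt) with h6 | h6
    · exact hC.f3 hL0 (by omega) h6 (by omega) (by omega)
    · have hP' : P = false := by
        by_contra h
        exact hx ⟨by simpa using h, by omega⟩
      have := hC.l4 hP'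
      rw [this] at h6 h2
      exact hC.f5 hL0 (by omega) (by omega) (by omega) (by omega)
  rw [sd_B D.h0 hnl hnr (hC.f2 hL0 (by omega) (by omega) (by omega) (by omega))
    (hC.f3 hL0 (by omega) h2 (by omega) (by omega))]
  unfold ct rw'
  simp only
  rw [D.row1]
  cases sg
  · simp only [Bool.false_eq_true, if_false]
    rw [show (N : ℤ) * M' * Y0 - 1 - -1 = N * M' * Y0 by ring]
  · simp only [if_true]
    rfl

lemma sd_W {y : ℤ} (h1 : yc sg (2 * h * (N * M')) Y0 - 2 * h * (N * M') ≤ y)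
    (h2 : y < yc sg (2 * h * (N * M')) Y0 + 2 * h * (N * M'))
    (h3 : y < yc sg (2 * h * (N * M')) Y0 ∨ P = true) :
    sd (rf S (N * M') hM).P.Q (2 * h) (2 * h * (N * M') * bw, ry sg y) =
      ((N * M' * bw - 1, ry sg y / (2 * (h : ℤ))), 1) := by
  have hL0 : (0 : ℤ) < 2 * h * (N * M') := by have := D.L4; omega
  have hC := D.C
  obtain ⟨n1, n2, n3, n4⟩ := D.nums
  have hin : InV S.P.Q sg (2 * h * (N * M')) (2 * h * (N * M') * bw - 1) y := by
    rcases lt_or_ge y (yc sg (2 * h * (N * M')) Y0) with h4 | h4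
    · exact hC.f2 hL0 (by omega) (by omega) h1 h4
    · have hP : P = true := by
        rcases h3 with h3 | h3
        · omega
        · exact h3
      have n5 := n4 hP
      exact hC.f4 hL0 hP (by omega) (by omega) h4 h2
  rw [sd_A D.h0 hin]
  unfold ct
  simp only
  rw [D.col1 bw]

end PicD

end Pool.Agent.H78.W
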