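import Mathlib
import Pool.Agent.H78.W.VGt
import Pool.Agent.H78.W.VGq

set_option autoImplicit false
set_option linter.unusedVariables false
open Finset

/-! # StChd, V1: the outer tiles between the two exits

`PicD.tog_iff` : the outer tiles `tog` between the exits `(xw, Yc - 1)` and `(xe, t)`, in terms of the indices of
the boundary walk. -/

namespace Pool.Agent.H78.W

open Pool.Agent.Q1.M4 (Cell PType IsSide)
open Pool.Agent.H21.FM (Shape)
open Pool.Agent.H33.Q1 (lt tt ct TL lt_odd tt_lt lt_tt lt_inj mem_TL lt_mem_TL)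
open Pool.Agent.H13.W (chG)
open Pool.Agent.H58.W (plV)
open Pool.Agent.H50.W (rf)
open Pool.Agent.H19.W (cx cy cx_lt cy_lt lt_cc Tq LamC WC sd si div3 sd_eq sd_side Bh)
open Pool.Agent.H68.W (sx wf Cf sx_ne sx_spec isSide0 isSide1 isSide2 isSide3)

/-- the flipped part: the sides `i` behind the row `YF` (`a` right, `b` left side of this row) -/
def RrC (sg : Bool) (a b i : ℕ) (up : Prop) : Prop :=
  (if sg then Bh a b i else Bh b a i) ∨ ((i = a ∨ i = b) ∧ up)

/-- right end of the flipped part -/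
noncomputable def taX (T : Shape) (sg P : Bool) (M bw Y0 d : ℤ) : ℕ :=
  if P then Cc.taC T sg M bw Y0 d else teC T sg M bw Y0

/-- left end of the flipped part -/
noncomputable def tbX (T : Shape) (sg P : Bool) (M bt Y0 d : ℤ) : ℕ :=
  if P then Cc.tbC T sg M bt Y0 d else Cc.t0C T sg M bt Y0

/-- depth of the row `YF`, resp. `-1` -/
def dX (P : Bool) (M : ℤ) : ℤ := if P then M / 2 else -1

/-- **no vertex 0 between the exits** -/
def nwC (T : Shape) (sg : Bool) (M be bw Y0 d : ℤ) : Prop :=
  if sg then teC T sg M bw Y0 < Cc.tlC T sg M be Y0 d else Cc.tlC T sg M be Y0 d < teC T sg M bw Y0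

namespace Cc

variable {Q : Finset Cell} {sg P : Bool} {a0 be bt bw Y0 M : ℤ} {T : Shape}
  (C : Cc Q sg a0 be bt bw Y0 P) (hM : 2 < M) (hT : Rfn T Q M)
include C hM hT

/-- the tooth -/
lemma sgT {dt : ℤ} (h0 : 0 ≤ dt) (h1 : dt < M) : Sd T sg (tbX T sg P M bt Y0 (dX P M))
    (tlC T sg M be Y0 dt) (ΦT sg P be bt M Y0 dt (dX P M)) := by
  have hM1 : 1 < M := by omega
  unfold tbX dX
  cases P
  · simp only [Bool.false_eq_true, if_false]
    have := C.sgT0 hM1 hT h0 h1
    have e : ∀ c k, ΦT sg false be bt M Y0 dt 0 c k ↔ ΦT sg false be bt M Y0 dt (-1) c k := by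
      intro c k
      unfold ΦT
      simp only [Bool.false_eq_true, false_and, or_false]
    unfold Sd at this ⊢
    cases sg
    · simp only [Bool.false_eq_true, if_false] at this ⊢
      exact this.iff e
    · simp only [if_true] at this ⊢
      exact this.iff e
  · simp only [if_true]
    exact C.sgT1 hM1 hT rfl h0 h1 (by omega) (by omega)

/-- the right wall -/
lemma sgW : Sd T sg (teC T sg M bw Y0) (taX T sg P M bw Y0 (dX P M)) (ΦW sg bw M Y0 (dX P M)) := by
  have hM1 : 1 < M := by omega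
  unfold taX dX
  cases P
  · simp only [Bool.false_eq_true, if_false]
    have hw := C.te_side hM1 hT
    have key : Sg T (teC T sg M bw Y0) (teC T sg M bw Y0) (ΦW sg bw M Y0 (-1)) := by
      unfold teC
      have s1 := (Sg.seg1 (T := T) (X := M * bw - 1) (a := if sg then M * Y0 - 1 else M * Y0)
        (b := if sg then M * Y0 - 1 else M * Y0) le_rfl
        fun v g1 g2 => by
          have : v = if sg then M * Y0 - 1 else M * Y0 := by omega
          rw [this]
          exact isSide1.1 hw).1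
      refine s1.iff fun c k => ?_
      unfold ΦW dep
      cases sg
      · simp only [Bool.false_eq_true, if_false]; omega
      · simp only [if_true]; omega
    unfold Sd
    cases sg
    · simp only [Bool.false_eq_true, if_false]; exact key
    · simp only [if_true]; exact key
  · simp only [if_true]
    exact C.sgW1 hM1 hT rfl (by omega) (by omega)

lemma tl_side {d : ℤ} (h0 : 0 ≤ d) (h1 : d < M) : IsSide T.P.Q ((M * be - 1, rw' sg M Y0 d), 1) := by
  refine C.left_side (by omega) hT ?_
  unfold rw'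
  cases sg
  · simp only [Bool.false_eq_true, if_false]; omega
  · simp only [if_true]; omega

lemma tb_side (hP : P = true) {d : ℤ} (h0 : 0 ≤ d) (h1 : d < M) :
    IsSide T.P.Q ((M * bt, rw' sg M Y0 d), 3) := by
  have hM1 : 1 < M := by omega
  obtain ⟨n1, n2, n3, n4⟩ := C.nums hM1 hT
  have n5 := n4 hP
  unfold rw'
  cases sg
  · exact isSide3.2 ⟨C.q4 hM1 hT hP le_rfl (by omega) (by simp only [Bool.false_eq_true, if_false]; omega),
      C.q3 hM1 hT (by omega) (by omega) (by simp only [Bool.false_eq_true, if_false]; omega)⟩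
  · exact isSide3.2 ⟨C.q4 hM1 hT hP le_rfl (by omega) (by simp only [if_true]; omega),
      C.q3 hM1 hT (by omega) (by omega) (by simp only [if_true]; omega)⟩

lemma t0_side : IsSide T.P.Q ((M * bt - 1, rw' sg M Y0 (-1)), if sg then 2 else 0) := by
  have hM1 : 1 < M := by omega
  obtain ⟨n1, n2, n3, n4⟩ := C.nums hM1 hT
  unfold rw'
  cases sg
  · simp only [Bool.false_eq_true, if_false]
    exact isSide0.2 ⟨C.q2 hM1 hT (by omega) (by omega) (by simp only [Bool.false_eq_true, if_false]; omega),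
      C.q3 hM1 hT (by omega) (by omega) (by simp only [Bool.false_eq_true, if_false]; omega)⟩
  · simp only [if_true]
    exact isSide2.2 ⟨C.q2 hM1 hT (by omega) (by omega) (by simp only [if_true]; omega),
      C.q3 hM1 hT (by omega) (by omega) (by simp only [if_true]; omega)⟩

lemma ta_side {d : ℤ} (hd : -1 ≤ d) (h1 : d < M) (hP : d = -1 ∨ P = true) :
    IsSide T.P.Q ((M * bw - 1, rw' sg M Y0 d), 1) := by
  have hM1 : 1 < M := by omega
  refine isSide1.2 (C.qW hM1 hT ?_)
  unfold WR rw'
  cases sg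
  · simp only [Bool.false_eq_true, if_false]
    rcases hP with hP | hP
    · left; omega
    · right; exact ⟨hP, by omega, by omega⟩
  · simp only [if_true]
    rcases hP with hP | hP
    · left; omega
    · right; exact ⟨hP, by omega, by omega⟩

end Cc

lemma rw_inj {sg : Bool} {M Y0 d d' : ℤ} (h : rw' sg M Y0 d = rw' sg M Y0 d') : d = d' := by
  rw [← dep_rw sg M Y0 d, h, dep_rw]

namespace PicD

variable {S : Shape} {aL b : ℤ} {N M' h : ℕ} {hM : 0 < N * M'} {sg P : Bool} {a0 be bt bw Y0 k0 : ℤ}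
  (D : PicD S aL b N M' h hM sg P a0 be bt bw Y0 k0) {x y t : ℤ}
include D

/-- the sides, in depths -/
lemma sd_side' (hT : Tq (rf S (N * M') hM).P.Q (2 * h) (x, ry sg y))
    (h0 : ct (2 * (h : ℤ)) (x, ry sg y) ∉ (rf S (N * M') hM).P.Q) :
    IsSide (rf S (N * M') hM).P.Q ((sd (rf S (N * M') hM).P.Q (2 * h) (x, ry sg y)).1,
      (sd (rf S (N * M') hM).P.Q (2 * h) (x, ry sg y)).2) :=
  sd_side (by have := D.n4; omega) hT h0

lemma dt_lt (ht : yc sg (2 * h * (N * M')) Y0 ≤ t)
    (ht' : t < yc sg (2 * h * (N * M')) Y0 + 2 * h * (3 * (N * M') / 4)) :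
    0 ≤ (t - yc sg (2 * h * (N * M')) Y0) / (2 * (h : ℤ)) ∧
      (t - yc sg (2 * h * (N * M')) Y0) / (2 * (h : ℤ)) + 1 < N * M' := by
  have hn : (0 : ℤ) < 2 * h := by have := D.n4; omega
  have hm := D.mm
  refine ⟨Int.ediv_nonneg (by omega) hn.le, ?_⟩
  have : (t - yc sg (2 * h * (N * M')) Y0) / (2 * (h : ℤ)) < 3 * (N * M') / 4 := by
    rw [Int.ediv_lt_iff_lt_mul hn]; linarith
  omega

/-- depth of the row `YF` -/
lemma dF_eq : (yc sg (2 * h * (N * M')) Y0 + 2 * h * ((N * M') / 2) + h - (if sg then 0 else 1) -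
    yc sg (2 * h * (N * M')) Y0) / (2 * (h : ℤ)) = (N * M' : ℤ) / 2 := by
  have hh := D.hh
  have hs : (if sg then (0 : ℤ) else 1) = 0 ∨ (if sg then (0 : ℤ) else 1) = 1 := by
    cases sg <;> simp
  exact div_in (by omega) (by omega) (by omega)

/-- **Tiles of the tooth.** -/
theorem facts_T (hT : Tq (rf S (N * M') hM).P.Q (2 * h) (x, ry sg y))
    (h0 : ct (2 * (h : ℤ)) (x, ry sg y) ∉ (rf S (N * M') hM).P.Q)
    (ht : yc sg (2 * h * (N * M')) Y0 ≤ t)
    (ht' : t < yc sg (2 * h * (N * M')) Y0 + 2 * h * (3 * (N * M') / 4))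
    (hΦ : Cc.ΦT sg P be bt (N * M') Y0 ((t - yc sg (2 * h * (N * M')) Y0) / (2 * (h : ℤ))) (dX P (N * M'))
      (sd (rf S (N * M') hM).P.Q (2 * h) (x, ry sg y)).1
      (sd (rf S (N * M') hM).P.Q (2 * h) (x, ry sg y)).2) :
    ((pic S b N M' h hM sg P be bt bw Y0 k0).tog t x y ↔
      ((si (rf S (N * M') hM).P (2 * h) (x, ry sg y) = Cc.tlC (rf S (N * M') hM) sg (N * M') be Y0
        ((t - yc sg (2 * h * (N * M')) Y0) / (2 * (h : ℤ))) → y ≤ t) ∧
      (P = true → si (rf S (N * M') hM).P (2 * h) (x, ry sg y) =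
        tbX (rf S (N * M') hM) sg P (N * M') bt Y0 (dX P (N * M')) →
        y ≤ (pic S b N M' h hM sg P be bt bw Y0 k0).YF))) ∧
    (si (rf S (N * M') hM).P (2 * h) (x, ry sg y) = Cc.tlC (rf S (N * M') hM) sg (N * M') be Y0
        ((t - yc sg (2 * h * (N * M')) Y0) / (2 * (h : ℤ))) → x = 2 * h * (N * M') * be) := by
  have hn : (0 : ℤ) < 2 * h := by have := D.n4; omega
  have hL := D.L4
  have hm := D.mm
  obtain ⟨t0, t1⟩ := D.dt_lt ht ht'
  obtain ⟨n1, n2, n3, n4⟩ := D.nums
  have hC := D.C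
  have hTT := rfn S hM
  have hs := D.sd_side' hT h0
  have stl := hC.tl_side (T := rf S (N * M') hM) (by omega) hTT t0 (by omega)
  have hdF := D.dF_eq
  have hYFv : (pic S b N M' h hM sg P be bt bw Y0 k0).YF = yc sg (2 * h * (N * M')) Y0 +
    2 * h * ((N * M') / 2) + h - (if sg then 0 else 1) := rfl
  have htog : (pic S b N M' h hM sg P be bt bw Y0 k0).tog t x y ↔ (2 * h * (N * M') * be ≤ x ∧
    x ≤ 2 * h * (N * M') * bw ∧ yc sg (2 * h * (N * M')) Y0 ≤ y ∧ y ≤ (if x ≤ 2 * h * (N * M') * be then t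
      else if P = true ∧ 2 * h * (N * M') * bt - 1 ≤ x then (pic S b N M' h hM sg P be bt bw Y0 k0).YF
      else yc sg (2 * h * (N * M')) Y0)) := Iff.rfl
  have hYF0 : yc sg (2 * h * (N * M')) Y0 ≤ (pic S b N M' h hM sg P be bt bw Y0 k0).YF := by
    rw [hYFv]
    have hs : (if sg then (0 : ℤ) else 1) = 0 ∨ (if sg then (0 : ℤ) else 1) = 1 := by
      cases sg <;> simp
    have : (0 : ℤ) ≤ 2 * h * ((N * M') / 2) := by positivity
    omega
  rw [htog]
  clear htog
  have hΦ' : Cc.ΦT sg P be bt (N * M') Y0 ((t - yc sg (2 * h * (N * M')) Y0) / (2 * (h : ℤ))) ((N * M') / 2)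
      (sd (rf S (N * M') hM).P.Q (2 * h) (x, ry sg y)).1
      (sd (rf S (N * M') hM).P.Q (2 * h) (x, ry sg y)).2 := by
    unfold Cc.ΦT dX at *
    cases P
    · simp only [Bool.false_eq_true, if_false, false_and, or_false] at hΦ ⊢
      exact hΦ
    · simp only [if_true] at hΦ ⊢
      exact hΦ
  have hsi : si (rf S (N * M') hM).P (2 * h) (x, ry sg y) =
    sx (rf S (N * M') hM).P (sd (rf S (N * M') hM).P.Q (2 * h) (x, ry sg y)).1
      (sd (rf S (N * M') hM).P.Q (2 * h) (x, ry sg y)).2 := rfl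
  rcases D.pos_T hT h0 t0 t1 (by omega) (by omega) hΦ' with ⟨g1, g2, g3, g4⟩ | ⟨g1, g2, g3, g4⟩ |
    ⟨gP, g1, g2, g3, g4⟩
  · -- left side
    have hr := row_dep (sg := sg) (M := (N * M' : ℤ)) (Y0 := Y0) (y := y) hn
    have hi : si (rf S (N * M') hM).P (2 * h) (x, ry sg y) = Cc.tlC (rf S (N * M') hM) sg (N * M') be Y0
        ((y - yc sg (2 * h * (N * M')) Y0) / (2 * (h : ℤ))) := by
      rw [hsi, g4, hr]
      rfl
    have sy := hC.tl_side (T := rf S (N * M') hM) (by omega) hTT g2 (by omega)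
    have hiff : si (rf S (N * M') hM).P (2 * h) (x, ry sg y) = Cc.tlC (rf S (N * M') hM) sg (N * M') be Y0
        ((t - yc sg (2 * h * (N * M')) Y0) / (2 * (h : ℤ))) →
        (y - yc sg (2 * h * (N * M')) Y0) / (2 * (h : ℤ)) = (t - yc sg (2 * h * (N * M')) Y0) / (2 * (h : ℤ)) := by
      intro h
      rw [hi] at h
      have := (sx_cell sy stl h).1
      rw [Prod.mk.injEq] at this
      exact rw_inj this.2
    have hyt : (y - yc sg (2 * h * (N * M')) Y0) / (2 * (h : ℤ)) <
        (t - yc sg (2 * h * (N * M')) Y0) / (2 * (h : ℤ)) → y < t := by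
      intro hlt
      by_contra hc
      have := Int.ediv_le_ediv hn (show t - yc sg (2 * h * (N * M')) Y0 ≤ y - yc sg (2 * h * (N * M')) Y0 by
        omega)
      omega
    have hyc : yc sg (2 * h * (N * M')) Y0 ≤ y := by
      have := (Int.le_ediv_iff_mul_le hn).1 g2
      omega
    have hnb : P = true → si (rf S (N * M') hM).P (2 * h) (x, ry sg y) ≠
        tbX (rf S (N * M') hM) sg P (N * M') bt Y0 (dX P (N * M')) := by
      intro hP h
      unfold tbX dX at h
      rw [if_pos hP, if_pos hP, hi] at h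
      have stb := hC.tb_side (T := rf S (N * M') hM) (d := (N * M') / 2) (by omega) hTT hP (by omega)
        (by omega)
      have := (sx_cell sy stb h).2
      omega
    refine ⟨?_, fun _ => g1⟩
    rw [if_pos g1.le]
    constructor
    · rintro ⟨-, -, -, k4⟩
      exact ⟨fun _ => k4, fun hP hb => absurd hb (hnb hP)⟩
    · rintro ⟨k1, -⟩
      refine ⟨g1.ge, by omega, hyc, ?_⟩
      rcases eq_or_lt_of_le g3 with k | k
      · exact k1 (by rw [hi, k])
      · exact (hyt k).le
  · -- bottom
    have hk : ∀ c k, (k = 1 ∨ k = 3) → IsSide (rf S (N * M') hM).P.Q (c, k) →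
        si (rf S (N * M') hM).P (2 * h) (x, ry sg y) ≠ sx (rf S (N * M') hM).P c k := by
      intro c k hk hs' h
      rw [hsi] at h
      have := (sx_cell hs hs' h).2
      rw [g4] at this
      cases sg
      · simp only [Bool.false_eq_true, if_false] at this
        omega
      · simp only [if_true] at this
        omega
    have k1 : si (rf S (N * M') hM).P (2 * h) (x, ry sg y) ≠ Cc.tlC (rf S (N * M') hM) sg (N * M') be Y0
        ((t - yc sg (2 * h * (N * M')) Y0) / (2 * (h : ℤ))) := hk _ _ (Or.inl rfl) stl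
    refine ⟨?_, fun h => absurd h k1⟩
    constructor
    · intro _
      refine ⟨fun h => absurd h k1, fun hP h => absurd h ?_⟩
      unfold tbX dX
      rw [if_pos hP, if_pos hP]
      exact hk _ _ (Or.inr rfl) (hC.tb_side (T := rf S (N * M') hM) (d := (N * M') / 2) (by omega) hTT hP
        (by omega) (by omega))
    · intro _
      refine ⟨g2, by omega, g1.ge, ?_⟩
      split_ifs
      · omega
      · omega
      · omega
  · -- right side
    have n5 := n4 gP
    have hr := row_dep (sg := sg) (M := (N * M' : ℤ)) (Y0 := Y0) (y := y) hn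
    have hi : si (rf S (N * M') hM).P (2 * h) (x, ry sg y) = Cc.tbC (rf S (N * M') hM) sg (N * M') bt Y0
        ((y - yc sg (2 * h * (N * M')) Y0) / (2 * (h : ℤ))) := by
      rw [hsi, g4, hr]
      rfl
    have sy := hC.tb_side (T := rf S (N * M') hM) (by omega) hTT gP g2 (by omega)
    have stb := hC.tb_side (T := rf S (N * M') hM) (d := (N * M') / 2) (by omega) hTT gP (by omega)
      (by omega)
    have hb : tbX (rf S (N * M') hM) sg P (N * M') bt Y0 (dX P (N * M')) =
        Cc.tbC (rf S (N * M') hM) sg (N * M') bt Y0 ((N * M') / 2) := by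
      unfold tbX dX
      rw [if_pos gP, if_pos gP]
    have hyF : (y - yc sg (2 * h * (N * M')) Y0) / (2 * (h : ℤ)) < (N * M') / 2 →
        y < (pic S b N M' h hM sg P be bt bw Y0 k0).YF := by
      intro hlt
      rw [← hdF] at hlt
      by_contra hc
      rw [hYFv] at hc
      have := Int.ediv_le_ediv hn (show yc sg (2 * h * (N * M')) Y0 + 2 * h * ((N * M') / 2) + h -
        (if sg then 0 else 1) - yc sg (2 * h * (N * M')) Y0 ≤ y - yc sg (2 * h * (N * M')) Y0 by omega)
      omega
    have hyc : yc sg (2 * h * (N * M')) Y0 ≤ y := by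
      have := (Int.le_ediv_iff_mul_le hn).1 g2
      omega
    have hnl : si (rf S (N * M') hM).P (2 * h) (x, ry sg y) ≠ Cc.tlC (rf S (N * M') hM) sg (N * M') be Y0
        ((t - yc sg (2 * h * (N * M')) Y0) / (2 * (h : ℤ))) := by
      intro h
      rw [hi] at h
      have := (sx_cell sy stl h).2
      omega
    refine ⟨?_, fun h => absurd h hnl⟩
    rw [if_neg (by omega), if_pos ⟨gP, by omega⟩, hb]
    constructor
    · rintro ⟨-, -, -, k4⟩
      exact ⟨fun h => absurd h hnl, fun _ _ => k4⟩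
    · rintro ⟨-, k2⟩
      refine ⟨by omega, by omega, hyc, ?_⟩
      rcases eq_or_lt_of_le g3 with k | k
      · exact k2 gP (by rw [hi, k])
      · exact (hyF k).le

/-- **Tiles of the right wall.** -/
theorem facts_W (hT : Tq (rf S (N * M') hM).P.Q (2 * h) (x, ry sg y))
    (h0 : ct (2 * (h : ℤ)) (x, ry sg y) ∉ (rf S (N * M') hM).P.Q)
    (hΦ : Cc.ΦW sg bw (N * M') Y0 (dX P (N * M')) (sd (rf S (N * M') hM).P.Q (2 * h) (x, ry sg y)).1
      (sd (rf S (N * M') hM).P.Q (2 * h) (x, ry sg y)).2) :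
    ((pic S b N M' h hM sg P be bt bw Y0 k0).tog t x y ↔
      ((si (rf S (N * M') hM).P (2 * h) (x, ry sg y) = teC (rf S (N * M') hM) sg (N * M') bw Y0 →
        yc sg (2 * h * (N * M')) Y0 ≤ y) ∧
      (P = true → si (rf S (N * M') hM).P (2 * h) (x, ry sg y) =
        taX (rf S (N * M') hM) sg P (N * M') bw Y0 (dX P (N * M')) →
        y ≤ (pic S b N M' h hM sg P be bt bw Y0 k0).YF))) ∧ x = 2 * h * (N * M') * bw := by
  have hn : (0 : ℤ) < 2 * h := by have := D.n4; omega
  have hL := D.L4
  have hm := D.mm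
  obtain ⟨n1, n2, n3, n4⟩ := D.nums
  have hC := D.C
  have hTT := rfn S hM
  have hdF := D.dF_eq
  have hYFv : (pic S b N M' h hM sg P be bt bw Y0 k0).YF = yc sg (2 * h * (N * M')) Y0 +
    2 * h * ((N * M') / 2) + h - (if sg then 0 else 1) := rfl
  have htog : (pic S b N M' h hM sg P be bt bw Y0 k0).tog t x y ↔ (2 * h * (N * M') * be ≤ x ∧
    x ≤ 2 * h * (N * M') * bw ∧ yc sg (2 * h * (N * M')) Y0 ≤ y ∧ y ≤ (if x ≤ 2 * h * (N * M') * be then t
      else if P = true ∧ 2 * h * (N * M') * bt - 1 ≤ x then (pic S b N M' h hM sg P be bt bw Y0 k0).YF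
      else yc sg (2 * h * (N * M')) Y0)) := Iff.rfl
  rw [htog]
  clear htog
  have hsi : si (rf S (N * M') hM).P (2 * h) (x, ry sg y) =
    sx (rf S (N * M') hM).P (sd (rf S (N * M') hM).P.Q (2 * h) (x, ry sg y)).1
      (sd (rf S (N * M') hM).P.Q (2 * h) (x, ry sg y)).2 := rfl
  by_cases hP : P = true
  · have n5 := n4 hP
    have hdX : dX P (N * M') = (N * M') / 2 := by unfold dX; rw [if_pos hP]
    have hta : taX (rf S (N * M') hM) sg P (N * M') bw Y0 (dX P (N * M')) =
        Cc.taC (rf S (N * M') hM) sg (N * M') bw Y0 ((N * M') / 2) := by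
      unfold taX; rw [if_pos hP, hdX]
    rw [hta]
    rw [hdX] at hΦ
    obtain ⟨g1, g2⟩ := D.pos_W hT h0 (Or.inl ⟨hP, by omega, by omega⟩) hΦ
    rcases g2 with ⟨g2, g3, g4⟩ | ⟨g2, -⟩
    · have hr := row_dep (sg := sg) (M := (N * M' : ℤ)) (Y0 := Y0) (y := y) hn
      have hi : si (rf S (N * M') hM).P (2 * h) (x, ry sg y) = Cc.taC (rf S (N * M') hM) sg (N * M') bw Y0
          ((y - yc sg (2 * h * (N * M')) Y0) / (2 * (h : ℤ))) := by
        rw [hsi, g4, hr]
        rfl
      have sy := hC.ta_side (T := rf S (N * M') hM) (by omega) hTT g2 (by omega) (Or.inr hP)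
      have sta := hC.ta_side (T := rf S (N * M') hM) (d := (N * M') / 2) (by omega) hTT (by omega) (by omega)
        (Or.inr hP)
      have ste := hC.ta_side (T := rf S (N * M') hM) (d := -1) (by omega) hTT (by omega) (by omega)
        (Or.inr hP)
      refine ⟨?_, g1⟩
      rw [if_neg (by omega), if_pos ⟨hP, by omega⟩, hi, Cc.te_eq]
      constructor
      · rintro ⟨-, -, k3, k4⟩
        exact ⟨fun _ => k3, fun _ _ => k4⟩
      · rintro ⟨k1, k2⟩
        have hyc : yc sg (2 * h * (N * M')) Y0 ≤ y := by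
          by_contra hc
          have h1 : (y - yc sg (2 * h * (N * M')) Y0) / (2 * (h : ℤ)) < 0 := by
            rw [Int.ediv_lt_iff_lt_mul hn]; omega
          exact hc (k1 (by rw [show (y - yc sg (2 * h * (N * M')) Y0) / (2 * (h : ℤ)) = -1 by omega]))
        refine ⟨by omega, by omega, hyc, ?_⟩
        rcases eq_or_lt_of_le g3 with k | k
        · exact k2 hP (by rw [k])
        · rw [← hdF] at k
          by_contra hc
          rw [hYFv] at hc
          have := Int.ediv_le_ediv hn (show yc sg (2 * h * (N * M')) Y0 + 2 * h * ((N * M') / 2) + h -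
            (if sg then 0 else 1) - yc sg (2 * h * (N * M')) Y0 ≤ y - yc sg (2 * h * (N * M')) Y0 by omega)
          omega
    · exact absurd hP (by simp [g2])
  · have hP' : P = false := by simpa using hP
    have hbt := hC.l4 hP'
    have hbt' : 2 * (h : ℤ) * (N * M') * bt = 2 * h * (N * M') * bw := by rw [hbt]
    have hdX : dX P (N * M') = -1 := by unfold dX; rw [if_neg hP]
    rw [hdX] at hΦ
    obtain ⟨g1, g2⟩ := D.pos_W hT h0 (Or.inr ⟨hP', rfl⟩) hΦ
    have hi : si (rf S (N * M') hM).P (2 * h) (x, ry sg y) = teC (rf S (N * M') hM) sg (N * M') bw Y0 := by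
      have hs := D.sd_side' hT h0
      rw [hsi, Cc.te_eq]
      unfold Cc.ΦW at hΦ
      obtain ⟨w1, w2, w3, w4⟩ := hΦ
      unfold Cc.taC
      rw [w1]
      congr 1
      refine Prod.ext w2 ?_
      simp only
      unfold dep at w3 w4
      unfold rw'
      cases sg
      · simp only [Bool.false_eq_true, if_false] at w3 w4 ⊢; omega
      · simp only [if_true] at w3 w4 ⊢; omega
    refine ⟨?_, g1⟩
    rw [if_neg (by omega), if_neg (fun h => hP h.1)]
    constructor
    · rintro ⟨-, -, k3, k4⟩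
      exact ⟨fun _ => k3, fun h => absurd h hP⟩
    · rintro ⟨k1, -⟩
      have k2 := k1 hi
      refine ⟨by omega, by omega, k2, ?_⟩
      rcases g2 with ⟨-, g3, -⟩ | ⟨-, g3⟩
      · exfalso
        have : 0 ≤ (y - yc sg (2 * h * (N * M')) Y0) / (2 * (h : ℤ)) := Int.ediv_nonneg (by omega) hn.le
        omega
      · exact g3.le

/-- **Tiles between the exits are tiles of the tooth or of the right wall.** -/
theorem facts_O (hT : Tq (rf S (N * M') hM).P.Q (2 * h) (x, ry sg y))
    (h0 : ct (2 * (h : ℤ)) (x, ry sg y) ∉ (rf S (N * M') hM).P.Q)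
    (ht : yc sg (2 * h * (N * M')) Y0 ≤ t)
    (ht' : t < yc sg (2 * h * (N * M')) Y0 + 2 * h * (3 * (N * M') / 4))
    (htog : (pic S b N M' h hM sg P be bt bw Y0 k0).tog t x y) :
    Cc.ΦT sg P be bt (N * M') Y0 ((t - yc sg (2 * h * (N * M')) Y0) / (2 * (h : ℤ))) (dX P (N * M'))
      (sd (rf S (N * M') hM).P.Q (2 * h) (x, ry sg y)).1
      (sd (rf S (N * M') hM).P.Q (2 * h) (x, ry sg y)).2 ∨
    Cc.ΦW sg bw (N * M') Y0 (dX P (N * M')) (sd (rf S (N * M') hM).P.Q (2 * h) (x, ry sg y)).1
      (sd (rf S (N * M') hM).P.Q (2 * h) (x, ry sg y)).2 := by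
  have hn : (0 : ℤ) < 2 * h := by have := D.n4; omega
  have hh := D.hh
  have hL := D.L4
  have hLb := D.Lbig
  have hm := D.mm
  obtain ⟨n1, n2, n3, n4⟩ := D.nums
  have hC := D.C
  have hTT := rfn S hM
  have hdF := D.dF_eq
  have hYFv : (pic S b N M' h hM sg P be bt bw Y0 k0).YF = yc sg (2 * h * (N * M')) Y0 +
    2 * h * ((N * M') / 2) + h - (if sg then 0 else 1) := rfl
  have htog' : 2 * h * (N * M') * be ≤ x ∧
    x ≤ 2 * h * (N * M') * bw ∧ yc sg (2 * h * (N * M')) Y0 ≤ y ∧ y ≤ (if x ≤ 2 * h * (N * M') * be then t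
      else if P = true ∧ 2 * h * (N * M') * bt - 1 ≤ x then (pic S b N M' h hM sg P be bt bw Y0 k0).YF
      else yc sg (2 * h * (N * M')) Y0) := htog
  clear htog
  obtain ⟨t1, t2, t3, t4⟩ := htog'
  have hin : ¬ InV S.P.Q sg (2 * h * (N * M')) x y := fun hc => h0 ((ct_InV D.h0).2 hc)
  have htc : TcV S.P.Q sg (2 * h * (N * M')) x y := by
    have := (Tq_iff (Q := S.P.Q) (sg := sg) (L := 2 * h * (N * M')) (x := x) (y := y)).1
    refine this ?_
    obtain ⟨q, q1, q2, q3⟩ := hT
    exact ⟨q, q1, q2, (ct_InV (S := S) (hM := hM) (sg := true) D.h0 (x := q.1) (y := q.2)).1 q3⟩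
  have hs01 : (if sg then (0 : ℤ) else 1) = 0 ∨ (if sg then (0 : ℤ) else 1) = 1 := by
    cases sg <;> simp
  have hYb : (pic S b N M' h hM sg P be bt bw Y0 k0).YF < yc sg (2 * h * (N * M')) Y0 +
      2 * h * (N * M') - 1 := by
    rw [hYFv]
    have : 2 * (h : ℤ) * ((N * M') / 2) + 2 * h * 15 ≤ 2 * h * (N * M') := by
      have : ((N : ℤ) * M') / 2 + 15 ≤ N * M' := by omega
      nlinarith
    omega
  have hYF0 : yc sg (2 * h * (N * M')) Y0 ≤ (pic S b N M' h hM sg P be bt bw Y0 k0).YF := by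
    rw [hYFv]
    have : (0 : ℤ) ≤ 2 * h * ((N * M') / 2) := by positivity
    omega
  have hyL : y < yc sg (2 * h * (N * M')) Y0 + 2 * h * (N * M') - 1 := by
    split_ifs at t4
    · omega
    · omega
    · omega
  have hdy : 0 ≤ (y - yc sg (2 * h * (N * M')) Y0) / (2 * (h : ℤ)) := Int.ediv_nonneg (by omega) hn.le
  have hdr := dep_row (sg := sg) (M := (N * M' : ℤ)) (Y0 := Y0) (y := y) hn
  have hyF : y ≤ (pic S b N M' h hM sg P be bt bw Y0 k0).YF →
      (y - yc sg (2 * h * (N * M')) Y0) / (2 * (h : ℤ)) ≤ (N * M') / 2 := by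
    intro hle
    rw [← hdF]
    rw [hYFv] at hle
    exact Int.ediv_le_ediv hn (by omega)
  rcases eq_or_lt_of_le t1 with e1 | e1
  · -- left side
    left
    rw [if_pos (by omega)] at t4
    rw [← e1, D.sd_TA t3 (by omega)]
    left
    simp only
    rw [hdr]
    exact ⟨trivial, trivial, hdy, Int.ediv_le_ediv hn (by omega)⟩
  · rcases lt_or_ge x (2 * h * (N * M') * bt) with e2 | e2
    · left
      have hto := (hC.tooth hL t1 e2 t3 hyL).1 htc
      by_cases hR : P = true ∧ x = 2 * h * (N * M') * bt - 1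
      · obtain ⟨hP, hx⟩ := hR
        rw [if_neg (by omega), if_pos ⟨hP, by omega⟩] at t4
        rw [hx, D.sd_TC hP t3 (by omega)]
        right; right
        simp only
        rw [hdr]
        unfold dX
        rw [if_pos hP]
        exact ⟨hP, trivial, trivial, hdy, hyF t4⟩
      · have hy : y = yc sg (2 * h * (N * M')) Y0 := by
          rcases hto with h | h | h
          · omega
          · exact h
          · exact absurd h hR
        rw [hy, D.sd_TB e1 e2 hR]
        right; left
        simp only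
        rw [dep_rw]
        have hc : N * M' * be ≤ x / (2 * (h : ℤ)) ∧ x / (2 * (h : ℤ)) < N * M' * bt :=
          div_col hn (by linarith) (by linarith)
        exact ⟨trivial, rfl, hc.1, hc.2⟩
    · -- right of the tooth
      have hxw : x = 2 * h * (N * M') * bw := by
        rcases eq_or_lt_of_le t2 with h | h
        · exact h
        · exfalso
          by_cases hP : P = true
          · exact hin (hC.f4 (by omega) hP e2 h t3 (by omega))
          · have := hC.l4 (by simpa using hP)
            rw [this] at e2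
            omega
      right
      by_cases hP : P = true
      · have n5 := n4 hP
        rw [if_neg (by omega), if_pos ⟨hP, by omega⟩] at t4
        rw [hxw, D.sd_W (by omega) (by omega) (Or.inr hP)]
        unfold Cc.ΦW dX
        simp only
        rw [hdr, if_pos hP]
        exact ⟨trivial, trivial, by omega, hyF t4⟩
      · rw [if_neg (by omega), if_neg (fun h => hP h.1)] at t4
        have hy : y = yc sg (2 * h * (N * M')) Y0 := by omega
        have hP' : P = false := by simpa using hP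
        have hbt := hC.l4 hP'
        have hbt' : 2 * (h : ℤ) * (N * M') * bt = 2 * h * (N * M') * bw := by rw [hbt]
        have hL0 : (0 : ℤ) < 2 * h * (N * M') := by omega
        rw [hxw, hy, sd_E D.h0 (hC.f3 hL0 (by omega) (by omega) (by omega) (by omega))
          (hC.f5 hL0 (by omega) (by omega) (by omega) (by omega))
          (hC.f5 hL0 (by omega) (by omega) (by omega) (by omega))
          (hC.f5 hL0 (by omega) (by omega) (by omega) (by omega))
          (hC.f2 hL0 (by omega) (by omega) (by omega) (by omega))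
          (hC.f3 hL0 (by omega) (by omega) (by omega) (by omega))]
        unfold Cc.ΦW dX ct
        simp only
        rw [D.col1 bw, D.row1, if_neg hP]
        unfold dep
        refine ⟨trivial, rfl, ?_, ?_⟩
        · cases sg
          · simp only [Bool.false_eq_true, if_false]; omega
          · simp only [if_true]; omega
        · cases sg
          · simp only [Bool.false_eq_true, if_false]; omega
          · simp only [if_true]; omega

/-- **The outer tiles between the exits, in terms of indices.** -/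
theorem tog_iff (hT : Tq (rf S (N * M') hM).P.Q (2 * h) (x, ry sg y))
    (h0 : ct (2 * (h : ℤ)) (x, ry sg y) ∉ (rf S (N * M') hM).P.Q)
    (ht : yc sg (2 * h * (N * M')) Y0 ≤ t)
    (ht' : t < yc sg (2 * h * (N * M')) Y0 + 2 * h * (3 * (N * M') / 4))
    (hn1 : x = 2 * h * (N * M') * be → y ≠ t) :
    (Xor (teC (rf S (N * M') hM) sg (N * M') bw Y0 < si (rf S (N * M') hM).P (2 * h) (x, ry sg y) ∨
        (teC (rf S (N * M') hM) sg (N * M') bw Y0 = si (rf S (N * M') hM).P (2 * h) (x, ry sg y) ∧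
          v0C (2 * h * (N * M')) Y0 < ry sg y))
      ((pic S b N M' h hM sg P be bt bw Y0 k0).tog t x y)) ↔
    (Xor (Cc.tlC (rf S (N * M') hM) sg (N * M') be Y0 ((t - yc sg (2 * h * (N * M')) Y0) / (2 * (h : ℤ))) <
          si (rf S (N * M') hM).P (2 * h) (x, ry sg y) ∨
        (Cc.tlC (rf S (N * M') hM) sg (N * M') be Y0 ((t - yc sg (2 * h * (N * M')) Y0) / (2 * (h : ℤ))) =
          si (rf S (N * M') hM).P (2 * h) (x, ry sg y) ∧ ry sg t < ry sg y))
      (P = true ∧ RrC sg (taX (rf S (N * M') hM) sg P (N * M') bw Y0 (dX P (N * M')))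
        (tbX (rf S (N * M') hM) sg P (N * M') bt Y0 (dX P (N * M')))
        (si (rf S (N * M') hM).P (2 * h) (x, ry sg y)) ((pic S b N M' h hM sg P be bt bw Y0 k0).YF < y)) ↔
      nwC (rf S (N * M') hM) sg (N * M') be bw Y0 ((t - yc sg (2 * h * (N * M')) Y0) / (2 * (h : ℤ)))) := by
  have hm := D.mm
  have hC := D.C
  have hTT := rfn S hM
  obtain ⟨t0, t1⟩ := D.dt_lt ht ht'
  obtain ⟨f1, f2, f3, f4⟩ := hC.nums D.m1 hTT
  have hs := D.sd_side' hT h0
  have hk := sd_k (by have := D.n4; omega) hT h0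
  have ST := hC.sgT (T := rf S (N * M') hM) (by omega) hTT t0 (by omega)
  have SW := hC.sgW (T := rf S (N * M') hM) (by omega) hTT
  have FT := D.facts_T (t := t) hT h0 ht ht'
  have FW := D.facts_W (t := t) hT h0
  have FO := D.facts_O (t := t) hT h0 ht ht'
  have stl := hC.tl_side (T := rf S (N * M') hM) (by omega) hTT t0 (by omega)
  have ste := hC.ta_side (T := rf S (N * M') hM) (d := -1) (by omega) hTT (by omega) (by omega) (Or.inl rfl)
  -- the exits are in different intervals
  have nT : ∀ c : Cell, c.1 = N * M' * bw - 1 → ¬ Cc.ΦT sg P be bt (N * M') Y0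
      ((t - yc sg (2 * h * (N * M')) Y0) / (2 * (h : ℤ))) (dX P (N * M')) c 1 := by
    intro c hc hΦ
    unfold Cc.ΦT at hΦ
    rcases hΦ with ⟨-, g, -⟩ | ⟨g, -⟩ | ⟨-, g, -⟩
    · omega
    · cases sg
      · simp only [Bool.false_eq_true, if_false] at g; omega
      · simp only [if_true] at g; omega
    · omega
  have nW : ¬ Cc.ΦW sg bw (N * M') Y0 (dX P (N * M'))
      (N * M' * be - 1, rw' sg (N * M') Y0 ((t - yc sg (2 * h * (N * M')) Y0) / (2 * (h : ℤ)))) 1 := by
    intro hΦ
    unfold Cc.ΦW at hΦ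
    have := hΦ.2.1
    simp only at this
    omega
  have hbl : tbX (rf S (N * M') hM) sg P (N * M') bt Y0 (dX P (N * M')) ≠
      Cc.tlC (rf S (N * M') hM) sg (N * M') be Y0 ((t - yc sg (2 * h * (N * M')) Y0) / (2 * (h : ℤ))) := by
    intro he
    unfold tbX at he
    by_cases hP : P = true
    · rw [if_pos hP] at he
      have hd : dX P (N * M') = (N * M') / 2 := by unfold dX; rw [if_pos hP]
      rw [hd] at he
      have := (sx_cell (hC.tb_side (T := rf S (N * M') hM) (by omega) hTT hP (by omega) (by omega)) stl he).2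
      omega
    · rw [if_neg hP] at he
      have := (sx_cell (hC.t0_side (T := rf S (N * M') hM) (by omega) hTT) stl he).2
      cases sg
      · simp only [Bool.false_eq_true, if_false] at this; omega
      · simp only [if_true] at this; omega
  have hPa : P = true → teC (rf S (N * M') hM) sg (N * M') bw Y0 ≠
      taX (rf S (N * M') hM) sg P (N * M') bw Y0 (dX P (N * M')) := by
    intro hP he
    unfold taX at he
    have hd : dX P (N * M') = (N * M') / 2 := by unfold dX; rw [if_pos hP]
    rw [if_pos hP, hd, Cc.te_eq] at he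
    have := (sx_cell ste (hC.ta_side (T := rf S (N * M') hM) (by omega) hTT (by omega) (by omega)
      (Or.inr hP)) he).1
    rw [Prod.mk.injEq] at this
    have := rw_inj this.2
    omega
  have hta : ∃ d : ℤ, -1 ≤ d ∧ d < N * M' ∧ (d = -1 ∨ P = true) ∧
      taX (rf S (N * M') hM) sg P (N * M') bw Y0 (dX P (N * M')) =
      sx (rf S (N * M') hM).P (N * M' * bw - 1, rw' sg (N * M') Y0 d) 1 := by
    unfold taX dX
    by_cases hP : P = true
    · rw [if_pos hP, if_pos hP]
      exact ⟨(N * M') / 2, by omega, by omega, Or.inr hP, rfl⟩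
    · rw [if_neg hP, Cc.te_eq]
      exact ⟨-1, by omega, by omega, Or.inl rfl, rfl⟩
  obtain ⟨da, da1, da2, da3, hta⟩ := hta
  have sta := hC.ta_side (T := rf S (N * M') hM) (by omega) hTT da1 da2 da3
  have hPn : P = false → taX (rf S (N * M') hM) sg P (N * M') bw Y0 (dX P (N * M')) =
      teC (rf S (N * M') hM) sg (N * M') bw Y0 := by
    intro hP
    unfold taX
    rw [if_neg (by simp [hP])]
  have hcor : P = false → if sg then
      (tbX (rf S (N * M') hM) sg P (N * M') bt Y0 (dX P (N * M')) = teC (rf S (N * M') hM) sg (N * M') bw Y0 + 1 ∨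
        (teC (rf S (N * M') hM) sg (N * M') bw Y0 = (rf S (N * M') hM).N - 1 ∧
          tbX (rf S (N * M') hM) sg P (N * M') bt Y0 (dX P (N * M')) = 0))
      else (teC (rf S (N * M') hM) sg (N * M') bw Y0 = tbX (rf S (N * M') hM) sg P (N * M') bt Y0 (dX P (N * M')) + 1 ∨
        (tbX (rf S (N * M') hM) sg P (N * M') bt Y0 (dX P (N * M')) = (rf S (N * M') hM).N - 1 ∧
          teC (rf S (N * M') hM) sg (N * M') bw Y0 = 0)) := by
    intro hP
    have := hC.corner0 D.m1 hTT hP
    have e : tbX (rf S (N * M') hM) sg P (N * M') bt Y0 (dX P (N * M')) =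
        Cc.t0C (rf S (N * M') hM) sg (N * M') bt Y0 := by
      unfold tbX
      rw [if_neg (by simp [hP])]
    rw [e]
    exact this
  have hiN : si (rf S (N * M') hM).P (2 * h) (x, ry sg y) < (rf S (N * M') hM).N := (sx_spec hs).1
  have hteN : teC (rf S (N * M') hM) sg (N * M') bw Y0 < (rf S (N * M') hM).N := hC.te_lt D.m1 hTT
  have hRf : ∀ a b i : ℕ, i = a ∨ i = b → ¬ Bh a b i ∧ ¬ Bh b a i := by
    intro a b i hi
    unfold Bh
    omega
  -- membership in the intervals
  have eW1 := nT (N * M' * bw - 1, rw' sg (N * M') Y0 (-1)) rfl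
  have eW2 := nT (N * M' * bw - 1, rw' sg (N * M') Y0 da) rfl
  have hsi : si (rf S (N * M') hM).P (2 * h) (x, ry sg y) =
    sx (rf S (N * M') hM).P (sd (rf S (N * M') hM).P.Q (2 * h) (x, ry sg y)).1
      (sd (rf S (N * M') hM).P.Q (2 * h) (x, ry sg y)).2 := rfl
  have hte' : teC (rf S (N * M') hM) sg (N * M') bw Y0 =
    sx (rf S (N * M') hM).P (N * M' * bw - 1, rw' sg (N * M') Y0 (-1)) 1 := Cc.te_eq
  have htl' : Cc.tlC (rf S (N * M') hM) sg (N * M') be Y0 ((t - yc sg (2 * h * (N * M')) Y0) / (2 * (h : ℤ))) =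
    sx (rf S (N * M') hM).P (N * M' * be - 1, rw' sg (N * M') Y0
      ((t - yc sg (2 * h * (N * M')) Y0) / (2 * (h : ℤ)))) 1 := rfl
  unfold nwC
  unfold Cc.Sd at ST SW
  have hv0 : (v0C (2 * h * (N * M')) Y0 < ry sg y) ↔
      (if sg then yc sg (2 * h * (N * M')) Y0 ≤ y else y < yc sg (2 * h * (N * M')) Y0) := by
    unfold v0C yc
    cases sg
    · simp only [Bool.false_eq_true, if_false, ry_false]; omega
    · simp only [if_true, ry_true]; omega
  have htv : (ry sg t < ry sg y) ↔ (if sg then t < y else y < t) := by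
    cases sg
    · simp only [Bool.false_eq_true, if_false, ry_false]; omega
    · simp only [if_true, ry_true]
  rw [hv0, htv]
  have nd : si (rf S (N * M') hM).P (2 * h) (x, ry sg y) =
      Cc.tlC (rf S (N * M') hM) sg (N * M') be Y0 ((t - yc sg (2 * h * (N * M')) Y0) / (2 * (h : ℤ))) → y ≠ t := by
    intro he
    refine hn1 ?_
    have hin : Cc.ΦT sg P be bt (N * M') Y0 ((t - yc sg (2 * h * (N * M')) Y0) / (2 * (h : ℤ))) (dX P (N * M'))
        (sd (rf S (N * M') hM).P.Q (2 * h) (x, ry sg y)).1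
        (sd (rf S (N * M') hM).P.Q (2 * h) (x, ry sg y)).2 := by
      cases sg
      · simp only [Bool.false_eq_true, if_false] at ST
        refine (ST.2.2 _ _ hk.1 hk.2 hs).2 ?_
        rw [← hsi, he]
        exact ⟨le_rfl, ST.1⟩
      · simp only [if_true] at ST
        refine (ST.2.2 _ _ hk.1 hk.2 hs).2 ?_
        rw [← hsi, he]
        exact ⟨ST.1, le_rfl⟩
    exact (FT hin).2 he
  generalize hte : teC (rf S (N * M') hM) sg (N * M') bw Y0 = te at *
  generalize htl : Cc.tlC (rf S (N * M') hM) sg (N * M') be Y0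
    ((t - yc sg (2 * h * (N * M')) Y0) / (2 * (h : ℤ))) = tl at *
  generalize hb : tbX (rf S (N * M') hM) sg P (N * M') bt Y0 (dX P (N * M')) = bb at *
  generalize ha : taX (rf S (N * M') hM) sg P (N * M') bw Y0 (dX P (N * M')) = aa at *
  generalize hii : si (rf S (N * M') hM).P (2 * h) (x, ry sg y) = i at *
  generalize hYY : (pic S b N M' h hM sg P be bt bw Y0 k0).YF = YF at *
  generalize htt : (pic S b N M' h hM sg P be bt bw Y0 k0).tog t x y = tog at *
  unfold RrC
  cases sg
  · simp only [Bool.false_eq_true, if_false] at *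
    have a1 := (ST.2.2 _ _ hk.1 hk.2 hs)
    have a2 := (SW.2.2 _ _ hk.1 hk.2 hs)
    rw [← hsi] at a1 a2
    have b1 := (ST.2.2 _ _ (by norm_num) (by norm_num) ste).not.1 eW1
    have b2 := (ST.2.2 _ _ (by norm_num) (by norm_num) sta).not.1 eW2
    have b3 := (SW.2.2 _ _ (by norm_num) (by norm_num) stl).not.1 nW
    rw [← hte'] at b1
    rw [← hta] at b2
    rw [← htl'] at b3
    have c1 := ST.1
    have c2 := SW.1
    have cN := ST.2.1
    refine order_dn (Pp := P = true) ?_ hPa (fun h => hPn (by simpa using h)) ?_ ?_ ?_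
      (fun g1 g2 => (FT (a1.2 ⟨g1, g2⟩)).1) (fun g1 g2 => (FW (a2.2 ⟨g1, g2⟩)).1) ?_ nd
    · clear FT FW FO a1 a2 nT nW hcor hPa hPn hRf nd hn1
      omega
    · intro hB
      by_cases hP : P = true
      · exact ⟨hP, Or.inl hB⟩
      · exfalso
        have hP' : P = false := by simpa using hP
        have e1 := hPn hP'
        have e2 := hcor hP'
        unfold Bh at hB
        clear FT FW FO a1 a2 nT nW hcor hPa hPn hRf nd hn1
        omega
    · intro hi
      have := (hRf _ _ _ hi).2
      simp only [this, false_or, hi, true_and]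
    · rintro ⟨-, h | ⟨h, -⟩⟩
      · exact Or.inl h
      · exact Or.inr h
    · intro hg
      rcases FO hg with h | h
      · exact Or.inl (a1.1 h)
      · exact Or.inr (a2.1 h)
  · simp only [if_true] at *
    have a1 := (ST.2.2 _ _ hk.1 hk.2 hs)
    have a2 := (SW.2.2 _ _ hk.1 hk.2 hs)
    rw [← hsi] at a1 a2
    have b1 := (ST.2.2 _ _ (by norm_num) (by norm_num) ste).not.1 eW1
    have b2 := (ST.2.2 _ _ (by norm_num) (by norm_num) sta).not.1 eW2
    have b3 := (SW.2.2 _ _ (by norm_num) (by norm_num) stl).not.1 nW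
    rw [← hte'] at b1
    rw [← hta] at b2
    rw [← htl'] at b3
    have c1 := ST.1
    have c2 := SW.1
    have cN := ST.2.1
    refine order_up (Pp := P = true) ?_ hPa (fun h => hPn (by simpa using h)) ?_ ?_ ?_
      (fun g1 g2 => (FT (a1.2 ⟨g1, g2⟩)).1) (fun g1 g2 => (FW (a2.2 ⟨g1, g2⟩)).1) ?_
    · clear FT FW FO a1 a2 nT nW hcor hPa hPn hRf nd hn1
      omega
    · intro hB
      by_cases hP : P = true
      · exact ⟨hP, Or.inl hB⟩
      · exfalso
        have hP' : P = false := by simpa using hP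
        have e1 := hPn hP'
        have e2 := hcor hP'
        unfold Bh at hB
        clear FT FW FO a1 a2 nT nW hcor hPa hPn hRf nd hn1
        omega
    · intro hi
      have := (hRf _ _ _ hi).1
      simp only [this, false_or, hi, true_and]
    · rintro ⟨-, h | ⟨h, -⟩⟩
      · exact Or.inl h
      · exact Or.inr h
    · intro hg
      rcases FO hg with h | h
      · exact Or.inl (a1.1 h)
      · exact Or.inr (a2.1 h)

end PicD

end Pool.Agent.H78.W
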