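import Mathlib
import Pool.Agent.H78.W.VGo
import Pool.Agent.H97.W.Loc2
import Pool.Agent.H19.W.RSide

set_option autoImplicit false
set_option linter.unusedVariables false
open Finset

/-! # StChd, V1: worlds in the coordinates of the picture = coherent worlds of the polygon -/

namespace Pool.Agent.H78.W

open Pool.Agent.Q1.M4 (Cell PType IsSide)
open Pool.Agent.H21.FM (Shape)
open Pool.Agent.H33.Q1 (lt tt ct TL lt_odd tt_lt lt_tt lt_inj mem_TL lt_mem_TL)
open Pool.Agent.H13.W (chG SG eW SG_congr)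
open Pool.Agent.H58.W (plV PB PB_congr PB_blocks)
open Pool.Agent.H50.W (rf bk bk_eq_iff bk_none bk_some)
open Pool.Agent.H82.W (WD)
open Pool.Agent.H19.W (cx cy cx_lt cy_lt lt_cc Tq LamC WC sd si)
open Pool.Agent.H45.W (sw swF swS mem_swF sw_sw reach_sw)
open Pool.Agent.H68.W (sx wf Cf sx_ne sx_spec isSide0 isSide1 isSide2 isSide3)

/-- reflection of a tile -/
def rp (sg : Bool) (p : ℤ × ℤ) : ℤ × ℤ := (p.1, ry sg p.2)

lemma rl_rl (sg : Bool) (e : ℤ × ℤ) : rl sg (rl sg e) = e := by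
  unfold rl
  cases sg <;> simp

lemma lt_rp (sg : Bool) (p : ℤ × ℤ) : lt (rp sg p) = rl sg (lt p) := (rl_lt sg p.1 p.2).symm

lemma eW_rl (sg : Bool) (e : ℤ × ℤ) : eW (rl sg e) = rl sg (eW e) := by
  unfold rl
  cases sg
  · rfl
  · rfl

lemma cx_rl {sg : Bool} {e : ℤ × ℤ} (he : (e.1 + e.2) % 2 = 1) : cx (rl sg e) = cx e := by
  conv_lhs => rw [← lt_cc he, rl_lt, cx_lt]

lemma cy_rl {sg : Bool} {e : ℤ × ℤ} (he : (e.1 + e.2) % 2 = 1) : cy (rl sg e) = ry sg (cy e) := by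
  conv_lhs => rw [← lt_cc he, rl_lt, cy_lt]

/-- **The law**: blocks in the picture and blocks in the polygon. -/
lemma PB_pic {κ : Type*} [DecidableEq κ] {Q : Finset Cell} {n : ℤ} (hn : 0 < n) {sg : Bool}
    {pl : Cell → Option κ} (A : Finset (ℤ × ℤ) → Prop) :
    PB (rlF sg (TL Q n)) (bb fun x y => pl (x / n, ry sg y / n)) A =
      PB (TL Q n) (bk n pl) (fun ω => A (rlF sg ω)) := by
  have hbb : ∀ e : ℤ × ℤ, bb (fun x y => pl (x / n, ry sg y / n)) e =
      match pl (cx e / n, ry sg (cy e) / n) with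
      | none => Sum.inl e
      | some k => Sum.inr k := fun e => rfl
  cases sg
  · have hE : rlF false (TL Q n) = (TL Q n).map Pool.Agent.H45.W.swE := rfl
    rw [hE, Pool.Agent.H50.W.PB_map]
    refine PB_blocks (fun l hl l' hl' => ?_) _
    have ho := ((mem_TL hn).1 hl).1
    have ho' := ((mem_TL hn).1 hl').1
    have key : ∀ e : ℤ × ℤ, (e.1 + e.2) % 2 = 1 →
        bb (fun x y => pl (x / n, ry false y / n)) (sw e) = Sum.map sw id (bk n pl e) := by
      intro e he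
      rw [hbb]
      have e1 : cx (sw e) = cx e := cx_rl (sg := false) he
      have e2 : cy (sw e) = ry false (cy e) := cy_rl (sg := false) he
      rw [e1, e2, ry_ry]
      unfold bk
      have e3 : ct n (tt e) = (cx e / n, cy e / n) := rfl
      rw [e3]
      cases pl (cx e / n, cy e / n) <;> rfl
    show bb _ (sw l) = bb _ (sw l') ↔ _
    rw [key l ho, key l' ho']
    constructor
    · intro h
      exact (Function.Injective.sumMap Pool.Agent.H45.W.sw_injective Function.injective_id) h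
    · intro h
      rw [h]
  · rfl

/-- reachability in the picture and in the polygon -/
lemma reach_pic {sg : Bool} {Λ Λ' D D' : Set (ℤ × ℤ)} {w w' : Finset (ℤ × ℤ)} {z x : ℤ × ℤ}
    (hΛ : ∀ e, e ∈ Λ' ↔ rl sg e ∈ Λ) (hD : ∀ e ∈ Λ', (e ∈ D' ↔ rl sg e ∈ D))
    (hw : ∀ e ∈ Λ', e ∉ D' → (e ∈ w' ↔ rl sg e ∈ w)) :
    (SG Λ' D' w').Reachable (rl sg z) (rl sg x) ↔ (SG Λ D w).Reachable z x := by
  cases sg
  · have e1 : Λ' = swS Λ := by
      ext e
      exact hΛ e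
    rw [SG_congr (D' := swS D) (w' := swF w) hD (fun e h1 h2 => by rw [mem_swF]; exact hw e h1 h2), e1]
    exact reach_sw
  · have e1 : Λ' = Λ := by
      ext e
      exact hΛ e
    rw [SG_congr (D' := D) (w' := w) hD hw, e1]
    exact Iff.rfl

/-- **Value of a world of the picture = value of a coherent world.** -/
theorem val_pic {κ0 : Type*} [DecidableEq κ0] {P : PType} {n : ℤ} (hn : 0 < n) {sg : Bool}
    {pl : Cell → Option κ0} {κ : ℕ → ℤ → Prop} {D : Set (ℤ × ℤ)} {A : WD ((ℤ × ℤ) ⊕ κ0)}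
    (hΛ : ∀ e, e ∈ A.Λ ↔ rl sg e ∈ LamC P.Q n) (hE : A.E = rlF sg (TL P.Q n))
    (hb : A.b = bb fun x y => pl (x / n, ry sg y / n)) (hF : A.F = ∅)
    (hD : ∀ e ∈ A.Λ, (e ∈ A.D ↔ rl sg e ∈ D))
    (hW : ∀ e ∈ A.Λ, e ∉ A.D → (e ∈ A.W ↔ rl sg e ∈ WC P n κ)) {ι : Type*} [Fintype ι]
    (z : ℤ × ℤ) (x : ι → ℤ × ℤ) (v : ι → ℂ) :
    Pool.Agent.H82.W.val A (rl sg z) (fun i => rl sg (x i)) v = ∑ i, v i * ((PB (TL P.Q n) (bk n pl) fun ω =>
      (SG (LamC P.Q n : Set (ℤ × ℤ)) D (ω ∪ WC P n κ)).Reachable z (x i) : ℝ) : ℂ) := by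
  unfold Pool.Agent.H82.W.val
  refine sum_congr rfl fun i _ => ?_
  rw [hE, hb, PB_pic hn]
  congr 2
  refine PB_congr fun ω hω => ?_
  refine reach_pic hΛ hD fun e h1 h2 => ?_
  unfold WD.st
  rw [hF, mem_union, mem_union, mem_symmDiff, hW e h1 h2, mem_rlF]
  simp

end Pool.Agent.H78.W
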